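import Pool.Agent.Work.MP_2709b3_lc.Asym2

set_option autoImplicit false

namespace Pool.Agent.Work.MP_2709b3_lc

/-- no Siggers polymorphism -/
def NoSig {α : Type*} (E : α → α → Bool) : Prop :=
  ¬ ∃ s : α → α → α → α → α, (∀ a r e, s a r e a = s r a r e) ∧
      ∀ x₁ x₂ x₃ x₄ y₁ y₂ y₃ y₄ : α,
      E x₁ y₁ = true → E x₂ y₂ = true → E x₃ y₃ = true → E x₄ y₄ = true →
      E (s x₁ x₂ x₃ x₄) (s y₁ y₂ y₃ y₄) = true

theorem noSig_of {n a k c : ℕ} {E : Fin n → Fin n → Bool} (hE : IsOT E) (hk : k = a + 1 + c)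
    (hc : 2 ≤ c) (h0 : E ∉ noP n a k) (h1 : ¬ BadN1 E a) (h2 : ¬ BadN2 E a k (c - 2)) :
    NoSig E := by
  classical
  unfold noP at h0
  rw [Finset.mem_filter] at h0
  push Not at h0
  obtain ⟨f, σ, hfσ, hmk⟩ := h0 (mem_OTs.mpr hE)
  unfold UU' at hfσ
  rw [mem_bUn] at hfσ
  obtain ⟨φ, _, hφ⟩ := hfσ
  have hocc := OccS_isOcc hφ
  have hak : a < k := by omega
  have hsp := isOcc_spine hocc
  have hga := isOcc_gadget hocc hak
  rw [hmk] at hsp hga
  exact no_siggers_of_good hE hsp hga (by simp only [kv_zero]) hk hc h1 h2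

open Classical in
theorem frac_lower {n a k c : ℕ} (hn : 0 < n) (hk : k = a + 1 + c) (hc : 2 ≤ c) :
    1 - (((noP n a k).card : ℝ) / ((OTs (Fin n)).card : ℝ) +
      (((OTs (Fin n)).filter (fun E => BadN1 E a)).card : ℝ) / ((OTs (Fin n)).card : ℝ) +
      (((OTs (Fin n)).filter (fun E => BadN2 E a k (c - 2))).card : ℝ) /
        ((OTs (Fin n)).card : ℝ)) ≤
      (((OTs (Fin n)).filter (fun E => NoSig E)).card : ℝ) / ((OTs (Fin n)).card : ℝ) := by
  have h1 := OT_lower n hn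
  have hn' : (0 : ℝ) < n := by exact_mod_cast hn
  have hOTpos : (0 : ℝ) < ((OTs (Fin n)).card : ℝ) := by
    by_contra hcon
    have h2 : ((OTs (Fin n)).card : ℝ) = 0 := le_antisymm (not_lt.mp hcon) (by positivity)
    rw [h2] at h1
    have h3 : (0 : ℝ) < (n : ℝ) ^ n * 2 ^ n := by positivity
    linarith
  have hsub : OTs (Fin n) ⊆ ((OTs (Fin n)).filter (fun E => NoSig E)) ∪
      (noP n a k ∪ ((OTs (Fin n)).filter (fun E => BadN1 E a) ∪
        (OTs (Fin n)).filter (fun E => BadN2 E a k (c - 2)))) := by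
    intro E hE
    simp only [Finset.mem_union, Finset.mem_filter]
    by_cases h3 : E ∈ noP n a k
    · right; left; exact h3
    · by_cases h4 : BadN1 E a
      · right; right; left; exact ⟨hE, h4⟩
      · by_cases h5 : BadN2 E a k (c - 2)
        · right; right; right; exact ⟨hE, h5⟩
        · left; exact ⟨hE, noSig_of (mem_OTs.mp hE) hk hc h3 h4 h5⟩
  have hcard : (OTs (Fin n)).card ≤ ((OTs (Fin n)).filter (fun E => NoSig E)).card +
      ((noP n a k).card + (((OTs (Fin n)).filter (fun E => BadN1 E a)).card +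
        ((OTs (Fin n)).filter (fun E => BadN2 E a k (c - 2))).card)) := by
    refine (Finset.card_le_card hsub).trans ((Finset.card_union_le _ _).trans ?_)
    apply Nat.add_le_add_left
    refine (Finset.card_union_le _ _).trans ?_
    apply Nat.add_le_add_left
    exact Finset.card_union_le _ _
  have hcard' : ((OTs (Fin n)).card : ℝ) ≤ (((OTs (Fin n)).filter (fun E => NoSig E)).card : ℝ) +
      (((noP n a k).card : ℝ) + ((((OTs (Fin n)).filter (fun E => BadN1 E a)).card : ℝ) +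
        (((OTs (Fin n)).filter (fun E => BadN2 E a k (c - 2))).card : ℝ))) := by
    exact_mod_cast hcard
  rw [← add_div, ← add_div, sub_le_iff_le_add, ← add_div, le_div_iff₀ hOTpos, one_mul]
  linarith

/-- the explicit bound in terms of `L` -/
noncomputable def gL (L : ℕ) : ℝ :=
  (Real.exp (148 * (100 * L + 200) / 2 ^ L) - 1) +
  (M36 : ℝ) * 10 * Real.exp 39 * 2 ^ 37 * (100 * L + 200) ^ 3 *
    Real.exp (296 * (100 * L + 200) / 2 ^ L) / 2 ^ L +
  (2 * (100 * L + 200) ^ 2 * (2 * (100 * L + 200) + 1) / 2 ^ L +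
    4 * (100 * L + 200) ^ 2 / 2 ^ L) +
  12 * (100 * L + 200) ^ 4 / 2 ^ L

theorem noP_gL {n N L : ℕ} (hL : 1 ≤ L) (hN1 : 100 * L ≤ N) (hN2 : N < 100 * L + 100)
    (hn1 : 2 ^ N ≤ n) :
    ((noP n (N - 5 * L) (N - 5 * L + 1 + 3 * L)).card : ℝ) / ((OTs (Fin n)).card : ℝ) ≤
      (Real.exp (148 * (100 * L + 200) / 2 ^ L) - 1) +
      (M36 : ℝ) * 10 * Real.exp 39 * 2 ^ 37 * (100 * L + 200) ^ 3 *
        Real.exp (296 * (100 * L + 200) / 2 ^ L) / 2 ^ L := by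
  obtain ⟨k, hk⟩ : ∃ k, k = N - 5 * L + 1 + 3 * L := ⟨_, rfl⟩
  obtain ⟨P, hP⟩ : ∃ P : ℝ, P = 100 * (L : ℝ) + 200 := ⟨_, rfl⟩
  obtain ⟨s, hs⟩ : ∃ s : ℝ, s = 2 ^ L := ⟨_, rfl⟩
  have hLlt : L < 2 ^ L := Nat.lt_two_pow_self
  have hkP : ((k + 37 : ℕ) : ℝ) ≤ P := by
    rw [hP]
    have : (k + 37 : ℕ) ≤ 100 * L + 200 := by omega
    exact_mod_cast this
  have hpoly : 2 * (k + 37) ^ 2 ≤ n := by
    have h1 : k + 37 ≤ 300 * L := by omega
    calc 2 * (k + 37) ^ 2 ≤ 2 * (300 * L) ^ 2 := by gcongr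
      _ = 180000 * L ^ 2 := by ring
      _ ≤ 2 ^ 18 * (2 ^ L) ^ 2 := by
          apply Nat.mul_le_mul (by norm_num)
          gcongr
      _ = 2 ^ (18 + L * 2) := by rw [← pow_mul, ← pow_add]
      _ ≤ 2 ^ N := Nat.pow_le_pow_right (by norm_num) (by omega)
      _ ≤ n := hn1
  have hn200 : 200 ≤ n := by
    calc 200 ≤ 2 ^ 8 := by norm_num
      _ ≤ 2 ^ N := Nat.pow_le_pow_right (by norm_num) (by omega)
      _ ≤ n := hn1
  have hak : N - 5 * L < k := by omega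
  have h1 := noP_frac (n := n) (a := N - 5 * L) (k := k) hak hpoly hn200
  rw [← hk, ← hP, ← hs]
  refine h1.trans ?_
  have hs1 : 1 ≤ s := by rw [hs]; exact one_le_pow₀ (by norm_num)
  have hspos : 0 < s := by linarith
  have hnpos : (0 : ℝ) < n := by
    have : 0 < n := by omega
    exact_mod_cast this
  have hn37 := pos37 (n := n) (by omega)
  have hns : s ^ 2 ≤ (n : ℝ) := by
    rw [hs, ← pow_mul]
    have h2 : (2 : ℕ) ^ (L * 2) ≤ n := by
      calc (2 : ℕ) ^ (L * 2) ≤ 2 ^ N := Nat.pow_le_pow_right (by norm_num) (by omega)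
        _ ≤ n := hn1
    exact_mod_cast h2
  have hns' : s ≤ (n : ℝ) := by nlinarith
  have hhalf : (n : ℝ) / 2 ≤ (n : ℝ) - 37 := by
    have : (200 : ℝ) ≤ (n : ℝ) := by exact_mod_cast hn200
    linarith
  have hPpos : 0 < P := by rw [hP]; positivity
  have hP1 : 1 ≤ P := by
    rw [hP]
    have : (0 : ℝ) ≤ (L : ℝ) := by positivity
    linarith
  have hkP' : (k : ℝ) + 37 ≤ P := by push_cast at hkP; exact hkP
  -- 37/(n-37) ≤ 74 / s
  have h37 : 37 / ((n : ℝ) - 37) ≤ 74 / s := by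
    rw [div_le_div_iff₀ hn37 hspos]
    nlinarith
  have h37nn : 0 ≤ 37 / ((n : ℝ) - 37) := by positivity
  have hR1 : R1 n k ≤ Real.exp (148 * P / s) := by
    unfold R1
    refine (div_pow_le_exp hnpos hn37 _).trans ?_
    apply Real.exp_le_exp.mpr
    have h2 : ((2 * (k + 36) : ℕ) : ℝ) ≤ 2 * P := by
      push_cast
      linarith
    calc ((2 * (k + 36) : ℕ) : ℝ) * (37 / ((n : ℝ) - 37)) ≤ (2 * P) * (74 / s) := by
          apply mul_le_mul h2 h37 h37nn (by positivity)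
      _ = 148 * P / s := by ring
  have hRR : RR n k ≤ Real.exp (296 * P / s) := by
    unfold RR
    refine (div_pow_le_exp hnpos hn37 _).trans ?_
    apply Real.exp_le_exp.mpr
    have h2 : ((4 * k + 24 : ℕ) : ℝ) ≤ 4 * P := by
      push_cast
      linarith
    calc ((4 * k + 24 : ℕ) : ℝ) * (37 / ((n : ℝ) - 37)) ≤ (4 * P) * (74 / s) := by
          apply mul_le_mul h2 h37 h37nn (by positivity)
      _ = 296 * P / s := by ring
  have hKK : KK k ≤ (M36 : ℝ) * (10 * P ^ 3) := by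
    unfold KK
    apply mul_le_mul_of_nonneg_left _ (by positivity)
    have hk0 : (0 : ℝ) ≤ (k : ℝ) := by positivity
    have h2 : 2 * (k : ℝ) + 13 ≤ 2 * P := by linarith
    have h3 : (k : ℝ) + 36 ≤ P := by linarith
    calc (2 * (k : ℝ) + 13) * ((k + 36) + (2 * k + 13) * (2 * k + 13))
        ≤ (2 * P) * (P + (2 * P) * (2 * P)) := by gcongr
      _ = 2 * P ^ 2 + 8 * P ^ 3 := by ring
      _ ≤ 10 * P ^ 3 := by nlinarith [pow_pos hPpos 2]
  have hX : Real.exp 39 * 2 ^ (k + 36) / (n : ℝ) ≤ Real.exp 39 * 2 ^ 37 / s := by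
    have h2 : (2 : ℝ) ^ (k + 36) * s ^ 2 = 2 ^ N * 2 ^ 37 := by
      rw [hs, ← pow_mul, ← pow_add, ← pow_add]
      congr 1
      omega
    have h3 : (2 : ℝ) ^ N ≤ (n : ℝ) := by exact_mod_cast hn1
    have h4 : (2 : ℝ) ^ (k + 36) * s ≤ 2 ^ 37 * n := by
      have h5 : (2 : ℝ) ^ (k + 36) * s ≤ (2 : ℝ) ^ (k + 36) * s ^ 2 := by
        apply mul_le_mul_of_nonneg_left _ (by positivity)
        nlinarith
      calc (2 : ℝ) ^ (k + 36) * s ≤ (2 : ℝ) ^ (k + 36) * s ^ 2 := h5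
        _ = 2 ^ N * 2 ^ 37 := h2
        _ ≤ (n : ℝ) * 2 ^ 37 := by gcongr
        _ = 2 ^ 37 * n := by ring
    rw [div_le_div_iff₀ hnpos hspos]
    have h5 := Real.exp_pos 39
    nlinarith
  have hKnn := KK_nonneg k
  have hRRpos := RR_pos (n := n) (k := k) (by omega)
  have hXnn : 0 ≤ Real.exp 39 * 2 ^ (k + 36) / (n : ℝ) := by positivity
  apply add_le_add
  · linarith
  · calc KK k * RR n k * (Real.exp 39 * 2 ^ (k + 36) / (n : ℝ))
        ≤ ((M36 : ℝ) * (10 * P ^ 3)) * Real.exp (296 * P / s) * (Real.exp 39 * 2 ^ 37 / s) := by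
          apply mul_le_mul _ hX hXnn (by positivity)
          apply mul_le_mul hKK hRR hRRpos.le (by positivity)
      _ = _ := by ring

theorem BadN1_gL {n N L : ℕ} (hL : 1 ≤ L) (hN1 : 100 * L ≤ N) (hN2 : N < 100 * L + 100)
    (hn1 : 2 ^ N ≤ n) (hn2 : n < 2 ^ (N + 1)) :
    (n : ℝ) * ((N - 5 * L : ℕ) + 1) ^ 2 / 4 ^ (N - 5 * L) *
      (4 ^ (15 * L) * (2 * ((N - 5 * L : ℕ) : ℝ) + 2 + 4 ^ (15 * L)) + n / 2 ^ (15 * L)) ≤
      2 * (100 * L + 200) ^ 2 * (2 * (100 * L + 200) + 1) / 2 ^ L +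
        4 * (100 * L + 200) ^ 2 / 2 ^ L := by
  obtain ⟨a, ha⟩ : ∃ a, a = N - 5 * L := ⟨_, rfl⟩
  obtain ⟨P, hP⟩ : ∃ P : ℝ, P = 100 * (L : ℝ) + 200 := ⟨_, rfl⟩
  obtain ⟨s, hs⟩ : ∃ s : ℝ, s = 2 ^ L := ⟨_, rfl⟩
  obtain ⟨t, ht⟩ : ∃ t : ℝ, t = 2 ^ N := ⟨_, rfl⟩
  have haP : ((a + 1 : ℕ) : ℝ) ≤ P := by
    rw [hP]
    have : (a + 1 : ℕ) ≤ 100 * L + 200 := by omega
    exact_mod_cast this
  push_cast at haP
  rw [← ha, ← hP, ← hs]
  have hs1 : 1 ≤ s := by rw [hs]; exact one_le_pow₀ (by norm_num)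
  have hspos : 0 < s := by linarith
  have htpos : 0 < t := by rw [ht]; positivity
  have hnt : (n : ℝ) ≤ 2 * t := by
    rw [ht]
    have h1 : (n : ℝ) ≤ ((2 ^ (N + 1) : ℕ) : ℝ) := by exact_mod_cast hn2.le
    push_cast at h1
    rw [pow_succ] at h1
    linarith
  have hst : s ^ 100 ≤ t := by
    rw [hs, ht, ← pow_mul]
    apply pow_le_pow_right₀ (by norm_num) (by omega)
  have h4a : (4 : ℝ) ^ a = t ^ 2 / s ^ 10 := by
    rw [eq_div_iff (by positivity), hs, ht, ← pow_mul, ← pow_mul,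
      show (4 : ℝ) = 2 ^ 2 by norm_num, ← pow_mul, ← pow_add]
    congr 1
    omega
  have h4M : (4 : ℝ) ^ (15 * L) = s ^ 30 := by
    rw [hs, ← pow_mul, show (4 : ℝ) = 2 ^ 2 by norm_num, ← pow_mul]
    congr 1
    ring
  have h2M : (2 : ℝ) ^ (15 * L) = s ^ 15 := by
    rw [hs, ← pow_mul]
    congr 1
    ring
  rw [h4a, h4M, h2M]
  have hPpos : 0 < P := by rw [hP]; positivity
  have ha0 : (0 : ℝ) ≤ (a : ℝ) := by positivity
  have hn0 : (0 : ℝ) ≤ (n : ℝ) := by positivity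
  have hs30 : 1 ≤ s ^ 30 := one_le_pow₀ hs1
  have hsle : s ≤ s ^ 30 := by
    calc s = s ^ 1 := (pow_one s).symm
      _ ≤ s ^ 30 := pow_le_pow_right₀ hs1 (by norm_num)
  have hsle5 : s ≤ s ^ 5 := by
    calc s = s ^ 1 := (pow_one s).symm
      _ ≤ s ^ 5 := pow_le_pow_right₀ hs1 (by norm_num)
  -- first part
  have e1 : (n : ℝ) * (a + 1) ^ 2 / (t ^ 2 / s ^ 10) * (s ^ 30 * (2 * a + 2 + s ^ 30)) ≤
      2 * P ^ 2 * (2 * P + 1) / s := by
    have h5 : 2 * (a : ℝ) + 2 + s ^ 30 ≤ (2 * P + 1) * s ^ 30 := by nlinarith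
    calc (n : ℝ) * (a + 1) ^ 2 / (t ^ 2 / s ^ 10) * (s ^ 30 * (2 * a + 2 + s ^ 30))
        ≤ (2 * t) * P ^ 2 / (t ^ 2 / s ^ 10) * (s ^ 30 * ((2 * P + 1) * s ^ 30)) := by
          gcongr
      _ = 2 * P ^ 2 * (2 * P + 1) * s ^ 70 / t := by field_simp
      _ ≤ 2 * P ^ 2 * (2 * P + 1) * s ^ 70 / s ^ 100 := by gcongr
      _ = 2 * P ^ 2 * (2 * P + 1) / s ^ 30 := by field_simp
      _ ≤ 2 * P ^ 2 * (2 * P + 1) / s := by gcongr
  have e2 : (n : ℝ) * (a + 1) ^ 2 / (t ^ 2 / s ^ 10) * (n / s ^ 15) ≤ 4 * P ^ 2 / s := by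
    calc (n : ℝ) * (a + 1) ^ 2 / (t ^ 2 / s ^ 10) * (n / s ^ 15)
        ≤ (2 * t) * P ^ 2 / (t ^ 2 / s ^ 10) * ((2 * t) / s ^ 15) := by gcongr
      _ = 4 * P ^ 2 / s ^ 5 := by field_simp; ring
      _ ≤ 4 * P ^ 2 / s := by gcongr
  calc _ = (n : ℝ) * (a + 1) ^ 2 / (t ^ 2 / s ^ 10) * (s ^ 30 * (2 * a + 2 + s ^ 30)) +
        (n : ℝ) * (a + 1) ^ 2 / (t ^ 2 / s ^ 10) * (n / s ^ 15) := by ring
    _ ≤ _ := add_le_add e1 e2

theorem BadN2_gL {n N L : ℕ} (hL : 1 ≤ L) (hN1 : 100 * L ≤ N) (hN2 : N < 100 * L + 100)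
    (hn2 : n < 2 ^ (N + 1)) :
    (n : ℝ) * ((N - 5 * L + 1 + 3 * L : ℕ) + 1) * ((3 * L - 2 : ℕ) + 1) *
      ((N - 5 * L + 1 + 3 * L : ℕ) : ℝ) *
      (2 * ((N - 5 * L + 1 + 3 * L : ℕ) : ℝ) + ((3 * L - 2 : ℕ) : ℝ) + 2) /
        2 ^ (N - 5 * L + 1 + 3 * L + (3 * L - 2)) ≤ 12 * (100 * L + 200) ^ 4 / 2 ^ L := by
  obtain ⟨k, hk⟩ : ∃ k, k = N - 5 * L + 1 + 3 * L := ⟨_, rfl⟩
  obtain ⟨c, hc⟩ : ∃ c, c = 3 * L - 2 := ⟨_, rfl⟩
  obtain ⟨P, hP⟩ : ∃ P : ℝ, P = 100 * (L : ℝ) + 200 := ⟨_, rfl⟩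
  obtain ⟨s, hs⟩ : ∃ s : ℝ, s = 2 ^ L := ⟨_, rfl⟩
  obtain ⟨t, ht⟩ : ∃ t : ℝ, t = 2 ^ N := ⟨_, rfl⟩
  have hkP : ((k + 1 : ℕ) : ℝ) ≤ P := by
    rw [hP]
    have : (k + 1 : ℕ) ≤ 100 * L + 200 := by omega
    exact_mod_cast this
  have hcP : ((c + 2 : ℕ) : ℝ) ≤ P := by
    rw [hP]
    have : (c + 2 : ℕ) ≤ 100 * L + 200 := by omega
    exact_mod_cast this
  push_cast at hkP hcP
  rw [← hk, ← hc, ← hP, ← hs]
  have hs1 : 1 ≤ s := by rw [hs]; exact one_le_pow₀ (by norm_num)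
  have hspos : 0 < s := by linarith
  have htpos : 0 < t := by rw [ht]; positivity
  have hnt : (n : ℝ) ≤ 2 * t := by
    rw [ht]
    have h1 : (n : ℝ) ≤ ((2 ^ (N + 1) : ℕ) : ℝ) := by exact_mod_cast hn2.le
    push_cast at h1
    rw [pow_succ] at h1
    linarith
  have hpow : (2 : ℝ) ^ (k + c) = t * s / 2 := by
    rw [eq_div_iff (by norm_num), hs, ht, ← pow_succ, ← pow_add]
    congr 1
    omega
  rw [hpow]
  have hPpos : 0 < P := by rw [hP]; positivity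
  have hk0 : (0 : ℝ) ≤ (k : ℝ) := by positivity
  have hc0 : (0 : ℝ) ≤ (c : ℝ) := by positivity
  have hn0 : (0 : ℝ) ≤ (n : ℝ) := by positivity
  calc (n : ℝ) * (k + 1) * (c + 1) * k * (2 * k + c + 2) / (t * s / 2)
      ≤ (2 * t) * P * P * P * (3 * P) / (t * s / 2) := by
        have h1 : (c : ℝ) + 1 ≤ P := by linarith
        have h2 : (k : ℝ) ≤ P := by linarith
        have h3 : 2 * (k : ℝ) + c + 2 ≤ 3 * P := by linarith
        gcongr
    _ = 12 * P ^ 4 / s := by field_simp; ring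

open Classical in
theorem frac_gL {n N L : ℕ} (hL : 1 ≤ L) (hN1 : 100 * L ≤ N) (hN2 : N < 100 * L + 100)
    (hn1 : 2 ^ N ≤ n) (hn2 : n < 2 ^ (N + 1)) :
    1 - gL L ≤
      (((OTs (Fin n)).filter (fun E => NoSig E)).card : ℝ) / ((OTs (Fin n)).card : ℝ) := by
  have hn0 : 0 < n := lt_of_lt_of_le (by positivity) hn1
  refine le_trans ?_ (frac_lower (n := n) (a := N - 5 * L) (k := N - 5 * L + 1 + 3 * L)
    (c := 3 * L) hn0 rfl (by omega))
  have h1 := noP_gL hL hN1 hN2 hn1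
  have h2 := (BadN1_frac (n := n) (a := N - 5 * L) (M := 15 * L) hn0).trans
    (BadN1_gL hL hN1 hN2 hn1 hn2)
  have h3 := (BadN2_frac (n := n) (a := N - 5 * L) (k := N - 5 * L + 1 + 3 * L)
    (c' := 3 * L - 2) hn0).trans (BadN2_gL hL hN1 hN2 hn2)
  unfold gL
  linarith

theorem tendsto_poly_div (j : ℕ) :
    Filter.Tendsto (fun L : ℕ => (100 * (L : ℝ) + 200) ^ j / 2 ^ L) Filter.atTop (nhds 0) := by
  have h := tendsto_pow_const_mul_const_pow_of_abs_lt_one j (r := (1 / 2 : ℝ))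
    (by rw [abs_of_pos] <;> norm_num)
  have h2 := (Filter.tendsto_add_atTop_iff_nat 2).mpr h
  have h3 := h2.const_mul (100 ^ j * 4 : ℝ)
  rw [mul_zero] at h3
  refine h3.congr ?_
  intro L
  have h4 : (100 * (L : ℝ) + 200) ^ j = 100 ^ j * (((L + 2 : ℕ) : ℝ)) ^ j := by
    rw [← mul_pow]
    congr 1
    push_cast
    ring
  rw [h4, pow_add, one_div, inv_pow]
  field_simp
  norm_num

theorem tendsto_gL : Filter.Tendsto gL Filter.atTop (nhds 0) := by
  have p1 := tendsto_poly_div 1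
  have p2 := tendsto_poly_div 2
  have p3 := tendsto_poly_div 3
  have p4 := tendsto_poly_div 4
  have a1 : Filter.Tendsto (fun L : ℕ => Real.exp (148 * (100 * (L : ℝ) + 200) / 2 ^ L) - 1)
      Filter.atTop (nhds 0) := by
    have h1 : Filter.Tendsto (fun L : ℕ => 148 * (100 * (L : ℝ) + 200) / 2 ^ L)
        Filter.atTop (nhds 0) := by
      have := p1.const_mul 148
      rw [mul_zero] at this
      refine this.congr fun L => ?_
      rw [pow_one]; ring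
    have h2 := (Real.continuous_exp.tendsto 0).comp h1
    rw [Real.exp_zero] at h2
    have h3 := h2.sub_const 1
    rw [sub_self] at h3
    exact h3
  have a2 : Filter.Tendsto (fun L : ℕ => Real.exp (296 * (100 * (L : ℝ) + 200) / 2 ^ L))
      Filter.atTop (nhds 1) := by
    have h1 : Filter.Tendsto (fun L : ℕ => 296 * (100 * (L : ℝ) + 200) / 2 ^ L)
        Filter.atTop (nhds 0) := by
      have := p1.const_mul 296
      rw [mul_zero] at this
      refine this.congr fun L => ?_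
      rw [pow_one]; ring
    have h2 := (Real.continuous_exp.tendsto 0).comp h1
    rw [Real.exp_zero] at h2
    exact h2
  have a3 : Filter.Tendsto (fun L : ℕ => (M36 : ℝ) * 10 * Real.exp 39 * 2 ^ 37 *
      (100 * (L : ℝ) + 200) ^ 3 * Real.exp (296 * (100 * L + 200) / 2 ^ L) / 2 ^ L)
      Filter.atTop (nhds 0) := by
    have := (p3.const_mul ((M36 : ℝ) * 10 * Real.exp 39 * 2 ^ 37)).mul a2
    rw [mul_zero, zero_mul] at this
    refine this.congr fun L => ?_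
    ring
  have a4 : Filter.Tendsto (fun L : ℕ => (2 * (100 * (L : ℝ) + 200) ^ 2 *
      (2 * (100 * L + 200) + 1) / 2 ^ L + 4 * (100 * L + 200) ^ 2 / 2 ^ L))
      Filter.atTop (nhds 0) := by
    have := (p3.const_mul 4).add (p2.const_mul 6)
    rw [mul_zero, mul_zero, add_zero] at this
    refine this.congr fun L => ?_
    ring
  have a5 : Filter.Tendsto (fun L : ℕ => 12 * (100 * (L : ℝ) + 200) ^ 4 / 2 ^ L)
      Filter.atTop (nhds 0) := by
    have := p4.const_mul 12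
    rw [mul_zero] at this
    refine this.congr fun L => ?_
    ring
  have := ((a1.add a3).add a4).add a5
  simp only [add_zero] at this
  exact this

theorem tendsto_log : Filter.Tendsto (fun n : ℕ => Nat.log 2 n / 100) Filter.atTop
    Filter.atTop := by
  rw [Filter.tendsto_atTop]
  intro b
  filter_upwards [Filter.eventually_ge_atTop (2 ^ (100 * b))] with n hn
  have h1 : 100 * b ≤ Nat.log 2 n := Nat.le_log_of_pow_le (by norm_num) hn
  omega

open Classical in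
theorem main_tendsto :
    Filter.Tendsto (fun n : ℕ => (((OTs (Fin n)).filter (fun E => NoSig E)).card : ℝ) /
      ((OTs (Fin n)).card : ℝ)) Filter.atTop (nhds 1) := by
  have h1 : Filter.Tendsto (fun n : ℕ => 1 - gL (Nat.log 2 n / 100)) Filter.atTop (nhds 1) := by
    have := (tendsto_gL.comp tendsto_log).const_sub 1
    rw [sub_zero] at this
    exact this
  refine tendsto_of_tendsto_of_tendsto_of_le_of_le' h1 tendsto_const_nhds ?_ ?_
  · filter_upwards [Filter.eventually_ge_atTop (2 ^ 100)] with n hn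
    have hn0 : n ≠ 0 := by
      rintro rfl
      simp at hn
    have hlog : 100 ≤ Nat.log 2 n := Nat.le_log_of_pow_le (by norm_num) hn
    exact frac_gL (N := Nat.log 2 n) (by omega) (by omega) (by omega)
      (Nat.pow_log_le_self 2 hn0) (Nat.lt_pow_succ_log_self (by norm_num) n)
  · filter_upwards with n
    apply div_le_one_of_le₀
    · exact_mod_cast Finset.card_le_card (Finset.filter_subset _ _)
    · positivity

end Pool.Agent.Work.MP_2709b3_lc
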