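import Pool.Agent.Work.MP_2709b3_lc.Second

set_option autoImplicit false

namespace Pool.Agent.Work.MP_2709b3_lc

theorem centralBinom_sq (m : ℕ) : (2 * m + 1) * (Nat.centralBinom m) ^ 2 ≤ 16 ^ m := by
  induction m with
  | zero => simp
  | succ m ih =>
    have h := Nat.succ_mul_centralBinom_succ m
    have h1 : (m + 1) ^ 2 * ((2 * (m + 1) + 1) * (Nat.centralBinom (m + 1)) ^ 2) ≤
        (m + 1) ^ 2 * 16 ^ (m + 1) := by
      calc (m + 1) ^ 2 * ((2 * (m + 1) + 1) * (Nat.centralBinom (m + 1)) ^ 2)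
          = (2 * m + 3) * ((m + 1) * Nat.centralBinom (m + 1)) ^ 2 := by ring
        _ = (2 * m + 3) * (2 * (2 * m + 1) * Nat.centralBinom m) ^ 2 := by
            rw [show (m + 1) = m.succ from rfl, h]
        _ = 4 * ((2 * m + 3) * (2 * m + 1)) * ((2 * m + 1) * (Nat.centralBinom m) ^ 2) := by ring
        _ ≤ 4 * (4 * (m + 1) ^ 2) * 16 ^ m := by
            apply Nat.mul_le_mul _ ih
            apply Nat.mul_le_mul_left
            nlinarith
        _ = (m + 1) ^ 2 * 16 ^ (m + 1) := by ring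
    exact Nat.le_of_mul_le_mul_left h1 (by positivity)

theorem choose_half_sq (N : ℕ) : (N + 1) * (N.choose (N / 2)) ^ 2 ≤ 4 ^ N := by
  rcases Nat.even_or_odd' N with ⟨m, rfl | rfl⟩
  · have h := centralBinom_sq m
    rw [Nat.centralBinom_eq_two_mul_choose] at h
    rw [show 2 * m / 2 = m by omega, show 4 ^ (2 * m) = 16 ^ m by rw [pow_mul]; norm_num]
    exact h
  · have h := centralBinom_sq (m + 1)
    have h1 : Nat.centralBinom (m + 1) = 2 * (2 * m + 1).choose m := by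
      rw [Nat.centralBinom_eq_two_mul_choose, show 2 * (m + 1) = (2 * m + 1) + 1 by ring,
        Nat.choose_succ_succ, Nat.succ_eq_add_one, Nat.choose_symm_half]
      ring
    rw [show (2 * m + 1) / 2 = m by omega]
    rw [h1] at h
    have h2 : 4 * ((2 * m + 3) * ((2 * m + 1).choose m) ^ 2) ≤ 4 * 4 ^ (2 * m + 1) := by
      calc 4 * ((2 * m + 3) * ((2 * m + 1).choose m) ^ 2)
          = (2 * (m + 1) + 1) * (2 * (2 * m + 1).choose m) ^ 2 := by ring
        _ ≤ 16 ^ (m + 1) := h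
        _ = 4 * 4 ^ (2 * m + 1) := by
            rw [pow_succ 4 (2 * m), pow_mul]; norm_num [pow_succ]; ring
    have h3 := Nat.le_of_mul_le_mul_left h2 (by norm_num)
    refine le_trans ?_ h3
    apply Nat.mul_le_mul_right
    omega

theorem choose_half_le {M d : ℕ} (h : 4 ^ M ≤ d + 1) :
    d.choose (d / 2) * 2 ^ M ≤ 2 ^ d := by
  have h1 := choose_half_sq d
  have h2 : (d.choose (d / 2) * 2 ^ M) ^ 2 ≤ (2 ^ d) ^ 2 := by
    calc (d.choose (d / 2) * 2 ^ M) ^ 2 = 4 ^ M * (d.choose (d / 2)) ^ 2 := by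
          rw [mul_pow, ← pow_mul, Nat.mul_comm M 2, pow_mul 2 2 M]; norm_num; ring
      _ ≤ (d + 1) * (d.choose (d / 2)) ^ 2 := Nat.mul_le_mul_right _ h
      _ ≤ 4 ^ d := h1
      _ = (2 ^ d) ^ 2 := by rw [← pow_mul, Nat.mul_comm d 2, pow_mul]; norm_num
  exact (Nat.pow_le_pow_iff_left (by norm_num)).mp h2

/-- the falling ratio -/
noncomputable def qq (n m : ℕ) : ℝ := (n.descFactorial m : ℝ) / (n : ℝ) ^ m

theorem qq_nonneg (n m : ℕ) : 0 ≤ qq n m := by unfold qq; positivity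

theorem qq_le_one (n m : ℕ) (hn : 0 < n) : qq n m ≤ 1 := by
  unfold qq
  have hn' : (0 : ℝ) < n := by exact_mod_cast hn
  rw [div_le_one (by positivity)]
  exact_mod_cast Nat.descFactorial_le_pow n m

theorem qq_succ (n m : ℕ) (hn : 0 < n) : (m : ℝ) * qq n m = n * (qq n m - qq n (m + 1)) := by
  unfold qq
  have hn' : (n : ℝ) ≠ 0 := by exact_mod_cast hn.ne'
  rcases Nat.lt_or_ge n m with h | h
  · rw [Nat.descFactorial_of_lt h, Nat.descFactorial_of_lt (Nat.lt_succ_of_lt h)]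
    simp
  · rw [Nat.descFactorial_succ]
    push_cast [Nat.cast_sub h]
    field_simp
    ring

theorem sum_qq_le (n M m₀ : ℕ) (hn : 0 < n) :
    ∑ d ∈ Finset.range M, ((m₀ + d : ℕ) : ℝ) * qq n (m₀ + d) ≤ n := by
  have h : ∑ d ∈ Finset.range M, ((m₀ + d : ℕ) : ℝ) * qq n (m₀ + d) =
      n * (qq n m₀ - qq n (m₀ + M)) := by
    induction M with
    | zero => simp
    | succ M ih =>
      rw [Finset.sum_range_succ, ih, qq_succ n (m₀ + M) hn]
      rw [show m₀ + (M + 1) = m₀ + M + 1 by ring]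
      ring
  rw [h]
  have h1 := qq_le_one n m₀ hn
  have h2 := qq_nonneg n (m₀ + M)
  have hn' : (0 : ℝ) ≤ n := by positivity
  nlinarith

theorem hbound_eq {n m : ℕ} (hn : 0 < n) : (hbound n m : ℝ) ≤
    (n : ℝ) ^ n * 2 ^ n * (m * qq n m / 2 ^ m) := by
  unfold hbound qq
  have hn' : (0 : ℝ) < n := by exact_mod_cast hn
  rcases Nat.lt_or_ge n m with h | h
  · rw [Nat.descFactorial_of_lt h]
    simp
  · push_cast
    obtain ⟨d, hd⟩ := Nat.exists_eq_add_of_le h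
    have h1 : n - m = d := by omega
    rw [h1]
    have h2 : (n : ℝ) ^ n = (n : ℝ) ^ m * (n : ℝ) ^ d := by
      rw [← pow_add]; congr 1
    have h3 : (2 : ℝ) ^ n = (2 : ℝ) ^ m * (2 : ℝ) ^ d := by
      rw [← pow_add]; congr 1
    rw [h2, h3]
    apply le_of_eq
    field_simp

theorem OT_lower (n : ℕ) (hn : 0 < n) :
    (n : ℝ) ^ n * 2 ^ n ≤ ((OTs (Fin n)).card : ℝ) * (2 * (n : ℝ) ^ 2) := by
  have : Nonempty (Fin n) := ⟨⟨0, hn⟩⟩
  have h1 := card_RTs_le (α := Fin n)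
  rw [card_RTs, Fintype.card_fin] at h1
  have h2 : (n : ℝ) ^ (n - 1) * 2 ^ n ≤ ((OTs (Fin n)).card : ℝ) * (n * 2) := by
    exact_mod_cast h1
  obtain ⟨m, rfl⟩ := Nat.exists_eq_succ_of_ne_zero hn.ne'
  rw [Nat.succ_sub_one] at h2
  have hn' : (0 : ℝ) < (m.succ : ℝ) := by positivity
  calc ((m.succ : ℕ) : ℝ) ^ m.succ * 2 ^ m.succ
      = (m.succ : ℝ) * ((m.succ : ℝ) ^ m * 2 ^ m.succ) := by rw [pow_succ]; ring
    _ ≤ (m.succ : ℝ) * (((OTs (Fin m.succ)).card : ℝ) * (m.succ * 2)) :=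
        mul_le_mul_of_nonneg_left h2 hn'.le
    _ = _ := by ring

/-- from a bound on `B * n` to a bound on the fraction. -/
theorem frac_le {n : ℕ} (hn : 0 < n) {B : ℕ} {x : ℝ} (hx : 0 ≤ x)
    (h : (B : ℝ) * n ≤ (n : ℝ) ^ n * 2 ^ n * x) :
    (B : ℝ) / ((OTs (Fin n)).card : ℝ) ≤ 2 * n * x := by
  have hn' : (0 : ℝ) < n := by exact_mod_cast hn
  have h1 := OT_lower n hn
  have h2 : (0 : ℝ) < (n : ℝ) ^ n * 2 ^ n := by positivity
  have hOT : (0 : ℝ) < ((OTs (Fin n)).card : ℝ) := by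
    by_contra hcon
    have : ((OTs (Fin n)).card : ℝ) = 0 := le_antisymm (not_lt.mp hcon) (by positivity)
    rw [this] at h1
    linarith
  rw [div_le_iff₀ hOT]
  have h3 : (B : ℝ) * n ≤ (((OTs (Fin n)).card : ℝ) * (2 * (n : ℝ) ^ 2)) * x :=
    h.trans (mul_le_mul_of_nonneg_right h1 hx)
  have h4 : (B : ℝ) * n ≤ (2 * n * x * ((OTs (Fin n)).card : ℝ)) * n := by
    calc (B : ℝ) * n ≤ (((OTs (Fin n)).card : ℝ) * (2 * (n : ℝ) ^ 2)) * x := h3
      _ = _ := by ring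
  exact le_of_mul_le_mul_right h4 hn'

open Classical in
theorem BadN1_frac {n a M : ℕ} (hn : 0 < n) :
    (((OTs (Fin n)).filter (fun E => BadN1 E a)).card : ℝ) / ((OTs (Fin n)).card : ℝ) ≤
      n * (a + 1) ^ 2 / 4 ^ a * (4 ^ M * (2 * a + 2 + 4 ^ M) + n / 2 ^ M) := by
  have hn' : (0 : ℝ) < n := by exact_mod_cast hn
  have h1 := card_BadN1 (α := Fin n) a
  rw [Fintype.card_fin] at h1
  -- sum bound
  set S : ℝ := ∑ d ∈ Finset.range n, (((d + 1).choose ((d + 1) / 2) : ℕ) : ℝ) *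
    (((a + 1 + (a + 1 + d) : ℕ) : ℝ) * qq n (a + 1 + (a + 1 + d)) /
      2 ^ (a + 1 + (a + 1 + d))) with hS
  have hSnn : 0 ≤ S := by
    apply Finset.sum_nonneg
    intro d _
    have := qq_nonneg n (a + 1 + (a + 1 + d))
    positivity
  have h2 : ((((OTs (Fin n)).filter (fun E => BadN1 E a)).card : ℕ) : ℝ) * n ≤
      (n : ℝ) ^ n * 2 ^ n * ((a + 1) ^ 2 * S) := by
    have h3 : ((((OTs (Fin n)).filter (fun E => BadN1 E a)).card : ℕ) : ℝ) * n ≤
        (a + 1) * ((a + 1) * ∑ d ∈ Finset.range n,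
        (((d + 1).choose ((d + 1) / 2) : ℕ) : ℝ) * (hbound n (a + 1 + (a + 1 + d)) : ℝ)) := by
      exact_mod_cast h1
    refine h3.trans ?_
    have h4 : ∑ d ∈ Finset.range n,
        (((d + 1).choose ((d + 1) / 2) : ℕ) : ℝ) * (hbound n (a + 1 + (a + 1 + d)) : ℝ) ≤
        (n : ℝ) ^ n * 2 ^ n * S := by
      rw [hS, Finset.mul_sum]
      apply Finset.sum_le_sum
      intro d _
      have h5 := hbound_eq (n := n) (m := a + 1 + (a + 1 + d)) hn
      calc (((d + 1).choose ((d + 1) / 2) : ℕ) : ℝ) * (hbound n (a + 1 + (a + 1 + d)) : ℝ)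
          ≤ (((d + 1).choose ((d + 1) / 2) : ℕ) : ℝ) * ((n : ℝ) ^ n * 2 ^ n *
            (((a + 1 + (a + 1 + d) : ℕ) : ℝ) * qq n (a + 1 + (a + 1 + d)) /
              2 ^ (a + 1 + (a + 1 + d)))) := mul_le_mul_of_nonneg_left h5 (by positivity)
        _ = _ := by ring
    have ha : (0 : ℝ) ≤ (a : ℝ) + 1 := by positivity
    calc ((a : ℝ) + 1) * ((a + 1) * ∑ d ∈ Finset.range n,
        (((d + 1).choose ((d + 1) / 2) : ℕ) : ℝ) * (hbound n (a + 1 + (a + 1 + d)) : ℝ))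
        ≤ ((a : ℝ) + 1) * ((a + 1) * ((n : ℝ) ^ n * 2 ^ n * S)) := by gcongr
      _ = _ := by ring
  have h3 := frac_le hn (x := (a + 1) ^ 2 * S) (by positivity) h2
  refine h3.trans ?_
  -- bound S
  have h4 : S ≤ 1 / 2 ^ (2 * a + 1) * (4 ^ M * (2 * a + 2 + 4 ^ M) + n / 2 ^ M) := by
    have hterm : ∀ d ∈ Finset.range n, (((d + 1).choose ((d + 1) / 2) : ℕ) : ℝ) *
        (((a + 1 + (a + 1 + d) : ℕ) : ℝ) * qq n (a + 1 + (a + 1 + d)) /
          2 ^ (a + 1 + (a + 1 + d))) ≤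
        1 / 2 ^ (2 * a + 1) * ((if d < 4 ^ M then ((2 * a + 2 + 4 ^ M : ℕ) : ℝ) else 0) +
          1 / 2 ^ M * (((2 * a + 2 + d : ℕ) : ℝ) * qq n (2 * a + 2 + d))) := by
      intro d _
      have hm : a + 1 + (a + 1 + d) = 2 * a + 2 + d := by ring
      rw [hm]
      have hpow : (2 : ℝ) ^ (2 * a + 2 + d) = 2 ^ (2 * a + 1) * 2 ^ (d + 1) := by
        rw [← pow_add]; congr 1; ring
      rw [hpow]
      have hq0 := qq_nonneg n (2 * a + 2 + d)
      have hq1 := qq_le_one n (2 * a + 2 + d) hn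
      have hC0 : (0 : ℝ) ≤ (((d + 1).choose ((d + 1) / 2) : ℕ) : ℝ) := by positivity
      have hre : (((d + 1).choose ((d + 1) / 2) : ℕ) : ℝ) *
          (((2 * a + 2 + d : ℕ) : ℝ) * qq n (2 * a + 2 + d) / (2 ^ (2 * a + 1) * 2 ^ (d + 1))) =
          1 / 2 ^ (2 * a + 1) * ((((d + 1).choose ((d + 1) / 2) : ℕ) : ℝ) / 2 ^ (d + 1) *
            (((2 * a + 2 + d : ℕ) : ℝ) * qq n (2 * a + 2 + d))) := by
        field_simp
      rw [hre]
      apply mul_le_mul_of_nonneg_left _ (by positivity)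
      split_ifs with hd
      · have h5 : (((d + 1).choose ((d + 1) / 2) : ℕ) : ℝ) / 2 ^ (d + 1) ≤ 1 := by
          rw [div_le_one (by positivity)]
          exact_mod_cast Nat.choose_le_two_pow (d + 1) ((d + 1) / 2)
        have h6 : (((2 * a + 2 + d : ℕ) : ℝ) * qq n (2 * a + 2 + d)) ≤
            ((2 * a + 2 + 4 ^ M : ℕ) : ℝ) := by
          have h7 : ((2 * a + 2 + d : ℕ) : ℝ) ≤ ((2 * a + 2 + 4 ^ M : ℕ) : ℝ) := by
            exact_mod_cast (by omega : 2 * a + 2 + d ≤ 2 * a + 2 + 4 ^ M)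
          have h8 : (0 : ℝ) ≤ ((2 * a + 2 + d : ℕ) : ℝ) := by positivity
          nlinarith
        have h9 : (0 : ℝ) ≤ (((2 * a + 2 + d : ℕ) : ℝ) * qq n (2 * a + 2 + d)) := by positivity
        have h10 : (0 : ℝ) ≤ (((d + 1).choose ((d + 1) / 2) : ℕ) : ℝ) / 2 ^ (d + 1) := by
          positivity
        have h11 : (0 : ℝ) ≤ 1 / 2 ^ M * (((2 * a + 2 + d : ℕ) : ℝ) * qq n (2 * a + 2 + d)) := by
          positivity
        nlinarith
      · rw [zero_add]
        apply mul_le_mul_of_nonneg_right _ (by positivity)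
        rw [div_le_div_iff₀ (by positivity) (by positivity), one_mul]
        have h5 := choose_half_le (M := M) (d := d + 1) (by omega)
        exact_mod_cast h5
    refine (Finset.sum_le_sum hterm).trans ?_
    rw [← Finset.mul_sum]
    apply mul_le_mul_of_nonneg_left _ (by positivity)
    rw [Finset.sum_add_distrib, ← Finset.mul_sum]
    apply add_le_add
    · calc ∑ d ∈ Finset.range n, (if d < 4 ^ M then ((2 * a + 2 + 4 ^ M : ℕ) : ℝ) else 0)
          = ∑ d ∈ (Finset.range n).filter (fun d => d < 4 ^ M),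
              ((2 * a + 2 + 4 ^ M : ℕ) : ℝ) := by rw [Finset.sum_filter]
        _ ≤ ∑ d ∈ Finset.range (4 ^ M), ((2 * a + 2 + 4 ^ M : ℕ) : ℝ) := by
            apply Finset.sum_le_sum_of_subset_of_nonneg
            · intro d hd
              rw [Finset.mem_filter] at hd
              rw [Finset.mem_range]
              exact hd.2
            · intro d _ _
              positivity
        _ = 4 ^ M * (2 * a + 2 + 4 ^ M) := by
            rw [Finset.sum_const, Finset.card_range, nsmul_eq_mul]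
            push_cast
            ring
    · have h5 : (n : ℝ) / 2 ^ M = 1 / 2 ^ M * n := by ring
      rw [h5]
      apply mul_le_mul_of_nonneg_left _ (by positivity)
      exact sum_qq_le n n (2 * a + 2) hn
  calc 2 * (n : ℝ) * ((a + 1) ^ 2 * S)
      ≤ 2 * (n : ℝ) * ((a + 1) ^ 2 *
        (1 / 2 ^ (2 * a + 1) * (4 ^ M * (2 * a + 2 + 4 ^ M) + n / 2 ^ M))) := by
        gcongr
    _ = (n : ℝ) * ((a : ℝ) + 1) ^ 2 / 4 ^ a *
        (4 ^ M * (2 * (a : ℝ) + 2 + 4 ^ M) + (n : ℝ) / 2 ^ M) := by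
        have h5 : (2 : ℝ) ^ (2 * a + 1) = 2 * 4 ^ a := by
          rw [pow_succ, pow_mul]; norm_num; ring
        rw [h5]
        field_simp

open Classical in
theorem BadN2_frac {n a k c' : ℕ} (hn : 0 < n) :
    (((OTs (Fin n)).filter (fun E => BadN2 E a k c')).card : ℝ) / ((OTs (Fin n)).card : ℝ) ≤
      n * (k + 1) * (c' + 1) * k * (2 * k + c' + 2) / 2 ^ (k + c') := by
  have hn' : (0 : ℝ) < n := by exact_mod_cast hn
  have h1 := card_BadN2 (α := Fin n) a k c'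
  rw [Fintype.card_fin] at h1
  have h2 : ((((OTs (Fin n)).filter (fun E => BadN2 E a k c')).card : ℕ) : ℝ) * n ≤
      (n : ℝ) ^ n * 2 ^ n * ((k + 1) * (c' + 1) * k * ((2 * k + c' + 2) / 2 ^ (k + c' + 1))) := by
    have h3 : ((((OTs (Fin n)).filter (fun E => BadN2 E a k c')).card : ℕ) : ℝ) * n ≤
        (k + 1) * ((c' + 1) * ∑ d ∈ Finset.range k,
        (2 : ℝ) ^ (d + 1) * (hbound n (k + 1 + (c' + 1 + d)) : ℝ)) := by
      exact_mod_cast h1
    refine h3.trans ?_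
    have h4 : ∑ d ∈ Finset.range k,
        (2 : ℝ) ^ (d + 1) * (hbound n (k + 1 + (c' + 1 + d)) : ℝ) ≤
        ∑ _d ∈ Finset.range k, (n : ℝ) ^ n * 2 ^ n * ((2 * k + c' + 2) / 2 ^ (k + c' + 1)) := by
      apply Finset.sum_le_sum
      intro d hd
      rw [Finset.mem_range] at hd
      have h5 := hbound_eq (n := n) (m := k + 1 + (c' + 1 + d)) hn
      have hq0 := qq_nonneg n (k + 1 + (c' + 1 + d))
      have hq1 := qq_le_one n (k + 1 + (c' + 1 + d)) hn
      have h6 : ((k + 1 + (c' + 1 + d) : ℕ) : ℝ) * qq n (k + 1 + (c' + 1 + d)) ≤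
          2 * k + c' + 2 := by
        have h7 : ((k + 1 + (c' + 1 + d) : ℕ) : ℝ) ≤ 2 * k + c' + 2 := by
          have : (k + 1 + (c' + 1 + d) : ℕ) ≤ 2 * k + c' + 2 := by omega
          exact_mod_cast this
        have h8 : (0 : ℝ) ≤ ((k + 1 + (c' + 1 + d) : ℕ) : ℝ) := by positivity
        nlinarith
      calc (2 : ℝ) ^ (d + 1) * (hbound n (k + 1 + (c' + 1 + d)) : ℝ)
          ≤ (2 : ℝ) ^ (d + 1) * ((n : ℝ) ^ n * 2 ^ n *
            (((k + 1 + (c' + 1 + d) : ℕ) : ℝ) * qq n (k + 1 + (c' + 1 + d)) /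
              2 ^ (k + 1 + (c' + 1 + d)))) := mul_le_mul_of_nonneg_left h5 (by positivity)
        _ ≤ (2 : ℝ) ^ (d + 1) * ((n : ℝ) ^ n * 2 ^ n *
            ((2 * k + c' + 2) / 2 ^ (k + 1 + (c' + 1 + d)))) := by
            gcongr
        _ = (n : ℝ) ^ n * 2 ^ n * ((2 * k + c' + 2) / 2 ^ (k + c' + 1)) := by
            have h9 : (2 : ℝ) ^ (k + 1 + (c' + 1 + d)) = 2 ^ (k + c' + 1) * 2 ^ (d + 1) := by
              rw [← pow_add]; congr 1; ring
            rw [h9]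
            field_simp
    rw [Finset.sum_const, Finset.card_range, nsmul_eq_mul] at h4
    calc ((k : ℝ) + 1) * ((c' + 1) * ∑ d ∈ Finset.range k,
        (2 : ℝ) ^ (d + 1) * (hbound n (k + 1 + (c' + 1 + d)) : ℝ))
        ≤ ((k : ℝ) + 1) * ((c' + 1) * ((k : ℝ) * ((n : ℝ) ^ n * 2 ^ n *
          ((2 * k + c' + 2) / 2 ^ (k + c' + 1))))) := by gcongr
      _ = _ := by ring
  have h3 := frac_le hn (by positivity) h2
  refine h3.trans (le_of_eq ?_)
  rw [pow_succ]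
  field_simp

end Pool.Agent.Work.MP_2709b3_lc
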