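import Pool.Agent.Work.MP_2709b3_lc.Asym1

set_option autoImplicit false

namespace Pool.Agent.Work.MP_2709b3_lc

open Classical in
/-- union of a family -/
noncomputable def bUn {ι β : Type*} (s : Finset ι) (A : ι → Finset β) : Finset β := s.biUnion A

theorem mem_bUn {ι β : Type*} {s : Finset ι} {A : ι → Finset β} {x : β} :
    x ∈ bUn s A ↔ ∃ i ∈ s, x ∈ A i := by
  classical
  unfold bUn
  simp only [Finset.mem_biUnion]

open Classical in
/-- second moment inequality -/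
theorem second_moment {ι β : Type*} (s : Finset ι) (A : ι → Finset β) :
    (∑ i ∈ s, ((A i).card : ℝ)) ^ 2 ≤
      ((bUn s A).card : ℝ) * ∑ i ∈ s, ∑ j ∈ s, (icard (A i) (A j) : ℝ) := by
  simp only [icard_eq]
  unfold bUn
  set U := s.biUnion A with hU
  have hsub : ∀ i ∈ s, A i ⊆ U := fun i hi => Finset.subset_biUnion_of_mem A hi
  have h1 : ∀ B : Finset β, B ⊆ U → (B.card : ℝ) = ∑ ω ∈ U, if ω ∈ B then (1 : ℝ) else 0 := by
    intro B hB
    rw [Finset.sum_boole]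
    congr 2
    ext ω
    rw [Finset.mem_filter]
    exact ⟨fun h => ⟨hB h, h⟩, fun h => h.2⟩
  have h2 : ∑ i ∈ s, ((A i).card : ℝ) = ∑ ω ∈ U, ∑ i ∈ s, if ω ∈ A i then (1 : ℝ) else 0 := by
    rw [Finset.sum_comm]
    exact Finset.sum_congr rfl fun i hi => h1 _ (hsub i hi)
  rw [h2]
  refine sq_sum_le_card_mul_sum_sq.trans (le_of_eq ?_)
  congr 1
  have h3 : ∀ ω ∈ U, (∑ i ∈ s, if ω ∈ A i then (1 : ℝ) else 0) ^ 2 =
      ∑ i ∈ s, ∑ j ∈ s, if ω ∈ A i ∩ A j then (1 : ℝ) else 0 := by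
    intro ω _
    rw [sq, Finset.sum_mul_sum]
    apply Finset.sum_congr rfl
    intro i _
    apply Finset.sum_congr rfl
    intro j _
    by_cases h4 : ω ∈ A i <;> by_cases h5 : ω ∈ A j <;> simp [h4, h5]
  rw [Finset.sum_congr rfl h3, Finset.sum_comm]
  apply Finset.sum_congr rfl
  intro i hi
  rw [Finset.sum_comm]
  apply Finset.sum_congr rfl
  intro j _
  exact (h1 _ (Finset.inter_subset_left.trans (hsub i hi))).symm

/-- the polynomial factor -/
@[irreducible] noncomputable def KK (k : ℕ) : ℝ :=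
  (M36 : ℝ) * ((2 * k + 13) * ((k + 36) + (2 * k + 13) * (2 * k + 13)))

/-- number of embeddings -/
@[irreducible] noncomputable def MM (n k : ℕ) : ℝ := (n.descFactorial (k + 37) : ℝ)

/-- size of one occurrence set -/
@[irreducible] noncomputable def AA (n k : ℕ) : ℝ :=
  ((n : ℝ) - 37) ^ (n - (k + 36) - 1) * 2 ^ (n - (k + 36))

/-- bound for the intersection of two disjoint occurrence sets -/
@[irreducible] noncomputable def BB (n k : ℕ) : ℝ :=
  ((n : ℝ) - 74) ^ (n - 2 * (k + 36) - 1) * 2 ^ (n - 2 * (k + 36))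

/-- a correction close to `1` -/
@[irreducible] noncomputable def RR (n k : ℕ) : ℝ := ((n : ℝ) / (n - 37)) ^ (4 * k + 24)

/-- a correction close to `1` -/
@[irreducible] noncomputable def R1 (n k : ℕ) : ℝ := ((n : ℝ) / (n - 37)) ^ (2 * (k + 36))

/-- the total number of rooted oriented trees -/
@[irreducible] noncomputable def WW (n : ℕ) : ℝ := (n : ℝ) ^ (n - 1) * 2 ^ n

theorem KK_nonneg (k : ℕ) : 0 ≤ KK k := by unfold KK; positivity

theorem MM_pos {n k : ℕ} (h : k + 37 ≤ n) : 0 < MM n k := by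
  unfold MM
  have : 0 < n.descFactorial (k + 37) := Nat.descFactorial_pos.mpr h
  exact_mod_cast this

theorem cast37 {n : ℕ} (h : 37 ≤ n) : (((n - 37 : ℕ)) : ℝ) = (n : ℝ) - 37 := by
  rw [Nat.cast_sub h]; norm_num

theorem cast74 {n : ℕ} (h : 74 ≤ n) : (((n - 74 : ℕ)) : ℝ) = (n : ℝ) - 74 := by
  rw [Nat.cast_sub h]; norm_num

theorem pos37 {n : ℕ} (h : 74 ≤ n) : (0 : ℝ) < (n : ℝ) - 37 := by
  have : (74 : ℝ) ≤ (n : ℝ) := by exact_mod_cast h
  linarith

theorem AA_pos {n k : ℕ} (h : 74 ≤ n) : 0 < AA n k := by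
  have := pos37 h
  unfold AA
  positivity

theorem RR_pos {n k : ℕ} (h : 74 ≤ n) : 0 < RR n k := by
  have := pos37 h
  have h0 : 0 < n := by omega
  have hn : (0 : ℝ) < n := by exact_mod_cast h0
  unfold RR
  positivity

theorem R1_pos {n k : ℕ} (h : 74 ≤ n) : 0 < R1 n k := by
  have := pos37 h
  have h0 : 0 < n := by omega
  have hn : (0 : ℝ) < n := by exact_mod_cast h0
  unfold R1
  positivity

theorem BB_nonneg {n k : ℕ} (h : 74 ≤ n) : 0 ≤ BB n k := by
  have h1 : (74 : ℝ) ≤ (n : ℝ) := by exact_mod_cast h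
  have h2 : (0 : ℝ) ≤ (n : ℝ) - 74 := by linarith
  unfold BB
  positivity

theorem AA_eq {n k : ℕ} (h : 37 ≤ n) :
    AA n k = (((n - 37) ^ (n - (k + 36) - 1) * 2 ^ (n - (k + 36)) : ℕ) : ℝ) := by
  unfold AA
  rw [Nat.cast_mul, Nat.cast_pow, Nat.cast_pow, cast37 h]
  norm_num

theorem BB_eq {n k : ℕ} (h : 74 ≤ n) :
    BB n k = (((n - 74) ^ (n - 2 * (k + 36) - 1) * 2 ^ (n - 2 * (k + 36)) : ℕ) : ℝ) := by
  unfold BB
  rw [Nat.cast_mul, Nat.cast_pow, Nat.cast_pow, cast74 h]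
  norm_num

theorem card_OccS_real {n a k : ℕ} (hak : a < k) (hn : 2 * (k + 36) < n) (φ : SV k ↪ Fin n) :
    ((OccS a k φ).card : ℝ) = AA n k := by
  rw [card_OccS hak φ (by rw [Fintype.card_fin]; omega), Fintype.card_fin, AA_eq (by omega)]

theorem card_emb_real (n k : ℕ) : ((Finset.univ : Finset (SV k ↪ Fin n)).card : ℝ) = MM n k := by
  unfold MM
  rw [Finset.card_univ, Fintype.card_embedding_eq, card_SV, Fintype.card_fin]

open Classical in
theorem inter_overlap {n a k : ℕ} (hak : a < k) (hn : 2 * (k + 36) < n) (φ : SV k ↪ Fin n) :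
    ∑ ψ ∈ (Finset.univ : Finset (SV k ↪ Fin n)).filter (fun ψ => Ovl φ ψ),
      (icard (OccS a k φ) (OccS a k ψ) : ℝ) ≤ KK k * RR n k * AA n k := by
  have h1 := sum_overlap hak φ (by rw [Fintype.card_fin]; omega)
  rw [Fintype.card_fin] at h1
  set S : ℕ := ∑ ψ ∈ (Finset.univ : Finset (SV k ↪ Fin n)).filter (fun ψ => Ovl φ ψ),
      icard (OccS a k φ) (OccS a k ψ) with hS
  have h0 : ∑ ψ ∈ (Finset.univ : Finset (SV k ↪ Fin n)).filter (fun ψ => Ovl φ ψ),
      (icard (OccS a k φ) (OccS a k ψ) : ℝ) = (S : ℝ) := by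
    rw [hS]; push_cast; rfl
  rw [h0]
  clear_value S
  clear h0
  have hpos := pos37 (n := n) (by omega)
  have h2 := (Nat.cast_le (α := ℝ)).mpr h1
  rw [Nat.cast_mul, Nat.cast_mul, Nat.cast_mul, Nat.cast_mul, Nat.cast_mul, Nat.cast_mul,
    Nat.cast_pow, Nat.cast_pow, Nat.cast_pow, Nat.cast_pow, cast37 (by omega)] at h2
  have h3 : 2 * (2 * k + 12) = 4 * k + 24 := by ring
  rw [h3] at h2
  unfold KK RR AA
  rw [div_pow]
  generalize hq : ((n : ℝ) - 37) ^ (4 * k + 24) = q at h2 ⊢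
  have hqpos : 0 < q := by rw [← hq]; positivity
  generalize (n : ℝ) ^ (4 * k + 24) = y at h2 ⊢
  generalize ((n : ℝ) - 37) ^ (n - (k + 36) - 1) = x at h2 ⊢
  rw [show ((2 : ℕ) : ℝ) = 2 by norm_num] at h2
  generalize (2 : ℝ) ^ (n - (k + 36)) = t at h2 ⊢
  rw [← le_div_iff₀ hqpos] at h2
  refine h2.trans (le_of_eq ?_)
  push_cast
  ring

open Classical in
theorem inter_disj {n a k : ℕ} (hak : a < k) (hn : 2 * (k + 36) < n) (φ : SV k ↪ Fin n) :
    ∑ ψ ∈ (Finset.univ : Finset (SV k ↪ Fin n)).filter (fun ψ => ¬ Ovl φ ψ),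
      (icard (OccS a k φ) (OccS a k ψ) : ℝ) ≤ MM n k * BB n k := by
  calc ∑ ψ ∈ (Finset.univ : Finset (SV k ↪ Fin n)).filter (fun ψ => ¬ Ovl φ ψ),
        (icard (OccS a k φ) (OccS a k ψ) : ℝ)
        ≤ ∑ _ψ ∈ (Finset.univ : Finset (SV k ↪ Fin n)).filter (fun ψ => ¬ Ovl φ ψ),
          BB n k := by
          apply Finset.sum_le_sum
          intro ψ hψ
          rw [Finset.mem_filter] at hψ
          have h1 := card_OccS_inter_disjoint hak φ ψ (by rw [Fintype.card_fin]; exact hn)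
            (by
              intro v w h
              exact hψ.2 ⟨v, w, h⟩)
          rw [Fintype.card_fin] at h1
          rw [BB_eq (by omega)]
          exact (Nat.cast_le (α := ℝ)).mpr h1
      _ ≤ ∑ _ψ : SV k ↪ Fin n, BB n k := by
          apply Finset.sum_le_sum_of_subset_of_nonneg (Finset.filter_subset _ _)
          intro ψ _ _
          exact BB_nonneg (by omega)
      _ = _ := by
          rw [Finset.sum_const, nsmul_eq_mul, card_emb_real]

/-- all occurrences -/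
noncomputable def UU' (n a k : ℕ) : Finset ((Fin n → Fin n) × (Fin n → Bool)) :=
  bUn (Finset.univ : Finset (SV k ↪ Fin n)) (fun φ => OccS a k φ)

open Classical in
theorem inter_sum {n a k : ℕ} (hak : a < k) (hn : 2 * (k + 36) < n) (φ : SV k ↪ Fin n) :
    ∑ ψ : SV k ↪ Fin n, (icard (OccS a k φ) (OccS a k ψ) : ℝ) ≤
      KK k * RR n k * AA n k + MM n k * BB n k := by
  rw [← Finset.sum_filter_add_sum_filter_not (Finset.univ : Finset (SV k ↪ Fin n))
    (fun ψ => Ovl φ ψ)]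
  exact add_le_add (inter_overlap hak hn φ) (inter_disj hak hn φ)

theorem U_lower {n a k : ℕ} (hak : a < k) (hn : 2 * (k + 36) < n) :
    MM n k * AA n k ^ 2 ≤ ((UU' n a k).card : ℝ) * (KK k * RR n k * AA n k + MM n k * BB n k) := by
  classical
  have hMpos := MM_pos (n := n) (k := k) (by omega)
  have h1 := second_moment (Finset.univ : Finset (SV k ↪ Fin n)) (fun φ => OccS a k φ)
  have h2 : ∑ φ : SV k ↪ Fin n, ((OccS a k φ).card : ℝ) = MM n k * AA n k := by
    rw [Finset.sum_congr rfl (fun φ _ => card_OccS_real hak hn φ), Finset.sum_const, nsmul_eq_mul,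
      card_emb_real]
  rw [h2] at h1
  have h3 : ∑ φ : SV k ↪ Fin n, ∑ ψ : SV k ↪ Fin n, (icard (OccS a k φ) (OccS a k ψ) : ℝ) ≤
      MM n k * (KK k * RR n k * AA n k + MM n k * BB n k) := by
    refine (Finset.sum_le_sum fun φ _ => inter_sum hak hn φ).trans ?_
    rw [Finset.sum_const, nsmul_eq_mul, card_emb_real]
  have h4 : (MM n k * AA n k) ^ 2 ≤ ((UU' n a k).card : ℝ) *
      (MM n k * (KK k * RR n k * AA n k + MM n k * BB n k)) := by
    refine h1.trans ?_
    exact mul_le_mul_of_nonneg_left h3 (Nat.cast_nonneg _)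
  generalize ((UU' n a k).card : ℝ) = u at h4 ⊢
  generalize MM n k = M at h4 hMpos ⊢
  generalize KK k * RR n k * AA n k + M * BB n k = z at h4 ⊢
  generalize AA n k = A at h4 ⊢
  have h5 : M * (M * A ^ 2) ≤ M * (u * z) := by
    calc M * (M * A ^ 2) = (M * A) ^ 2 := by ring
      _ ≤ _ := h4
      _ = _ := by ring
  exact le_of_mul_le_mul_left h5 hMpos

theorem div_pow_le_exp {x c : ℝ} (hx : 0 < x) (hc : 0 < x - c) (m : ℕ) :
    (x / (x - c)) ^ m ≤ Real.exp (m * (c / (x - c))) := by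
  have h2 : x / (x - c) = c / (x - c) + 1 := by field_simp; ring
  have h3 : x / (x - c) ≤ Real.exp (c / (x - c)) := by
    rw [h2]
    exact Real.add_one_le_exp _
  calc (x / (x - c)) ^ m ≤ (Real.exp (c / (x - c))) ^ m :=
        pow_le_pow_left₀ (by positivity) h3 _
    _ = Real.exp (m * (c / (x - c))) := by rw [← Real.exp_nat_mul]

/-- the ratio `|Ω| / (M A)` -/
theorem ratio_bound {n k : ℕ} (hn : 2 * (k + 37) ^ 2 ≤ n) (hn2 : 200 ≤ n) :
    WW n ≤ MM n k * AA n k * (Real.exp 39 * 2 ^ (k + 36) / n) := by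
  have hk1 : k + 37 ≤ (k + 37) ^ 2 := by nlinarith
  unfold WW MM AA
  obtain ⟨h, hh⟩ : ∃ h, h = k + 36 := ⟨_, rfl⟩
  have hh1 : k + 37 = h + 1 := by omega
  rw [hh1, ← hh]
  rw [hh1] at hn hk1
  have hh36 : 36 ≤ h := by omega
  clear hh hh1
  have hhn : 2 * (h + 1) ≤ n := by omega
  have hnpos : (0 : ℝ) < n := by
    have : 0 < n := by omega
    exact_mod_cast this
  have hn37 := pos37 (n := n) (by omega)
  have hnh : (0 : ℝ) < (n : ℝ) - h := by
    have : ((2 * (h + 1) : ℕ) : ℝ) ≤ (n : ℝ) := by exact_mod_cast hhn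
    push_cast at this
    have h0 : (0 : ℝ) ≤ (h : ℝ) := by positivity
    linarith
  -- descFactorial
  have h1 : ((n : ℝ) - h) ^ (h + 1) ≤ (n.descFactorial (h + 1) : ℝ) := by
    have := Nat.pow_sub_le_descFactorial n (h + 1)
    rw [show n + 1 - (h + 1) = n - h by omega] at this
    have h2 : (((n - h : ℕ)) : ℝ) = (n : ℝ) - h := by rw [Nat.cast_sub (by omega)]
    rw [← h2]
    exact_mod_cast this
  -- two exponential estimates
  have e1 : ((n : ℝ) / (n - 37)) ^ (n - h - 1) ≤ Real.exp 37 := by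
    refine (div_pow_le_exp hnpos hn37 _).trans ?_
    apply Real.exp_le_exp.mpr
    have h4 : ((n - h - 1 : ℕ) : ℝ) ≤ (n : ℝ) - 37 := by
      have : (n - h - 1 : ℕ) ≤ n - 37 := by omega
      rw [← cast37 (by omega)]
      exact_mod_cast this
    calc ((n - h - 1 : ℕ) : ℝ) * (37 / (n - 37)) ≤ ((n : ℝ) - 37) * (37 / (n - 37)) := by
          gcongr
      _ = 37 := by field_simp
  have e2 : ((n : ℝ) / (n - h)) ^ (h + 1) ≤ Real.exp 2 := by
    refine (div_pow_le_exp hnpos hnh _).trans ?_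
    apply Real.exp_le_exp.mpr
    have h4 : ((h + 1 : ℕ) : ℝ) * (h / (n - h)) = (((h + 1 : ℕ) : ℝ) * h) / (n - h) := by
      ring
    rw [h4, div_le_iff₀ hnh]
    have h5 : ((2 * (h + 1) ^ 2 : ℕ) : ℝ) ≤ (n : ℝ) := by exact_mod_cast hn
    push_cast at h5 ⊢
    have h0 : (0 : ℝ) ≤ (h : ℝ) := by positivity
    nlinarith
  -- assemble
  obtain ⟨m, hm⟩ := Nat.exists_eq_add_of_le (show h + 1 ≤ n by omega)
  have hm1 : n - h - 1 = m := by omega
  have hm2 : n - h = m + 1 := by omega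
  rw [hm1] at e1 ⊢
  rw [hm2]
  have hn1 : (n : ℝ) ^ (n - 1) = (n : ℝ) ^ m * (n : ℝ) ^ (h + 1) / n := by
    rw [eq_div_iff hnpos.ne', ← pow_succ, ← pow_add]
    congr 1
    omega
  have hn2' : (2 : ℝ) ^ n = 2 ^ (m + 1) * 2 ^ h := by
    rw [← pow_add]; congr 1; omega
  have e1' : (n : ℝ) ^ m ≤ Real.exp 37 * ((n : ℝ) - 37) ^ m := by
    rw [div_pow, div_le_iff₀ (by positivity)] at e1
    exact e1
  have e2' : (n : ℝ) ^ (h + 1) ≤ Real.exp 2 * ((n : ℝ) - h) ^ (h + 1) := by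
    rw [div_pow, div_le_iff₀ (by positivity)] at e2
    exact e2
  have e3 : Real.exp 39 = Real.exp 37 * Real.exp 2 := by
    rw [← Real.exp_add]; norm_num
  rw [hn1, hn2', e3]
  have hp1 : (0 : ℝ) ≤ (n : ℝ) ^ m := by positivity
  have hp2 : (0 : ℝ) ≤ (n : ℝ) ^ (h + 1) := by positivity
  have hp3 : (0 : ℝ) ≤ ((n : ℝ) - 37) ^ m := by positivity
  have hp4 : (0 : ℝ) ≤ ((n : ℝ) - h) ^ (h + 1) := by positivity
  have hp5 := Real.exp_pos 37
  have hp6 := Real.exp_pos 2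
  generalize (n.descFactorial (h + 1) : ℝ) = D at h1 ⊢
  generalize ((n : ℝ) - h) ^ (h + 1) = y at h1 e2' hp4
  generalize (n : ℝ) ^ (h + 1) = y' at e2' hp2 ⊢
  generalize ((n : ℝ) - 37) ^ m = x at e1' hp3 ⊢
  generalize (n : ℝ) ^ m = x' at e1' hp1 ⊢
  have e4 : y' ≤ Real.exp 2 * D := e2'.trans (by gcongr)
  have e5 : x' * y' ≤ (Real.exp 37 * x) * (Real.exp 2 * D) := by gcongr
  calc x' * y' / n * (2 ^ (m + 1) * 2 ^ h)
      ≤ (Real.exp 37 * x) * (Real.exp 2 * D) / n * (2 ^ (m + 1) * 2 ^ h) := by gcongr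
    _ = _ := by ring

theorem r1_bound {n k : ℕ} (hn : 2 * (k + 36) < n) (hn2 : 200 ≤ n) :
    WW n * BB n k ≤ R1 n k * AA n k ^ 2 := by
  unfold WW BB R1 AA
  obtain ⟨h, hh⟩ : ∃ h, h = k + 36 := ⟨_, rfl⟩
  rw [← hh]
  rw [← hh] at hn
  clear hh
  have hn37 := pos37 (n := n) (by omega)
  have hn74 : (0 : ℝ) ≤ (n : ℝ) - 74 := by
    have : (200 : ℝ) ≤ (n : ℝ) := by exact_mod_cast hn2
    linarith
  obtain ⟨m, hm⟩ := Nat.exists_eq_add_of_le (show 2 * h + 1 ≤ n by omega)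
  have h1 : n - 2 * h - 1 = m := by omega
  have h2 : n - 2 * h = m + 1 := by omega
  have h3 : n - h - 1 = m + h := by omega
  have h4 : n - h = m + h + 1 := by omega
  rw [h1, h2, h3, h4]
  have h5 : (n : ℝ) ^ (n - 1) = (n : ℝ) ^ m * (n : ℝ) ^ (2 * h) := by
    rw [← pow_add]; congr 1; omega
  have h6 : (2 : ℝ) ^ n * 2 ^ (m + 1) = (2 ^ (m + h + 1)) ^ 2 := by
    rw [← pow_mul, ← pow_add]; congr 1; omega
  have h7 : (n : ℝ) * (n - 74) ≤ (n - 37) ^ 2 := by nlinarith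
  have h8 : (n : ℝ) ^ m * ((n : ℝ) - 74) ^ m ≤ (((n : ℝ) - 37) ^ 2) ^ m := by
    rw [← mul_pow]
    apply pow_le_pow_left₀ (by positivity) h7
  have h9 : (((n : ℝ) - 37) ^ 2) ^ m * (n : ℝ) ^ (2 * h) =
      ((n : ℝ) / (n - 37)) ^ (2 * h) * (((n : ℝ) - 37) ^ (m + h)) ^ 2 := by
    rw [div_pow, ← pow_mul, ← pow_mul, show (m + h) * 2 = 2 * m + 2 * h by ring, pow_add]
    have : ((n : ℝ) - 37) ^ (2 * h) ≠ 0 := by positivity
    generalize ((n : ℝ) - 37) ^ (2 * h) = q at this ⊢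
    generalize ((n : ℝ) - 37) ^ (2 * m) = q'
    field_simp
  have hp : (0 : ℝ) ≤ (n : ℝ) ^ (2 * h) := by positivity
  have hp2 : (0 : ℝ) ≤ (2 : ℝ) ^ n * 2 ^ (m + 1) := by positivity
  calc (n : ℝ) ^ (n - 1) * 2 ^ n * (((n : ℝ) - 74) ^ m * 2 ^ (m + 1))
      = ((n : ℝ) ^ m * ((n : ℝ) - 74) ^ m) * (n : ℝ) ^ (2 * h) * (2 ^ n * 2 ^ (m + 1)) := by
        rw [h5]
        generalize ((n : ℝ) - 74) ^ m = z
        ring
    _ ≤ (((n : ℝ) - 37) ^ 2) ^ m * (n : ℝ) ^ (2 * h) * (2 ^ n * 2 ^ (m + 1)) := by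
        gcongr
    _ = _ := by
        rw [h9, h6]
        generalize ((n : ℝ) - 37) ^ (m + h) = z
        ring

open Classical in
/-- oriented trees without an occurrence of the pattern -/
noncomputable def noP (n a k : ℕ) : Finset (Fin n → Fin n → Bool) :=
  (OTs (Fin n)).filter (fun E => ¬ ∃ f σ, (f, σ) ∈ UU' n a k ∧ mk f σ = E)

theorem noP_frac {n a k : ℕ} (hak : a < k) (hn : 2 * (k + 37) ^ 2 ≤ n) (hn2 : 200 ≤ n) :
    ((noP n a k).card : ℝ) / ((OTs (Fin n)).card : ℝ) ≤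
      R1 n k - 1 + KK k * RR n k * (Real.exp 39 * 2 ^ (k + 36) / n) := by
  classical
  have hk1 : k + 37 ≤ (k + 37) ^ 2 := by nlinarith
  have hn0 : 0 < n := by omega
  have hne : Nonempty (Fin n) := ⟨⟨0, hn0⟩⟩
  have hnpos : (0 : ℝ) < n := by exact_mod_cast hn0
  set Ω : Finset ((Fin n → Fin n) × (Fin n → Bool)) := (RTs (Fin n)) ×ˢ Finset.univ with hΩ
  have hΩcard0 : Ω.card = (RTs (Fin n)).card * 2 ^ n := by
    rw [hΩ, Finset.card_product, Finset.card_univ, Fintype.card_fun, Fintype.card_bool,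
      Fintype.card_fin]
  have hΩcard : (Ω.card : ℝ) = WW n := by
    unfold WW
    rw [hΩcard0, card_RTs, Fintype.card_fin]
    push_cast
    ring
  have hUsub : UU' n a k ⊆ Ω := by
    rintro ⟨f, σ⟩ h
    unfold UU' at h
    rw [mem_bUn] at h
    obtain ⟨φ, _, h⟩ := h
    rw [hΩ, Finset.mem_product]
    exact ⟨mem_RTs.mpr (OccS_isOcc h).tree, Finset.mem_univ _⟩
  -- transfer
  have htr : (noP n a k).card * (n * 2) ≤ (Ω \ UU' n a k).card := by
    have := card_transfer (α := Fin n) (noP n a k) (Finset.filter_subset _ _) (Ω \ UU' n a k) (by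
      intro f σ hf hmk
      unfold noP at hmk
      rw [Finset.mem_filter] at hmk
      rw [Finset.mem_sdiff, hΩ, Finset.mem_product]
      exact ⟨⟨mem_RTs.mpr hf, Finset.mem_univ _⟩, fun h => hmk.2 ⟨f, σ, h, rfl⟩⟩)
    rwa [Fintype.card_fin] at this
  have hOT : (Ω.card : ℝ) ≤ ((OTs (Fin n)).card : ℝ) * (n * 2) := by
    have h1 := card_RTs_le (α := Fin n)
    rw [hΩcard0]
    rw [Fintype.card_fin] at h1
    exact_mod_cast h1
  have hsd : ((Ω \ UU' n a k).card : ℝ) = (Ω.card : ℝ) - ((UU' n a k).card : ℝ) := by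
    rw [Finset.card_sdiff_of_subset hUsub, Nat.cast_sub (Finset.card_le_card hUsub)]
  have htr' : ((noP n a k).card : ℝ) * (n * 2) ≤ (Ω.card : ℝ) - ((UU' n a k).card : ℝ) := by
    rw [← hsd]
    exact_mod_cast htr
  have hWpos : 0 < WW n := by unfold WW; positivity
  have h1 := U_lower (n := n) (a := a) (k := k) hak (by omega)
  have h2 := ratio_bound (n := n) (k := k) hn hn2
  have h3 := r1_bound (n := n) (k := k) (by omega) hn2
  have hMpos := MM_pos (n := n) (k := k) (by omega)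
  have hApos := AA_pos (n := n) (k := k) (by omega)
  have hRpos := RR_pos (n := n) (k := k) (by omega)
  have hR1pos := R1_pos (n := n) (k := k) (by omega)
  have hBnn := BB_nonneg (n := n) (k := k) (by omega)
  have hKnn := KK_nonneg k
  have hXpos : 0 < Real.exp 39 * 2 ^ (k + 36) / (n : ℝ) := by positivity
  rw [hΩcard] at hOT htr'
  have hNnn : (0 : ℝ) ≤ ((noP n a k).card : ℝ) := Nat.cast_nonneg _
  have hUnn : (0 : ℝ) ≤ ((UU' n a k).card : ℝ) := Nat.cast_nonneg _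
  have hOTnn : (0 : ℝ) ≤ ((OTs (Fin n)).card : ℝ) := Nat.cast_nonneg _
  generalize ((noP n a k).card : ℝ) = N at *
  generalize ((UU' n a k).card : ℝ) = U at *
  generalize ((OTs (Fin n)).card : ℝ) = T at *
  generalize MM n k = M at *
  generalize AA n k = A at *
  generalize BB n k = B at *
  generalize RR n k = R at *
  generalize R1 n k = r1 at *
  generalize KK k = K at *
  generalize Real.exp 39 * 2 ^ (k + 36) / (n : ℝ) = X at *
  generalize WW n = W at *
  clear hΩcard hΩcard0 hUsub htr hsd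
  have hTpos : 0 < T := by
    by_contra hcon
    have : T = 0 := le_antisymm (not_lt.mp hcon) hOTnn
    rw [this] at hOT
    linarith
  have hfrac : N / T ≤ 1 - U / W := by
    have h1 : 1 - U / W = (W - U) / W := by field_simp
    rw [h1, div_le_div_iff₀ hTpos hWpos]
    calc N * W ≤ N * (T * (n * 2)) := mul_le_mul_of_nonneg_left hOT hNnn
      _ = (N * (n * 2)) * T := by ring
      _ ≤ _ := mul_le_mul_of_nonneg_right htr' hTpos.le
  refine hfrac.trans ?_
  have hr2nn : 0 ≤ K * R * X := by positivity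
  have h4 : 1 ≤ U / W * (r1 + K * R * X) := by
    have h5 : W * (M * A ^ 2) ≤ (U * (r1 + K * R * X)) * (M * A ^ 2) := by
      calc W * (M * A ^ 2)
          ≤ W * (U * (K * R * A + M * B)) := mul_le_mul_of_nonneg_left h1 hWpos.le
        _ = U * (K * R * A * W + M * (W * B)) := by ring
        _ ≤ U * (K * R * A * (M * A * X) + M * (r1 * A ^ 2)) := by gcongr
        _ = _ := by ring
    have h6 : (0 : ℝ) < M * A ^ 2 := by positivity
    have h7 : W ≤ U * (r1 + K * R * X) := le_of_mul_le_mul_right h5 h6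
    rw [div_mul_eq_mul_div, le_div_iff₀ hWpos, one_mul]
    exact h7
  have hu0 : 0 ≤ U / W := by positivity
  generalize U / W = u at *
  generalize K * R * X = r2 at *
  have hrpos : 0 < r1 + r2 := by linarith
  nlinarith [sq_nonneg (r1 + r2 - 1)]

end Pool.Agent.Work.MP_2709b3_lc
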