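import Pool.Agent.Work.MP_2709b3_lc.Pattern

set_option autoImplicit false

namespace Pool.Agent.Work.MP_2709b3_lc

section
variable {V α : Type*}

open Classical in
/-- orientations with prescribed bits. -/
noncomputable def Bits [Fintype α] (φ : V → α) (S : Finset V) (b : V → Bool) :
    Finset (α → Bool) :=
  Finset.univ.filter (fun σ : α → Bool => ∀ v ∈ S, σ (φ v) = b v)

theorem mem_Bits [Fintype α] {φ : V → α} {S : Finset V} {b : V → Bool} {σ : α → Bool} :
    σ ∈ Bits φ S b ↔ ∀ v ∈ S, σ (φ v) = b v := by
  classical
  unfold Bits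
  simp only [Finset.mem_filter, Finset.mem_univ, true_and]

open Classical in
/-- number of orientations with prescribed bits. -/
theorem card_bits [Fintype α] {φ : V → α} (hφ : Function.Injective φ) (S : Finset V)
    (b : V → Bool) :
    (Bits φ S b).card = 2 ^ (Fintype.card α - S.card) := by
  have h1 : Bits φ S b = Fintype.piFinset (fun a : α => Finset.univ.filter
        (fun c : Bool => ∀ v ∈ S, φ v = a → c = b v)) := by
    ext σ
    rw [mem_Bits]
    simp only [Finset.mem_filter, Finset.mem_univ, true_and, Fintype.mem_piFinset]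
    constructor
    · rintro h a v hv rfl
      exact h v hv
    · intro h v hv
      exact h (φ v) v hv rfl
  rw [h1, Fintype.card_piFinset]
  have h2 : ∀ a : α, (Finset.univ.filter
        (fun c : Bool => ∀ v ∈ S, φ v = a → c = b v)).card =
        if a ∈ S.image φ then 1 else 2 := by
    intro a
    split_ifs with h
    · rw [Finset.mem_image] at h
      obtain ⟨v, hv, rfl⟩ := h
      rw [Finset.card_eq_one]
      refine ⟨b v, ?_⟩
      ext c
      simp only [Finset.mem_filter, Finset.mem_univ, true_and, Finset.mem_singleton]
      constructor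
      · intro h3; exact h3 v hv rfl
      · rintro rfl w hw hwv
        rw [hφ hwv]
    · have : (Finset.univ.filter (fun c : Bool => ∀ v ∈ S, φ v = a → c = b v)) = Finset.univ := by
        ext c
        simp only [Finset.mem_filter, Finset.mem_univ, true_and, iff_true]
        intro v hv hva
        exact absurd (Finset.mem_image.mpr ⟨v, hv, hva⟩) h
      rw [this]
      simp
  rw [Finset.prod_congr rfl (fun a _ => h2 a)]
  rw [Finset.prod_ite, Finset.prod_const_one, one_mul, Finset.prod_const]
  congr 1
  rw [Finset.filter_not, Finset.card_sdiff_of_subset (Finset.filter_subset _ _),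
    Finset.card_univ]
  congr 1
  rw [Finset.filter_mem_eq_inter, Finset.univ_inter, Finset.card_image_of_injective _ hφ]

open Classical in
/-- the set of oriented trees on `α`. -/
noncomputable def OTs (α : Type*) [Fintype α] : Finset (α → α → Bool) :=
  Finset.univ.filter (fun E => IsOT E)

theorem mem_OTs [Fintype α] {E : α → α → Bool} : E ∈ OTs α ↔ IsOT E := by
  classical
  unfold OTs
  simp only [Finset.mem_filter, Finset.mem_univ, true_and]

/-- all rooted trees -/
noncomputable def RTs (α : Type*) [Fintype α] : Finset (α → α) := Ext id ∅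

theorem mem_RTs [Fintype α] {f : α → α} : f ∈ RTs α ↔ IsRT f := by
  unfold RTs
  rw [mem_Ext]
  simp

theorem isForest_id : IsForest (id : α → α) := fun _ => ⟨0, rfl⟩

theorem card_RTs [Fintype α] [Nonempty α] :
    (RTs α).card = Fintype.card α ^ (Fintype.card α - 1) := by
  unfold RTs
  rw [card_Ext (Fintype.card α - 1) id ∅ isForest_id (by simp)]
  · simp
  · have : fixedPts (id : α → α) = Finset.univ := by
      ext x; simp [mem_fixedPts]
    rw [this, Finset.card_univ]
    have := Fintype.card_pos (α := α)
    omega

/-- the root of a rooted tree -/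
noncomputable def rootOf [Nonempty α] (f : α → α) : α := Classical.epsilon (fun r => IsRTr f r)

theorem rootOf_spec [Nonempty α] {f : α → α} (hf : IsRT f) : IsRTr f (rootOf f) :=
  Classical.epsilon_spec hf

open Classical in
/-- rooted oriented trees as pairs (parent map, orientations). -/
theorem card_RTs_le [Fintype α] [Nonempty α] :
    (RTs α).card * 2 ^ Fintype.card α ≤ (OTs α).card * (Fintype.card α * 2) := by
  have h1 : (RTs α).card * 2 ^ Fintype.card α =
      ((RTs α) ×ˢ (Finset.univ : Finset (α → Bool))).card := by
    rw [Finset.card_product, Finset.card_univ, Fintype.card_fun, Fintype.card_bool]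
  have h2 : (OTs α).card * (Fintype.card α * 2) =
      ((OTs α) ×ˢ ((Finset.univ : Finset α) ×ˢ (Finset.univ : Finset Bool))).card := by
    rw [Finset.card_product, Finset.card_product, Finset.card_univ, Finset.card_univ,
      Fintype.card_bool]
  rw [h1, h2]
  apply Finset.card_le_card_of_injOn
    (fun p : (α → α) × (α → Bool) => (mk p.1 p.2, rootOf p.1, p.2 (rootOf p.1)))
  · intro p hp
    rw [Finset.mem_coe, Finset.mem_product] at hp
    rw [Finset.mem_coe, Finset.mem_product, Finset.mem_product]
    exact ⟨mem_OTs.mpr (mk_isOT (mem_RTs.mp hp.1) _), Finset.mem_univ _, Finset.mem_univ _⟩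
  · intro p hp q hq hpq
    rw [Finset.mem_coe, Finset.mem_product] at hp hq
    simp only [Prod.mk.injEq] at hpq
    obtain ⟨h3, h4, h5⟩ := hpq
    have hp1 := rootOf_spec (mem_RTs.mp hp.1)
    have hq1 := rootOf_spec (mem_RTs.mp hq.1)
    rw [h4] at hp1 h5
    obtain ⟨h6, h7⟩ := mk_unique hp1 hq1 h3
    apply Prod.ext h6
    funext a
    by_cases ha : a = rootOf q.1
    · rw [ha]; exact h5
    · exact h7 a ha

open Classical in
/-- transfer from oriented trees to rooted oriented trees. -/
theorem card_transfer [Fintype α] (B : Finset (α → α → Bool)) (hB : B ⊆ OTs α)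
    (Z : Finset ((α → α) × (α → Bool)))
    (hZ : ∀ f σ, IsRT f → mk f σ ∈ B → (f, σ) ∈ Z) :
    B.card * (Fintype.card α * 2) ≤ Z.card := by
  have h2 : B.card * (Fintype.card α * 2) =
      (B ×ˢ ((Finset.univ : Finset α) ×ˢ (Finset.univ : Finset Bool))).card := by
    rw [Finset.card_product, Finset.card_product, Finset.card_univ, Finset.card_univ,
      Fintype.card_bool]
  rw [h2]
  have hch : ∀ (E : α → α → Bool) (r : α), ∃ f : α → α, E ∈ B → IsRTr f r ∧
      (∀ a b, (E a b = true ∨ E b a = true) ↔ (a ≠ b ∧ (f a = b ∨ f b = a))) := by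
    intro E r
    by_cases hE : E ∈ B
    · obtain ⟨f, h⟩ := exists_parent (mem_OTs.mp (hB hE)) r
      exact ⟨f, fun _ => h⟩
    · exact ⟨id, fun h => absurd h hE⟩
  choose P hP using hch
  have hmk : ∀ E ∈ B, ∀ r β, mk (P E r) (fun a => if a = r then β else E a (P E r a)) = E := by
    intro E hE r β
    obtain ⟨h3, h4⟩ := hP E r hE
    apply mk_parent (mem_OTs.mp (hB hE)).1 h4
    intro a ha
    have : a ≠ r := by rintro rfl; exact ha h3.1
    simp [this]
  apply Finset.card_le_card_of_injOn
    (fun p : (α → α → Bool) × α × Bool =>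
      (P p.1 p.2.1, fun a => if a = p.2.1 then p.2.2 else p.1 a (P p.1 p.2.1 a)))
  · rintro ⟨E, r, β⟩ hp
    rw [Finset.mem_coe, Finset.mem_product] at hp
    rw [Finset.mem_coe]
    apply hZ
    · exact ⟨r, (hP E r hp.1).1⟩
    · rw [hmk E hp.1]; exact hp.1
  · rintro ⟨E, r, β⟩ hp ⟨E', r', β'⟩ hq hpq
    rw [Finset.mem_coe, Finset.mem_product] at hp hq
    simp only [Prod.mk.injEq] at hpq
    obtain ⟨h3, h4⟩ := hpq
    have h5 := hmk E hp.1 r β
    have h6 := hmk E' hq.1 r' β'
    have h7 : E = E' := by
      rw [← h5, ← h6, h4, h3]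
    subst h7
    have h8 := (hP E r hp.1).1
    have h9 := (hP E r' hq.1).1
    rw [h3] at h8
    have h10 : r = r' := h9.unique h8.1
    subst h10
    have h11 := congrFun h4 r
    simp only [if_true] at h11
    rw [h11]

open Classical in
/-- the number of oriented trees containing a given oriented pattern. -/
theorem card_pattern [Fintype V] [Fintype α] {φ : V → α} (hφ : Function.Injective φ)
    {π : V → V} {ρ : V} (hπ : IsRTr π ρ) (b : V → Bool) :
    ((OTs α).filter (fun E => ∀ v, v ≠ ρ →
      (if b v then E (φ v) (φ (π v)) else E (φ (π v)) (φ v)) = true)).card * Fintype.card α ≤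
      Fintype.card V * Fintype.card α ^ (Fintype.card α - Fintype.card V) *
        2 ^ (Fintype.card α - Fintype.card V) := by
  set B := (OTs α).filter (fun E => ∀ v, v ≠ ρ →
      (if b v then E (φ v) (φ (π v)) else E (φ (π v)) (φ v)) = true) with hB
  have hBmem : ∀ E, E ∈ B ↔ IsOT E ∧ ∀ v, v ≠ ρ →
      (if b v then E (φ v) (φ (π v)) else E (φ (π v)) (φ v)) = true := by
    intro E
    rw [hB, Finset.mem_filter, mem_OTs]
  set b' : V → Bool := fun v => if v = ρ then false else b v with hb'
  set T := (RootedExt φ π ρ) ×ˢ (Bits φ (Finset.univ : Finset V) b')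
    with hT
  have hTcard : T.card = (RootedExt φ π ρ).card * 2 ^ (Fintype.card α - Fintype.card V) := by
    rw [hT, Finset.card_product, card_bits hφ, Finset.card_univ]
  have hle : B.card ≤ T.card := by
    have hch : ∀ (E : α → α → Bool), ∃ f : α → α, E ∈ B → IsRTr f (φ ρ) ∧
        (∀ a b, (E a b = true ∨ E b a = true) ↔ (a ≠ b ∧ (f a = b ∨ f b = a))) := by
      intro E
      by_cases hE : E ∈ B
      · obtain ⟨f, h⟩ := exists_parent ((hBmem E).mp hE).1 (φ ρ)
        exact ⟨f, fun _ => h⟩
      · exact ⟨id, fun h => absurd h hE⟩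
    choose P hP using hch
    have hmk : ∀ E ∈ B, mk (P E) (fun a => if a = φ ρ then false else E a (P E a)) = E := by
      intro E hE
      obtain ⟨h3, h4⟩ := hP E hE
      apply mk_parent ((hBmem E).mp hE).1.1 h4
      intro a ha
      have : a ≠ φ ρ := by rintro rfl; exact ha h3.1
      simp [this]
    apply Finset.card_le_card_of_injOn
      (fun E : α → α → Bool => (P E, fun a => if a = φ ρ then false else E a (P E a)))
    · intro E hE
      rw [Finset.mem_coe] at hE ⊢
      obtain ⟨h3, h4⟩ := hP E hE
      obtain ⟨h5, h6⟩ := (hBmem E).mp hE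
      -- parents of embedded vertices
      have hpar : ∀ k v, π^[k] v = ρ → P E (φ v) = φ (π v) := by
        intro k
        induction k with
        | zero =>
          intro v hv
          have : v = ρ := hv
          rw [this, h3.1, hπ.1]
        | succ k ih =>
          intro v hv
          by_cases hvρ : v = ρ
          · rw [hvρ, h3.1, hπ.1]
          · rw [Function.iterate_succ_apply] at hv
            have h7 := ih _ hv
            have h8 : E (φ v) (φ (π v)) = true ∨ E (φ (π v)) (φ v) = true := by
              have := h6 v hvρ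
              cases hb : b v
              · rw [hb] at this; right; simpa using this
              · rw [hb] at this; left; simpa using this
            obtain ⟨h9, h10⟩ := (h4 _ _).mp h8
            rcases h10 with h10 | h10
            · exact h10
            · exfalso
              rw [h7] at h10
              have h11 : π (π v) = v := hφ h10
              have h12 : π v = v := periodic2_fixed ⟨ρ, hπ⟩ h11
              exact hvρ (hπ.unique h12)
      rw [hT, Finset.mem_product, mem_RootedExt, mem_Bits]
      refine ⟨⟨h3, fun v => ?_⟩, fun v _ => ?_⟩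
      · obtain ⟨k, hk⟩ := hπ.2 v
        exact hpar k v hk
      · simp only [hb']
        by_cases hvρ : v = ρ
        · simp [hvρ]
        · have hne : φ v ≠ φ ρ := fun h => hvρ (hφ h)
          rw [if_neg hne, if_neg hvρ]
          obtain ⟨k, hk⟩ := hπ.2 v
          rw [hpar k v hk]
          have h13 := h6 v hvρ
          cases hb : b v
          · rw [hb] at h13
            simp only [Bool.false_eq_true, if_false] at h13
            cases h14 : E (φ v) (φ (π v))
            · rfl
            · exact absurd ⟨h14, h13⟩ (h5.1 _ _)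
          · rw [hb] at h13
            simpa using h13
    · intro E hE E' hE' hEE'
      rw [Finset.mem_coe] at hE hE'
      simp only [Prod.mk.injEq] at hEE'
      rw [← hmk E hE, ← hmk E' hE', hEE'.2, hEE'.1]
  calc B.card * Fintype.card α ≤ T.card * Fintype.card α := Nat.mul_le_mul_right _ hle
    _ = ((RootedExt φ π ρ).card * Fintype.card α) * 2 ^ (Fintype.card α - Fintype.card V) := by
        rw [hTcard]; ring
    _ = _ := by rw [card_RootedExt hφ hπ]

end

end Pool.Agent.Work.MP_2709b3_lc
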