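import Pool.Agent.Work.MP_2709b3_lc.Pattern

set_option autoImplicit false

namespace Pool.Agent.Work.MP_2709b3_lc

section
variable {α : Type*} [Fintype α]

open Classical in
/-- points reaching `y` after `l` steps through roots of `g` -/
noncomputable def PB (g f : α → α) (l : ℕ) (y : α) : Finset α :=
  Finset.univ.filter (fun x => f^[l] x = y ∧ ∀ m < l, g (f^[m] x) = f^[m] x ∧ f^[m] x ≠ y)

theorem mem_PB {g f : α → α} {l : ℕ} {y x : α} :
    x ∈ PB g f l y ↔ f^[l] x = y ∧ ∀ m < l, g (f^[m] x) = f^[m] x ∧ f^[m] x ≠ y := by
  classical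
  unfold PB
  simp only [Finset.mem_filter, Finset.mem_univ, true_and]

open Classical in
/-- points reaching the `i`-th ancestor of `t` after `l` steps through roots of `g` -/
noncomputable def PU (g f : α → α) (i l : ℕ) (t : α) : Finset α :=
  Finset.univ.filter (fun x => f^[l] x = f^[i] t ∧
    ∀ m < l, g (f^[m] x) = f^[m] x ∧ ∀ i' ≤ i, f^[m] x ≠ f^[i'] t)

theorem mem_PU {g f : α → α} {i l : ℕ} {t x : α} :
    x ∈ PU g f i l t ↔ f^[l] x = f^[i] t ∧
    ∀ m < l, g (f^[m] x) = f^[m] x ∧ ∀ i' ≤ i, f^[m] x ≠ f^[i'] t := by
  classical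
  unfold PU
  simp only [Finset.mem_filter, Finset.mem_univ, true_and]

theorem PB_bound (C : Finset α) (l : ℕ) : ∀ (c : ℕ) (g : α → α) (y : α), IsForest g →
    (∀ x ∈ C, g x ≠ x) → (fixedPts g).card = c + 1 →
    (∑ f ∈ Ext g C, (PB g f l y).card) * (Fintype.card α - C.card) ^ l ≤
      (Fintype.card α - C.card) ^ c * Fintype.card α ^ l := by
  classical
  set N := Fintype.card α - C.card with hN
  set n := Fintype.card α with hn
  induction l with
  | zero =>
    intro c g y hg hC hc
    rw [pow_zero, pow_zero, mul_one, mul_one]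
    calc ∑ f ∈ Ext g C, (PB g f 0 y).card ≤ ∑ f ∈ Ext g C, 1 := by
          apply Finset.sum_le_sum
          intro f _
          have : PB g f 0 y ⊆ {y} := by
            intro x hx
            rw [mem_PB] at hx
            rw [Finset.mem_singleton]
            exact hx.1
          exact (Finset.card_le_card this).trans (by simp)
      _ = (Ext g C).card := by simp
      _ = N ^ c := card_Ext c g C hg hC hc
      _ ≤ N ^ c := le_rfl
  | succ l ih =>
    intro c g y hg hC hc
    -- decompose according to the last step
    have h1 : ∀ f ∈ Ext g C, (PB g f (l + 1) y).card ≤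
        ∑ z : α, if (g z = z ∧ z ≠ y ∧ f z = y) then (PB (Function.update g z y) f l z).card
          else 0 := by
      intro f hf
      have h2 : PB g f (l + 1) y ⊆ (Finset.univ : Finset α).biUnion (fun z =>
          if (g z = z ∧ z ≠ y ∧ f z = y) then (PB (Function.update g z y) f l z) else ∅) := by
        intro x hx
        rw [mem_PB] at hx
        obtain ⟨hx1, hx2⟩ := hx
        rw [Finset.mem_biUnion]
        refine ⟨f^[l] x, Finset.mem_univ _, ?_⟩
        have h3 := hx2 l (by omega)
        have h4 : f (f^[l] x) = y := by rw [← Function.iterate_succ_apply' f l x]; exact hx1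
        rw [if_pos ⟨h3.1, h3.2, h4⟩, mem_PB]
        refine ⟨rfl, ?_⟩
        intro m hm
        have h5 : f^[m] x ≠ f^[l] x := by
          intro h6
          have h7 := (hx2 (m + 1) (by omega)).2
          rw [Function.iterate_succ_apply', h6, h4] at h7
          exact h7 rfl
        refine ⟨?_, h5⟩
        rw [Function.update_of_ne h5]
        exact (hx2 m (by omega)).1
      refine (Finset.card_le_card h2).trans (Finset.card_biUnion_le.trans ?_)
      apply Finset.sum_le_sum
      intro z _
      split_ifs <;> simp
    have h2 : ∑ f ∈ Ext g C, (PB g f (l + 1) y).card ≤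
        ∑ z : α, ∑ f ∈ Ext g C, if (g z = z ∧ z ≠ y ∧ f z = y) then
          (PB (Function.update g z y) f l z).card else 0 := by
      rw [Finset.sum_comm]
      exact Finset.sum_le_sum h1
    have h3 : ∀ z : α, (∑ f ∈ Ext g C, if (g z = z ∧ z ≠ y ∧ f z = y) then
          (PB (Function.update g z y) f l z).card else 0) * N ^ (l + 1) ≤ N ^ c * n ^ l := by
      intro z
      by_cases hz : g z = z ∧ z ≠ y
      · have h4 : (∑ f ∈ Ext g C, if (g z = z ∧ z ≠ y ∧ f z = y) then
            (PB (Function.update g z y) f l z).card else 0) =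
            ∑ f ∈ (Ext g C).filter (fun f => f z ≠ z ∧ f z = y),
              (PB (Function.update g z y) f l z).card := by
          rw [Finset.sum_filter]
          apply Finset.sum_congr rfl
          intro f _
          by_cases hf : f z = y
          · rw [if_pos ⟨hz.1, hz.2, hf⟩, if_pos ⟨by rw [hf]; exact hz.2.symm, hf⟩]
          · rw [if_neg (fun h => hf h.2.2), if_neg (fun h => hf h.2)]
        rw [h4, filter_Ext_eq hg hz.1]
        split_ifs with h5
        · have hcpos : c ≠ 0 := by
            rintro rfl
            obtain ⟨r, hr⟩ := Finset.card_eq_one.mp (by simpa using hc)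
            have h6 : z ∈ fixedPts g := mem_fixedPts.mpr hz.1
            have h7 : rt g y ∈ fixedPts g := mem_fixedPts.mpr (rt_fixed hg y)
            rw [hr, Finset.mem_singleton] at h6 h7
            exact h5.2 (h7.trans h6.symm)
          obtain ⟨c', rfl⟩ := Nat.exists_eq_succ_of_ne_zero hcpos
          have hih := ih c' (Function.update g z y) z (isForest_update hg hz.1 h5.2) (by
            intro x hx
            by_cases hxz : x = z
            · subst hxz; exact absurd hz.1 (hC x hx)
            · rw [Function.update_of_ne hxz]; exact hC x hx)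
            (card_fixedPts_update hz.1 (Ne.symm hz.2) hc)
          calc (∑ f ∈ Ext (Function.update g z y) C, (PB (Function.update g z y) f l z).card) *
                N ^ (l + 1) = ((∑ f ∈ Ext (Function.update g z y) C,
                (PB (Function.update g z y) f l z).card) * N ^ l) * N := by ring
            _ ≤ (N ^ c' * n ^ l) * N := Nat.mul_le_mul_right _ hih
            _ = N ^ (c' + 1) * n ^ l := by ring
        · simp
      · have h4 : (∑ f ∈ Ext g C, if (g z = z ∧ z ≠ y ∧ f z = y) then
            (PB (Function.update g z y) f l z).card else 0) = 0 := by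
          apply Finset.sum_eq_zero
          intro f _
          rw [if_neg]
          rintro ⟨h5, h6, _⟩
          exact hz ⟨h5, h6⟩
        rw [h4, zero_mul]
        exact Nat.zero_le _
    calc (∑ f ∈ Ext g C, (PB g f (l + 1) y).card) * N ^ (l + 1)
        ≤ (∑ z : α, ∑ f ∈ Ext g C, if (g z = z ∧ z ≠ y ∧ f z = y) then
          (PB (Function.update g z y) f l z).card else 0) * N ^ (l + 1) :=
          Nat.mul_le_mul_right _ h2
      _ = ∑ z : α, (∑ f ∈ Ext g C, if (g z = z ∧ z ≠ y ∧ f z = y) then
          (PB (Function.update g z y) f l z).card else 0) * N ^ (l + 1) := Finset.sum_mul _ _ _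
      _ ≤ ∑ _z : α, N ^ c * n ^ l := Finset.sum_le_sum fun z _ => h3 z
      _ = N ^ c * n ^ (l + 1) := by
          rw [Finset.sum_const, Finset.card_univ, smul_eq_mul, ← hn]; ring

theorem PU_bound (C : Finset α) (l i : ℕ) : ∀ (c : ℕ) (g : α → α) (t : α), IsForest g →
    (∀ x ∈ C, g x ≠ x) → (fixedPts g).card = c + 1 →
    (∑ f ∈ Ext g C, (PU g f i l t).card) * (Fintype.card α - C.card) ^ (i + l) ≤
      (i + 1) * ((Fintype.card α - C.card) ^ c * Fintype.card α ^ (i + l)) := by
  classical
  set N := Fintype.card α - C.card with hN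
  set n := Fintype.card α with hn
  have hNn : N ≤ n := Nat.sub_le _ _
  induction i with
  | zero =>
    intro c g t hg hC hc
    have h1 := PB_bound C l c g t hg hC hc
    rw [Nat.zero_add, Nat.zero_add, one_mul]
    refine le_trans (Nat.mul_le_mul_right _ (Finset.sum_le_sum fun f _ => ?_)) h1
    apply Finset.card_le_card
    intro x hx
    rw [mem_PU] at hx
    rw [mem_PB]
    exact ⟨hx.1, fun m hm => ⟨(hx.2 m hm).1, (hx.2 m hm).2 0 le_rfl⟩⟩
  | succ i ih =>
    intro c g t hg hC hc
    by_cases hgt : g t = t
    · -- t is a root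
      have h1 : ∑ f ∈ Ext g C, (PU g f (i + 1) l t).card ≤
          ∑ f ∈ Ext g C, (PB g f l t).card + ∑ w : α,
            ∑ f ∈ (Ext g C).filter (fun f => f t ≠ t ∧ f t = w),
              (PU (Function.update g t w) f i l w).card := by
        have h2 : ∀ f ∈ Ext g C, (PU g f (i + 1) l t).card ≤ (PB g f l t).card +
            ∑ w : α, if (f t ≠ t ∧ f t = w) then (PU (Function.update g t w) f i l w).card
              else 0 := by
          intro f _
          by_cases hft : f t = t
          · refine le_trans (Finset.card_le_card ?_) (Nat.le_add_right _ _)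
            intro x hx
            rw [mem_PU] at hx
            rw [mem_PB]
            rw [iterate_fixed hft] at hx
            exact ⟨hx.1, fun m hm => ⟨(hx.2 m hm).1, (hx.2 m hm).2 0 (by omega)⟩⟩
          · refine le_trans ?_ (Nat.le_add_left _ _)
            rw [Finset.sum_eq_single (f t)]
            · rw [if_pos ⟨hft, rfl⟩]
              apply Finset.card_le_card
              intro x hx
              rw [mem_PU] at hx ⊢
              obtain ⟨hx1, hx2⟩ := hx
              refine ⟨hx1, ?_⟩
              intro m hm
              obtain ⟨h3, h4⟩ := hx2 m hm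
              refine ⟨?_, ?_⟩
              · have h6 : f^[m] x ≠ t := h4 0 (by omega)
                rw [Function.update_of_ne h6]
                exact h3
              · intro i' hi'
                exact h4 (i' + 1) (by omega)
            · intro w _ hw
              rw [if_neg]
              rintro ⟨_, h⟩
              exact hw h.symm
            · intro h
              exact absurd (Finset.mem_univ _) h
        refine (Finset.sum_le_sum h2).trans ?_
        rw [Finset.sum_add_distrib]
        apply Nat.add_le_add_left
        rw [Finset.sum_comm]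
        apply le_of_eq
        apply Finset.sum_congr rfl
        intro w _
        rw [Finset.sum_filter]
      have h3 : ∀ w : α, (∑ f ∈ (Ext g C).filter (fun f => f t ≠ t ∧ f t = w),
              (PU (Function.update g t w) f i l w).card) * N ^ (i + 1 + l) ≤
              (i + 1) * (N ^ c * n ^ (i + l)) := by
        intro w
        rw [filter_Ext_eq hg hgt]
        split_ifs with h5
        · have hcpos : c ≠ 0 := by
            rintro rfl
            obtain ⟨r, hr⟩ := Finset.card_eq_one.mp (by simpa using hc)
            have h6 : t ∈ fixedPts g := mem_fixedPts.mpr hgt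
            have h7 : rt g w ∈ fixedPts g := mem_fixedPts.mpr (rt_fixed hg w)
            rw [hr, Finset.mem_singleton] at h6 h7
            exact h5.2 (h7.trans h6.symm)
          have hwt : w ≠ t := by
            rintro rfl
            exact h5.2 (rt_of_fixed hgt)
          obtain ⟨c', rfl⟩ := Nat.exists_eq_succ_of_ne_zero hcpos
          have hih := ih c' (Function.update g t w) w (isForest_update hg hgt h5.2) (by
            intro x hx
            by_cases hxz : x = t
            · subst hxz; exact absurd hgt (hC x hx)
            · rw [Function.update_of_ne hxz]; exact hC x hx)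
            (card_fixedPts_update hgt hwt hc)
          calc (∑ f ∈ Ext (Function.update g t w) C, (PU (Function.update g t w) f i l w).card) *
                N ^ (i + 1 + l) = ((∑ f ∈ Ext (Function.update g t w) C,
                (PU (Function.update g t w) f i l w).card) * N ^ (i + l)) * N := by ring
            _ ≤ ((i + 1) * (N ^ c' * n ^ (i + l))) * N := Nat.mul_le_mul_right _ hih
            _ = (i + 1) * (N ^ (c' + 1) * n ^ (i + l)) := by ring
        · simp
      have h4 := PB_bound C l c g t hg hC hc
      calc (∑ f ∈ Ext g C, (PU g f (i + 1) l t).card) * N ^ (i + 1 + l)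
          ≤ (∑ f ∈ Ext g C, (PB g f l t).card + ∑ w : α,
            ∑ f ∈ (Ext g C).filter (fun f => f t ≠ t ∧ f t = w),
              (PU (Function.update g t w) f i l w).card) * N ^ (i + 1 + l) :=
            Nat.mul_le_mul_right _ h1
        _ = ((∑ f ∈ Ext g C, (PB g f l t).card) * N ^ l) * N ^ (i + 1) + ∑ w : α,
            (∑ f ∈ (Ext g C).filter (fun f => f t ≠ t ∧ f t = w),
              (PU (Function.update g t w) f i l w).card) * N ^ (i + 1 + l) := by
            rw [Nat.add_mul, Finset.sum_mul (s := (Finset.univ : Finset α))]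
            ring
        _ ≤ (N ^ c * n ^ l) * n ^ (i + 1) + ∑ _w : α, (i + 1) * (N ^ c * n ^ (i + l)) := by
            apply Nat.add_le_add
            · exact Nat.mul_le_mul h4 (Nat.pow_le_pow_left hNn _)
            · exact Finset.sum_le_sum fun w _ => h3 w
        _ = (i + 1 + 1) * (N ^ c * n ^ (i + 1 + l)) := by
            rw [Finset.sum_const, Finset.card_univ, smul_eq_mul, ← hn]
            ring
    · -- t is not a root
      have h1 : ∑ f ∈ Ext g C, (PU g f (i + 1) l t).card ≤
          ∑ f ∈ Ext g C, (PU g f i l (g t)).card := by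
        apply Finset.sum_le_sum
        intro f hf
        have hft : f t = g t := (mem_Ext.mp hf).2.1 t hgt
        apply Finset.card_le_card
        intro x hx
        rw [mem_PU] at hx ⊢
        obtain ⟨hx1, hx2⟩ := hx
        rw [Function.iterate_succ_apply, hft] at hx1
        refine ⟨hx1, ?_⟩
        intro m hm
        obtain ⟨h3, h4⟩ := hx2 m hm
        refine ⟨h3, ?_⟩
        intro i' hi'
        have := h4 (i' + 1) (by omega)
        rw [Function.iterate_succ_apply, hft] at this
        exact this
      have hih := ih c g (g t) hg hC hc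
      calc (∑ f ∈ Ext g C, (PU g f (i + 1) l t).card) * N ^ (i + 1 + l)
          ≤ (∑ f ∈ Ext g C, (PU g f i l (g t)).card) * N ^ (i + 1 + l) :=
            Nat.mul_le_mul_right _ h1
        _ = ((∑ f ∈ Ext g C, (PU g f i l (g t)).card) * N ^ (i + l)) * N := by ring
        _ ≤ ((i + 1) * (N ^ c * n ^ (i + l))) * n := Nat.mul_le_mul hih hNn
        _ = (i + 1) * (N ^ c * n ^ (i + 1 + l)) := by ring
        _ ≤ (i + 1 + 1) * (N ^ c * n ^ (i + 1 + l)) := Nat.mul_le_mul_right _ (by omega)

open Classical in
/-- vertices joined to `t` through a common ancestor at distance at most `R` from both -/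
noncomputable def UD (f : α → α) (t : α) (R : ℕ) : Finset α :=
  Finset.univ.filter (fun x => ∃ i ≤ R, ∃ j ≤ R, f^[j] x = f^[i] t)

theorem mem_UD {f : α → α} {t x : α} {R : ℕ} :
    x ∈ UD f t R ↔ ∃ i ≤ R, ∃ j ≤ R, f^[j] x = f^[i] t := by
  classical
  unfold UD
  simp only [Finset.mem_filter, Finset.mem_univ, true_and]

theorem UD_decomp (g f : α → α) (t : α) (R : ℕ) :
    (UD f t R).card ≤ ∑ l ∈ Finset.range (R + 1), (∑ y ∈ nonfix g, (PB g f l y).card +
      ∑ i ∈ Finset.range (R + 1), (PU g f i l t).card) := by
  classical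
  have h1 : UD f t R ⊆ (Finset.range (R + 1)).biUnion (fun l =>
      (nonfix g).biUnion (fun y => PB g f l y) ∪
      (Finset.range (R + 1)).biUnion (fun i => PU g f i l t)) := by
    intro x hx
    rw [mem_UD] at hx
    obtain ⟨i, hi, j, hj, hij⟩ := hx
    have hex : ∃ l, g (f^[l] x) ≠ f^[l] x ∨ ∃ i' ≤ i, f^[l] x = f^[i'] t :=
      ⟨j, Or.inr ⟨i, le_rfl, hij⟩⟩
    have h2 := Nat.find_spec hex
    have h3 : Nat.find hex ≤ j := Nat.find_min' hex (Or.inr ⟨i, le_rfl, hij⟩)
    have h4 : ∀ m < Nat.find hex, g (f^[m] x) = f^[m] x ∧ ∀ i' ≤ i, f^[m] x ≠ f^[i'] t := by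
      intro m hm
      have := Nat.find_min hex hm
      push Not at this
      exact this
    rw [Finset.mem_biUnion]
    refine ⟨Nat.find hex, by rw [Finset.mem_range]; omega, ?_⟩
    rw [Finset.mem_union]
    by_cases h5 : g (f^[Nat.find hex] x) ≠ f^[Nat.find hex] x
    · left
      rw [Finset.mem_biUnion]
      refine ⟨f^[Nat.find hex] x, mem_nonfix.mpr h5, ?_⟩
      rw [mem_PB]
      refine ⟨rfl, fun m hm => ⟨(h4 m hm).1, ?_⟩⟩
      intro h6
      rw [← h6] at h5
      exact h5 (h4 m hm).1
    · right
      rcases h2 with h2 | ⟨i', hi', h2⟩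
      · exact absurd h2 h5
      · rw [Finset.mem_biUnion]
        refine ⟨i', by rw [Finset.mem_range]; omega, ?_⟩
        rw [mem_PU]
        refine ⟨h2, fun m hm => ⟨(h4 m hm).1, fun i'' hi'' => (h4 m hm).2 i'' (by omega)⟩⟩
  refine (Finset.card_le_card h1).trans (Finset.card_biUnion_le.trans ?_)
  apply Finset.sum_le_sum
  intro l _
  refine (Finset.card_union_le _ _).trans ?_
  exact Nat.add_le_add Finset.card_biUnion_le Finset.card_biUnion_le

theorem UD_bound (C : Finset α) (c : ℕ) (g : α → α) (t : α) (R : ℕ) (hg : IsForest g)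
    (hC : ∀ x ∈ C, g x ≠ x) (hc : (fixedPts g).card = c + 1) :
    (∑ f ∈ Ext g C, (UD f t R).card) * (Fintype.card α - C.card) ^ (2 * R) ≤
      (R + 1) * ((nonfix g).card + (R + 1) * (R + 1)) *
        ((Fintype.card α - C.card) ^ c * Fintype.card α ^ (2 * R)) := by
  classical
  set N := Fintype.card α - C.card with hN
  set n := Fintype.card α with hn
  have hNn : N ≤ n := Nat.sub_le _ _
  have h1 : ∑ f ∈ Ext g C, (UD f t R).card ≤ ∑ l ∈ Finset.range (R + 1),
      (∑ y ∈ nonfix g, ∑ f ∈ Ext g C, (PB g f l y).card +
      ∑ i ∈ Finset.range (R + 1), ∑ f ∈ Ext g C, (PU g f i l t).card) := by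
    calc ∑ f ∈ Ext g C, (UD f t R).card ≤ ∑ f ∈ Ext g C, ∑ l ∈ Finset.range (R + 1),
          (∑ y ∈ nonfix g, (PB g f l y).card + ∑ i ∈ Finset.range (R + 1), (PU g f i l t).card) :=
          Finset.sum_le_sum fun f _ => UD_decomp g f t R
      _ = _ := by
          rw [Finset.sum_comm]
          apply Finset.sum_congr rfl
          intro l _
          rw [Finset.sum_add_distrib]
          congr 1
          · rw [Finset.sum_comm]
          · rw [Finset.sum_comm]
  have h2 : ∀ l ∈ Finset.range (R + 1), (∑ y ∈ nonfix g, ∑ f ∈ Ext g C, (PB g f l y).card +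
      ∑ i ∈ Finset.range (R + 1), ∑ f ∈ Ext g C, (PU g f i l t).card) * N ^ (2 * R) ≤
      ((nonfix g).card + (R + 1) * (R + 1)) * (N ^ c * n ^ (2 * R)) := by
    intro l hl
    rw [Finset.mem_range] at hl
    rw [Nat.add_mul, Nat.add_mul]
    apply Nat.add_le_add
    · rw [Finset.sum_mul]
      calc ∑ y ∈ nonfix g, (∑ f ∈ Ext g C, (PB g f l y).card) * N ^ (2 * R)
          ≤ ∑ _y ∈ nonfix g, N ^ c * n ^ (2 * R) := by
            apply Finset.sum_le_sum
            intro y _
            have h3 := PB_bound C l c g y hg hC hc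
            rw [← hN, ← hn] at h3
            calc (∑ f ∈ Ext g C, (PB g f l y).card) * N ^ (2 * R)
                = ((∑ f ∈ Ext g C, (PB g f l y).card) * N ^ l) * N ^ (2 * R - l) := by
                  rw [Nat.mul_assoc, ← pow_add]
                  congr 2; omega
              _ ≤ (N ^ c * n ^ l) * n ^ (2 * R - l) :=
                  Nat.mul_le_mul h3 (Nat.pow_le_pow_left hNn _)
              _ = N ^ c * n ^ (2 * R) := by
                  rw [Nat.mul_assoc, ← pow_add]
                  congr 2; omega
        _ = _ := by rw [Finset.sum_const, smul_eq_mul]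
    · rw [Finset.sum_mul]
      calc ∑ i ∈ Finset.range (R + 1), (∑ f ∈ Ext g C, (PU g f i l t).card) * N ^ (2 * R)
          ≤ ∑ _i ∈ Finset.range (R + 1), (R + 1) * (N ^ c * n ^ (2 * R)) := by
            apply Finset.sum_le_sum
            intro i hi
            rw [Finset.mem_range] at hi
            have h3 := PU_bound C l i c g t hg hC hc
            rw [← hN, ← hn] at h3
            calc (∑ f ∈ Ext g C, (PU g f i l t).card) * N ^ (2 * R)
                = ((∑ f ∈ Ext g C, (PU g f i l t).card) * N ^ (i + l)) * N ^ (2 * R - (i + l)) := by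
                  rw [Nat.mul_assoc, ← pow_add]
                  congr 2; omega
              _ ≤ ((i + 1) * (N ^ c * n ^ (i + l))) * n ^ (2 * R - (i + l)) :=
                  Nat.mul_le_mul h3 (Nat.pow_le_pow_left hNn _)
              _ = (i + 1) * (N ^ c * n ^ (2 * R)) := by
                  rw [Nat.mul_assoc, Nat.mul_assoc, ← pow_add]
                  congr 3; omega
              _ ≤ (R + 1) * (N ^ c * n ^ (2 * R)) := Nat.mul_le_mul_right _ (by omega)
        _ = _ := by rw [Finset.sum_const, smul_eq_mul, Finset.card_range]; ring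
  calc (∑ f ∈ Ext g C, (UD f t R).card) * N ^ (2 * R)
      ≤ (∑ l ∈ Finset.range (R + 1), (∑ y ∈ nonfix g, ∑ f ∈ Ext g C, (PB g f l y).card +
      ∑ i ∈ Finset.range (R + 1), ∑ f ∈ Ext g C, (PU g f i l t).card)) * N ^ (2 * R) :=
        Nat.mul_le_mul_right _ h1
    _ ≤ ∑ _l ∈ Finset.range (R + 1),
        ((nonfix g).card + (R + 1) * (R + 1)) * (N ^ c * n ^ (2 * R)) := by
        rw [Finset.sum_mul]
        exact Finset.sum_le_sum h2
    _ = _ := by rw [Finset.sum_const, smul_eq_mul, Finset.card_range]; ring

end

end Pool.Agent.Work.MP_2709b3_lc
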