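import Pool.Agent.Work.MP_2709b3_lc.Gadget

set_option autoImplicit false

namespace Pool.Agent.Work.MP_2709b3_lc

/-- directed path with `a` arcs (not necessarily injective) -/
def IsDir {α : Type*} (E : α → α → Bool) (a : ℕ) (A : ℕ → α) : Prop :=
  ∀ i < a, E (A i) (A (i + 1)) = true

/-- direction word of the spine -/
def wS (a i : ℕ) : Bool := decide (i ≠ a)

/-- the spine: `a` forward arcs, one backward arc, then forward arcs. -/
structure IsSpine {α : Type*} (E : α → α → Bool) (a k : ℕ) (p : ℕ → α) : Prop where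
  arc : ∀ i < k, (if wS a i then E (p i) (p (i + 1)) else E (p (i + 1)) (p i)) = true
  inj : ∀ i ≤ k, ∀ j ≤ k, p i = p j → i = j

/-- two disjoint directed paths with `a` arcs starting on the same level -/
def BadN1 {α : Type*} (E : α → α → Bool) (a : ℕ) : Prop :=
  ∃ (l : α → ℤ) (A A' : ℕ → α), IsLevel E l ∧ IsDir E a A ∧ IsDir E a A' ∧ l (A 0) = l (A' 0) ∧
    ∀ i ≤ a, ∀ j ≤ a, A i ≠ A' j

/-- a spine and a disjoint directed path with `c'` arcs nearby -/
def BadN2 {α : Type*} (E : α → α → Bool) (a k c' : ℕ) : Prop :=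
  ∃ (p R w : ℕ → α) (D : ℕ), IsSpine E a k p ∧ IsDir E c' R ∧ (∀ i ≤ k, ∀ j ≤ c', p i ≠ R j) ∧
    D ≤ k ∧ (∃ i ≤ k, w 0 = p i) ∧ (∃ j ≤ c', w D = R j) ∧ ∀ t < D, Adj E (w t) (w (t + 1))

section
variable {α : Type*} {E : α → α → Bool}

theorem IsSpine.adj {a k : ℕ} {p : ℕ → α} (hp : IsSpine E a k p) :
    ∀ i < k, Adj E (p i) (p (i + 1)) := by
  intro i hi
  have := hp.arc i hi
  split_ifs at this
  · exact Or.inl this
  · exact Or.inr this

theorem IsSpine.level1 {a k : ℕ} {p : ℕ → α} (hp : IsSpine E a k p) {l : α → ℤ}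
    (hl : IsLevel E l) (hak : a < k) : ∀ i ≤ a, l (p i) = l (p 0) + i := by
  intro i
  induction i with
  | zero => intro _; simp
  | succ i ih =>
    intro hi
    have h1 := hp.arc i (by omega)
    rw [if_pos (by unfold wS; simp; omega)] at h1
    rw [hl _ _ h1, ih (by omega)]
    push_cast; ring

theorem IsSpine.level2 {a k : ℕ} {p : ℕ → α} (hp : IsSpine E a k p) {l : α → ℤ}
    (hl : IsLevel E l) (hak : a < k) : ∀ i, a + 1 + i ≤ k → l (p (a + 1 + i)) =
      l (p 0) + a - 1 + i := by
  intro i
  induction i with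
  | zero =>
    intro _
    have h1 := hp.arc a hak
    rw [if_neg (by unfold wS; simp)] at h1
    have h2 := hl _ _ h1
    have h3 := hp.level1 hl hak a le_rfl
    simp only [add_zero, Nat.cast_zero]
    omega
  | succ i ih =>
    intro hi
    have h1 := hp.arc (a + 1 + i) (by omega)
    rw [if_pos (by unfold wS; simp; omega)] at h1
    rw [show a + 1 + (i + 1) = a + 1 + i + 1 by ring, hl _ _ h1, ih (by omega)]
    push_cast; ring

/-- The deterministic part: a closed gadget on the peak of a spine, together with the uniqueness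
properties, excludes Siggers polymorphisms. -/
theorem no_siggers_of_good [Finite α] (hE : IsOT E) {a k c : ℕ} {p κ : ℕ → α}
    (hp : IsSpine E a k p) (hκ : IsGadget E κ) (hκ0 : κ 0 = p a) (hk : k = a + 1 + c)
    (hc : 2 ≤ c) (h1 : ¬ BadN1 E a) (h2 : ¬ BadN2 E a k (c - 2)) :
    ¬ ∃ s : α → α → α → α → α, (∀ a r e, s a r e a = s r a r e) ∧
      ∀ x₁ x₂ x₃ x₄ y₁ y₂ y₃ y₄ : α,
      E x₁ y₁ = true → E x₂ y₂ = true → E x₃ y₃ = true → E x₄ y₄ = true →
      E (s x₁ x₂ x₃ x₄) (s y₁ y₂ y₃ y₄) = true := by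
  rintro ⟨s, hsig, hs⟩
  set e : α → α := fun x => s x x x x with he
  have heE : IsEnd E e := fun x y hxy => hs _ _ _ _ _ _ _ _ hxy hxy hxy hxy
  obtain ⟨l, hl⟩ := exists_level hE
  have hel := fun x => heE.level hE hl x
  have hak : a < k := by omega
  -- a fixed vertex on the first part
  have hx : ∃ x ≤ a, e (p x) = p x := by
    by_contra hcon
    push Not at hcon
    apply h1
    refine ⟨l, p, fun i => e (p i), hl, ?_, ?_, ?_, ?_⟩
    · intro i hi
      have h3 := hp.arc i (by omega)
      rw [if_pos (by unfold wS; simp; omega)] at h3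
      exact h3
    · intro i hi
      have h3 := hp.arc i (by omega)
      rw [if_pos (by unfold wS; simp; omega)] at h3
      exact heE _ _ h3
    · exact (hel _).symm
    · intro i hi j hj hij
      have h3 : l (p i) = l (p j) := by rw [hij, hel]
      rw [hp.level1 hl hak i hi, hp.level1 hl hak j hj] at h3
      have h4 : i = j := by omega
      subst h4
      exact hcon i hi hij.symm
  obtain ⟨x, hxa, hx⟩ := hx
  -- a fixed vertex on the last part
  have hy : ∃ y, a ≤ y ∧ y ≤ k ∧ e (p y) = p y := by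
    by_contra hcon
    push Not at hcon
    apply h2
    refine ⟨p, fun i => e (p (a + 3 + i)), fun t => e (p (x + t)), a + 3 - x, hp, ?_, ?_, ?_, ?_,
      ?_, ?_⟩
    · intro i hi
      have h3 := hp.arc (a + 3 + i) (by omega)
      rw [if_pos (by unfold wS; simp; omega)] at h3
      exact heE _ _ h3
    · intro i hi j hj hij
      have h3 : l (p i) = l (p (a + 3 + j)) := by rw [hij, hel]
      rw [show a + 3 + j = a + 1 + (j + 2) by ring, hp.level2 hl hak (j + 2) (by omega)] at h3
      rcases Nat.lt_or_ge a i with hi' | hi'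
      · obtain ⟨m, hm⟩ := Nat.exists_eq_add_of_le (show a + 1 ≤ i by omega)
        rw [hm, hp.level2 hl hak m (by omega)] at h3
        have h4 : m = j + 2 := by push_cast at h3; omega
        rw [hm, h4, show a + 1 + (j + 2) = a + 3 + j by ring] at hij
        exact hcon (a + 3 + j) (by omega) (by omega) hij.symm
      · rw [hp.level1 hl hak i hi'] at h3
        push_cast at h3
        omega
    · omega
    · exact ⟨x, by omega, by simpa using hx⟩
    · refine ⟨0, by omega, ?_⟩
      simp only [add_zero]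
      congr 2
      omega
    · intro t ht
      rcases hp.adj (x + t) (by omega) with h3 | h3
      · exact Or.inl (heE _ _ h3)
      · exact Or.inr (heE _ _ h3)
  obtain ⟨y, hay, hyk, hy⟩ := hy
  have hfix : e (p a) = p a := end_fixes_between hE heE hp.adj hp.inj hxa hay hyk hx hy
  apply gadget_no_siggers hκ hs ?_ hsig
  rw [hκ0]
  exact hfix

end

end Pool.Agent.Work.MP_2709b3_lc
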