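import Pool.Agent.Work.MP_2709b3_lc.Shape

set_option autoImplicit false

namespace Pool.Agent.Work.MP_2709b3_lc

/-- extend a finite word -/
def extW {N : ℕ} (o : Fin N → Bool) (t : ℕ) : Bool := if h : t < N then o ⟨t, h⟩ else false

/-- net length of a word -/
def net {N : ℕ} (o : Fin N → Bool) : ℤ := ∑ t, (if o t then 1 else -1)

/-- an embedded H-shape -/
def HEv {α : Type*} (E : α → α → Bool) (p₁ p₂ d i j : ℕ) (w₁ w₂ : ℕ → Bool)
    (o : Fin (d + 1) → Bool) : Prop :=
  ∃ φ : HV p₁ p₂ d ↪ α, Pat E φ (hπ p₁ p₂ d i j) (Sum.inl (cl p₁ i))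
    (hb p₁ p₂ d i j w₁ w₂ (extW o))

section
variable {α : Type*} {E : α → α → Bool}

theorem exists_HEv {p₁ p₂ : ℕ} {P P' w : ℕ → α} {D : ℕ}
    {w₁ w₂ : ℕ → Bool}
    (hP : ∀ i ≤ p₁, ∀ j ≤ p₁, P i = P j → i = j)
    (hP' : ∀ i ≤ p₂, ∀ j ≤ p₂, P' i = P' j → i = j)
    (hPP' : ∀ i ≤ p₁, ∀ j ≤ p₂, P i ≠ P' j)
    (h1 : ∀ t < p₁, (if w₁ t then E (P t) (P (t + 1)) else E (P (t + 1)) (P t)) = true)
    (h2 : ∀ t < p₂, (if w₂ t then E (P' t) (P' (t + 1)) else E (P' (t + 1)) (P' t)) = true)
    (hw0 : ∃ i ≤ p₁, w 0 = P i) (hwD : ∃ j ≤ p₂, w D = P' j)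
    (hw : ∀ t < D, Adj E (w t) (w (t + 1))) :
    ∃ i ≤ p₁, ∃ j ≤ p₂, ∃ d, d + 1 ≤ D ∧ ∃ o : Fin (d + 1) → Bool,
      HEv E p₁ p₂ d i j w₁ w₂ o ∧
      ∀ l : α → ℤ, IsLevel E l → l (P' j) - l (P i) = net o := by
  classical
  set S : Set α := {x | ∃ i ≤ p₁, x = P i} with hS
  set R : Set α := {x | ∃ j ≤ p₂, x = P' j} with hR
  have hSR : Disjoint S R := by
    rw [Set.disjoint_left]
    rintro x ⟨i, hi, rfl⟩ ⟨j, hj, h⟩
    exact hPP' i hi j hj h
  obtain ⟨d, hd, v, hv0, hv1, hvA, hvS, hvR, hvinj⟩ := exists_connection hSR (A := Adj E)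
    (w := w) (D := D) hw0 hwD hw
  obtain ⟨i, hi, hv0⟩ := hv0
  obtain ⟨j, hj, hv1⟩ := hv1
  set o : Fin (d + 1) → Bool := fun t => E (v t.val) (v (t.val + 1)) with ho
  have ho' : ∀ t ≤ d, extW o t = E (v t) (v (t + 1)) := by
    intro t ht
    unfold extW
    rw [dif_pos (by omega)]
  refine ⟨i, hi, j, hj, d, hd, o, ?_, ?_⟩
  · refine ⟨⟨hφ p₁ p₂ d P P' v, hφ_inj hP hP' hPP' hvinj ?_ ?_⟩, ?_⟩
    · intro t ht ht0 i' hi' h
      exact hvS t ht ht0 ⟨i', hi', h⟩
    · intro t ht i' hi' h
      exact hvR t ht ⟨i', hi', h⟩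
    · apply hφ_pat hi hj h1 h2 ?_ hv0 hv1
      intro t ht
      rw [ho' t ht]
      rcases hvA t ht with h | h
      · rw [if_pos h]; exact h
      · split_ifs with h'
        · exact h'
        · exact h
  · intro l hl
    have hstep : ∀ t ≤ d, l (v (t + 1)) = l (v t) + (if o (Fin.ofNat (d + 1) t) then 1 else -1) := by
      intro t ht
      have h3 : (Fin.ofNat (d + 1) t).val = t := by
        simp only [Fin.ofNat]
        exact Nat.mod_eq_of_lt (by omega)
      have h4 : o (Fin.ofNat (d + 1) t) = E (v t) (v (t + 1)) := by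
        simp only [ho]
        rw [h3]
      rw [h4]
      rcases hvA t ht with h | h
      · rw [if_pos h]; exact hl _ _ h
      · split_ifs with h'
        · exact hl _ _ h'
        · rw [hl _ _ h]; ring
    have hsum : ∀ m ≤ d + 1, l (v m) - l (v 0) =
        ∑ t ∈ Finset.range m, (if o (Fin.ofNat (d + 1) t) then (1 : ℤ) else -1) := by
      intro m
      induction m with
      | zero => intro _; simp
      | succ m ih =>
        intro hm
        rw [Finset.sum_range_succ, ← ih (by omega), hstep m (by omega)]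
        ring
    have h5 := hsum (d + 1) le_rfl
    rw [hv0, hv1] at h5
    rw [h5]
    unfold net
    rw [Finset.sum_range]
    apply Finset.sum_congr rfl
    intro t _
    have : Fin.ofNat (d + 1) t.val = t := by
      apply Fin.ext
      simp only [Fin.ofNat]
      exact Nat.mod_eq_of_lt t.isLt
    rw [this]

theorem IsDir.level {a : ℕ} {A : ℕ → α} (hA : IsDir E a A) {l : α → ℤ} (hl : IsLevel E l) :
    ∀ i ≤ a, l (A i) = l (A 0) + i := by
  intro i
  induction i with
  | zero => intro _; simp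
  | succ i ih =>
    intro hi
    rw [hl _ _ (hA i (by omega)), ih (by omega)]
    push_cast; ring

theorem IsDir.inj {a : ℕ} {A : ℕ → α} (hA : IsDir E a A) {l : α → ℤ} (hl : IsLevel E l) :
    ∀ i ≤ a, ∀ j ≤ a, A i = A j → i = j := by
  intro i hi j hj h
  have h1 := hA.level hl i hi
  have h2 := hA.level hl j hj
  rw [h] at h1
  omega

theorem exists_walk [Finite α] (hE : IsOT E) (x y : α) :
    ∃ D, ∃ w : ℕ → α, w 0 = x ∧ w D = y ∧ ∀ t < D, Adj E (w t) (w (t + 1)) := by
  classical
  obtain ⟨f, hr, hf⟩ := exists_parent hE y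
  have hex := hr.2 x
  refine ⟨Nat.find hex, fun t => f^[t] x, rfl, Nat.find_spec hex, ?_⟩
  intro t ht
  have h1 : f^[t] x ≠ y := Nat.find_min hex ht
  have h2 : f (f^[t] x) ≠ f^[t] x := fun h => h1 (hr.unique h)
  simp only
  rw [Function.iterate_succ_apply']
  exact (hf _ _).mpr ⟨fun h => h2 h.symm, Or.inl rfl⟩

theorem BadN1.exists_HEv [Fintype α] (hE : IsOT E) {a : ℕ} (h : BadN1 E a) :
    ∃ i ∈ Finset.range (a + 1), ∃ j ∈ Finset.range (a + 1),
      ∃ d ∈ Finset.range (Fintype.card α), ∃ o : Fin (d + 1) → Bool,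
      net o = (j : ℤ) - i ∧ HEv E a a d i j (fun _ => true) (fun _ => true) o := by
  obtain ⟨l, A, A', hl, hA, hA', hl0, hdis⟩ := h
  obtain ⟨D, w, hw0, hwD, hw⟩ := exists_walk hE (A 0) (A' 0)
  obtain ⟨i, hi, j, hj, d, hd, o, hev, hnet⟩ := Pool.Agent.Work.MP_2709b3_lc.exists_HEv
    (w₁ := fun _ => true) (w₂ := fun _ => true)
    (hA.inj hl) (hA'.inj hl) hdis (fun t ht => by simpa using hA t ht)
    (fun t ht => by simpa using hA' t ht) ⟨0, by omega, hw0⟩ ⟨0, by omega, hwD⟩ hw
  refine ⟨i, by simp; omega, j, by simp; omega, d, ?_, o, ?_, hev⟩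
  · obtain ⟨φ, _⟩ := hev
    have h1 := Fintype.card_le_of_injective φ φ.injective
    rw [card_HV] at h1
    rw [Finset.mem_range]
    omega
  · rw [← hnet l hl, hA.level hl i hi, hA'.level hl j hj, hl0]
    ring

theorem BadN2.exists_HEv {a k c' : ℕ} [Fintype α] (hE : IsOT E) (h : BadN2 E a k c') :
    ∃ i ∈ Finset.range (k + 1), ∃ j ∈ Finset.range (c' + 1),
      ∃ d ∈ Finset.range k, ∃ o : Fin (d + 1) → Bool,
      HEv E k c' d i j (wS a) (fun _ => true) o := by
  obtain ⟨p, R, w, D, hp, hR, hdis, hD, hw0, hwD, hw⟩ := h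
  obtain ⟨l, hl⟩ := exists_level hE
  obtain ⟨i, hi, j, hj, d, hd, o, hev, _⟩ := Pool.Agent.Work.MP_2709b3_lc.exists_HEv
    (w₁ := wS a) (w₂ := fun _ => true)
    hp.inj (hR.inj hl) hdis hp.arc
    (fun t ht => by simpa using hR t ht) hw0 hwD hw
  exact ⟨i, by simp; omega, j, by simp; omega, d, by simp; omega, o, hev⟩

end

/-- words with a given net length -/
theorem card_net_le (N : ℕ) (s : ℤ) :
    (Finset.univ.filter (fun o : Fin N → Bool => net o = s)).card ≤ N.choose (N / 2) := by
  classical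
  have hnet : ∀ o : Fin N → Bool, net o = 2 * ((Finset.univ.filter (fun t => o t = true)).card : ℤ)
      - N := by
    intro o
    unfold net
    have h1 : ∀ t : Fin N, (if o t = true then (1 : ℤ) else -1) =
        2 * (if o t = true then 1 else 0) - 1 := by
      intro t; split_ifs <;> norm_num
    rw [Finset.sum_congr rfl (fun t _ => h1 t), Finset.sum_sub_distrib, ← Finset.mul_sum,
      Finset.sum_boole]
    simp
  by_cases hne : ∃ o : Fin N → Bool, net o = s
  · obtain ⟨o₀, ho₀⟩ := hne
    set T := (Finset.univ.filter (fun t => o₀ t = true)).card with hT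
    have h2 : (Finset.univ.filter (fun o : Fin N → Bool => net o = s)).card ≤
        (Finset.powersetCard T (Finset.univ : Finset (Fin N))).card := by
      apply Finset.card_le_card_of_injOn (fun o => Finset.univ.filter (fun t => o t = true))
      · intro o ho
        rw [Finset.mem_coe, Finset.mem_filter] at ho
        rw [Finset.mem_coe, Finset.mem_powersetCard]
        refine ⟨Finset.filter_subset _ _, ?_⟩
        have h3 := hnet o
        have h4 := hnet o₀
        rw [ho.2] at h3
        rw [ho₀, ← hT] at h4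
        show (Finset.univ.filter (fun t => o t = true)).card = T
        omega
      · intro o _ o' _ h
        funext t
        have h3 : t ∈ Finset.univ.filter (fun t => o t = true) ↔
            t ∈ Finset.univ.filter (fun t => o' t = true) := by
          simp only at h
          rw [h]
        simp only [Finset.mem_filter, Finset.mem_univ, true_and] at h3
        cases h4 : o t <;> cases h5 : o' t
        · rfl
        · rw [h4, h5] at h3; simp at h3
        · rw [h4, h5] at h3; simp at h3
        · rfl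
    rw [Finset.card_powersetCard, Finset.card_univ, Fintype.card_fin] at h2
    exact h2.trans (Nat.choose_le_middle _ _)
  · have : (Finset.univ.filter (fun o : Fin N → Bool => net o = s)) = ∅ := by
      rw [Finset.filter_eq_empty_iff]
      intro o _ h
      exact hne ⟨o, h⟩
    rw [this]
    simp

/-- the bound for one H-shape, times `n` -/
def hbound (n m : ℕ) : ℕ := n.descFactorial m * (m * n ^ (n - m) * 2 ^ (n - m))

open Classical in
theorem card_HEv {α : Type*} [Fintype α] {p₁ p₂ d i j : ℕ} (hi : i ≤ p₁) (hj : j ≤ p₂)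
    (w₁ w₂ : ℕ → Bool) (o : Fin (d + 1) → Bool) :
    ((OTs α).filter (fun E => HEv E p₁ p₂ d i j w₁ w₂ o)).card * Fintype.card α ≤
      hbound (Fintype.card α) (p₁ + 1 + (p₂ + 1 + d)) := by
  have h1 := card_exists_pattern (α := α) (h_isRTr (d := d) hi hj)
    (hb p₁ p₂ d i j w₁ w₂ (extW o))
  rw [card_HV] at h1
  have h2 : ((OTs α).filter (fun E => HEv E p₁ p₂ d i j w₁ w₂ o)) ⊆
      ((OTs α).filter (fun E => ∃ φ : HV p₁ p₂ d ↪ α, Pat E φ (hπ p₁ p₂ d i j)
        (Sum.inl (cl p₁ i)) (hb p₁ p₂ d i j w₁ w₂ (extW o)))) := by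
    intro E hE
    rw [Finset.mem_filter] at hE ⊢
    exact hE
  unfold hbound
  exact (Nat.mul_le_mul_right _ (Finset.card_le_card h2)).trans h1

open Classical in
theorem card_BadN1 {α : Type*} [Fintype α] (a : ℕ) :
    ((OTs α).filter (fun E => BadN1 E a)).card * Fintype.card α ≤
      (a + 1) * ((a + 1) * ∑ d ∈ Finset.range (Fintype.card α),
        (d + 1).choose ((d + 1) / 2) * hbound (Fintype.card α) (a + 1 + (a + 1 + d))) := by
  have h1 : (OTs α).filter (fun E => BadN1 E a) ⊆
      (Finset.range (a + 1)).biUnion (fun i => (Finset.range (a + 1)).biUnion (fun j =>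
        (Finset.range (Fintype.card α)).biUnion (fun d =>
          (Finset.univ.filter (fun o : Fin (d + 1) → Bool => net o = (j : ℤ) - i)).biUnion
            (fun o => (OTs α).filter (fun E => HEv E a a d i j (fun _ => true)
              (fun _ => true) o))))) := by
    intro E hE
    rw [Finset.mem_filter, mem_OTs] at hE
    obtain ⟨i, hi, j, hj, d, hd, o, ho, hev⟩ := hE.2.exists_HEv hE.1
    simp only [Finset.mem_biUnion]
    exact ⟨i, hi, j, hj, d, hd, o, Finset.mem_filter.mpr ⟨Finset.mem_univ _, ho⟩,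
      Finset.mem_filter.mpr ⟨mem_OTs.mpr hE.1, hev⟩⟩
  have h2 : ((OTs α).filter (fun E => BadN1 E a)).card ≤
      ∑ i ∈ Finset.range (a + 1), ∑ j ∈ Finset.range (a + 1),
        ∑ d ∈ Finset.range (Fintype.card α),
          ∑ o ∈ Finset.univ.filter (fun o : Fin (d + 1) → Bool => net o = (j : ℤ) - i),
            ((OTs α).filter (fun E => HEv E a a d i j (fun _ => true) (fun _ => true) o)).card := by
    refine (Finset.card_le_card h1).trans ?_
    refine Finset.card_biUnion_le.trans (Finset.sum_le_sum fun i _ => ?_)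
    refine Finset.card_biUnion_le.trans (Finset.sum_le_sum fun j _ => ?_)
    refine Finset.card_biUnion_le.trans (Finset.sum_le_sum fun d _ => ?_)
    exact Finset.card_biUnion_le
  refine (Nat.mul_le_mul_right _ h2).trans ?_
  have h3 : ∀ i ∈ Finset.range (a + 1), ∀ j ∈ Finset.range (a + 1),
      ∀ d ∈ Finset.range (Fintype.card α),
      (∑ o ∈ Finset.univ.filter (fun o : Fin (d + 1) → Bool => net o = (j : ℤ) - i),
        ((OTs α).filter (fun E => HEv E a a d i j (fun _ => true) (fun _ => true) o)).card) *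
          Fintype.card α ≤
      (d + 1).choose ((d + 1) / 2) * hbound (Fintype.card α) (a + 1 + (a + 1 + d)) := by
    intro i hi j hj d _
    rw [Finset.mem_range] at hi hj
    rw [Finset.sum_mul]
    refine (Finset.sum_le_sum fun o _ => card_HEv (by omega) (by omega) _ _ o).trans ?_
    rw [Finset.sum_const, smul_eq_mul]
    exact Nat.mul_le_mul_right _ (card_net_le _ _)
  rw [Finset.sum_mul]
  have h4 : ∀ i ∈ Finset.range (a + 1), (∑ j ∈ Finset.range (a + 1),
        ∑ d ∈ Finset.range (Fintype.card α),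
          ∑ o ∈ Finset.univ.filter (fun o : Fin (d + 1) → Bool => net o = (j : ℤ) - i),
            ((OTs α).filter (fun E => HEv E a a d i j (fun _ => true) (fun _ => true) o)).card) *
      Fintype.card α ≤ (a + 1) * ∑ d ∈ Finset.range (Fintype.card α),
        (d + 1).choose ((d + 1) / 2) * hbound (Fintype.card α) (a + 1 + (a + 1 + d)) := by
    intro i hi
    rw [Finset.sum_mul]
    have h5 : ∀ j ∈ Finset.range (a + 1), (∑ d ∈ Finset.range (Fintype.card α),
          ∑ o ∈ Finset.univ.filter (fun o : Fin (d + 1) → Bool => net o = (j : ℤ) - i),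
            ((OTs α).filter (fun E => HEv E a a d i j (fun _ => true) (fun _ => true) o)).card) *
      Fintype.card α ≤ ∑ d ∈ Finset.range (Fintype.card α),
        (d + 1).choose ((d + 1) / 2) * hbound (Fintype.card α) (a + 1 + (a + 1 + d)) := by
      intro j hj
      rw [Finset.sum_mul]
      exact Finset.sum_le_sum fun d hd => h3 i hi j hj d hd
    refine (Finset.sum_le_sum h5).trans ?_
    rw [Finset.sum_const, smul_eq_mul, Finset.card_range]
  refine (Finset.sum_le_sum h4).trans ?_
  rw [Finset.sum_const, smul_eq_mul, Finset.card_range]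

open Classical in
theorem card_BadN2 {α : Type*} [Fintype α] (a k c' : ℕ) :
    ((OTs α).filter (fun E => BadN2 E a k c')).card * Fintype.card α ≤
      (k + 1) * ((c' + 1) * ∑ d ∈ Finset.range k,
        2 ^ (d + 1) * hbound (Fintype.card α) (k + 1 + (c' + 1 + d))) := by
  have h1 : (OTs α).filter (fun E => BadN2 E a k c') ⊆
      (Finset.range (k + 1)).biUnion (fun i => (Finset.range (c' + 1)).biUnion (fun j =>
        (Finset.range k).biUnion (fun d =>
          (Finset.univ : Finset (Fin (d + 1) → Bool)).biUnion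
            (fun o => (OTs α).filter (fun E => HEv E k c' d i j (wS a)
              (fun _ => true) o))))) := by
    intro E hE
    rw [Finset.mem_filter, mem_OTs] at hE
    obtain ⟨i, hi, j, hj, d, hd, o, hev⟩ := hE.2.exists_HEv hE.1
    simp only [Finset.mem_biUnion]
    exact ⟨i, hi, j, hj, d, hd, o, Finset.mem_univ _,
      Finset.mem_filter.mpr ⟨mem_OTs.mpr hE.1, hev⟩⟩
  have h2 : ((OTs α).filter (fun E => BadN2 E a k c')).card ≤
      ∑ i ∈ Finset.range (k + 1), ∑ j ∈ Finset.range (c' + 1),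
        ∑ d ∈ Finset.range k,
          ∑ o : Fin (d + 1) → Bool,
            ((OTs α).filter (fun E => HEv E k c' d i j (wS a) (fun _ => true) o)).card := by
    refine (Finset.card_le_card h1).trans ?_
    refine Finset.card_biUnion_le.trans (Finset.sum_le_sum fun i _ => ?_)
    refine Finset.card_biUnion_le.trans (Finset.sum_le_sum fun j _ => ?_)
    refine Finset.card_biUnion_le.trans (Finset.sum_le_sum fun d _ => ?_)
    exact Finset.card_biUnion_le
  refine (Nat.mul_le_mul_right _ h2).trans ?_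
  have h3 : ∀ i ∈ Finset.range (k + 1), ∀ j ∈ Finset.range (c' + 1),
      ∀ d ∈ Finset.range k,
      (∑ o : Fin (d + 1) → Bool,
        ((OTs α).filter (fun E => HEv E k c' d i j (wS a) (fun _ => true) o)).card) *
          Fintype.card α ≤
      2 ^ (d + 1) * hbound (Fintype.card α) (k + 1 + (c' + 1 + d)) := by
    intro i hi j hj d _
    rw [Finset.mem_range] at hi hj
    rw [Finset.sum_mul]
    refine (Finset.sum_le_sum fun o _ => card_HEv (by omega) (by omega) _ _ o).trans ?_
    rw [Finset.sum_const, smul_eq_mul, Finset.card_univ, Fintype.card_fun, Fintype.card_fin,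
      Fintype.card_bool]
  rw [Finset.sum_mul]
  have h4 : ∀ i ∈ Finset.range (k + 1), (∑ j ∈ Finset.range (c' + 1),
        ∑ d ∈ Finset.range k, ∑ o : Fin (d + 1) → Bool,
            ((OTs α).filter (fun E => HEv E k c' d i j (wS a) (fun _ => true) o)).card) *
      Fintype.card α ≤ (c' + 1) * ∑ d ∈ Finset.range k,
        2 ^ (d + 1) * hbound (Fintype.card α) (k + 1 + (c' + 1 + d)) := by
    intro i hi
    rw [Finset.sum_mul]
    have h5 : ∀ j ∈ Finset.range (c' + 1), (∑ d ∈ Finset.range k, ∑ o : Fin (d + 1) → Bool,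
            ((OTs α).filter (fun E => HEv E k c' d i j (wS a) (fun _ => true) o)).card) *
      Fintype.card α ≤ ∑ d ∈ Finset.range k,
        2 ^ (d + 1) * hbound (Fintype.card α) (k + 1 + (c' + 1 + d)) := by
      intro j hj
      rw [Finset.sum_mul]
      exact Finset.sum_le_sum fun d hd => h3 i hi j hj d hd
    refine (Finset.sum_le_sum h5).trans ?_
    rw [Finset.sum_const, smul_eq_mul, Finset.card_range]
  refine (Finset.sum_le_sum h4).trans ?_
  rw [Finset.sum_const, smul_eq_mul, Finset.card_range]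

end Pool.Agent.Work.MP_2709b3_lc
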