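import Mathlib

set_option autoImplicit false

namespace Pool.Agent.Work.MP_2709b3_lc

/-- A rooted forest given by its parent map: every point eventually reaches a fixed point. -/
def IsForest {α : Type*} (g : α → α) : Prop := ∀ x, ∃ k, g (g^[k] x) = g^[k] x

open Classical in
/-- The root of the component of `x`. -/
noncomputable def rt {α : Type*} (g : α → α) (x : α) : α :=
  if h : ∃ k, g (g^[k] x) = g^[k] x then g^[Nat.find h] x else x

/-- A rooted tree with root `r`, given by its parent map. -/
def IsRTr {α : Type*} (f : α → α) (r : α) : Prop := f r = r ∧ ∀ x, ∃ k, f^[k] x = r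

/-- A rooted tree, given by its parent map. -/
def IsRT {α : Type*} (f : α → α) : Prop := ∃ r, IsRTr f r

section basic
variable {α : Type*} {g f : α → α}

theorem iterate_fixed {x : α} (h : g x = x) (k : ℕ) : g^[k] x = x :=
  Function.iterate_fixed h k

theorem rt_eq_of {x y : α} {k : ℕ} (hk : g^[k] x = y) (hy : g y = y) : rt g x = y := by
  classical
  have h : ∃ k, g (g^[k] x) = g^[k] x := ⟨k, by rw [hk]; exact hy⟩
  unfold rt
  rw [dif_pos h]
  have h1 := Nat.find_spec h
  have h2 : Nat.find h ≤ k := Nat.find_min' h (by rw [hk]; exact hy)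
  obtain ⟨j, hj⟩ := Nat.exists_eq_add_of_le h2
  have : g^[k] x = g^[Nat.find h] x := by
    conv_lhs => rw [hj, Nat.add_comm, Function.iterate_add_apply]
    exact iterate_fixed h1 j
  rw [← this, hk]

theorem rt_fixed (hg : IsForest g) (x : α) : g (rt g x) = rt g x := by
  obtain ⟨k, hk⟩ := hg x
  rw [rt_eq_of rfl hk]
  exact hk

theorem exists_iterate_rt (hg : IsForest g) (x : α) : ∃ k, g^[k] x = rt g x := by
  obtain ⟨k, hk⟩ := hg x
  exact ⟨k, (rt_eq_of rfl hk).symm⟩

theorem rt_of_fixed {x : α} (h : g x = x) : rt g x = x :=
  rt_eq_of (k := 0) rfl h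

theorem rt_apply (hg : IsForest g) (x : α) : rt g (g x) = rt g x := by
  obtain ⟨k, hk⟩ := exists_iterate_rt hg x
  apply rt_eq_of (k := k) _ (rt_fixed hg x)
  rw [← Function.iterate_succ_apply, Function.iterate_succ_apply', hk, rt_fixed hg]

theorem IsRTr.isForest {r : α} (h : IsRTr f r) : IsForest f := by
  intro x
  obtain ⟨k, hk⟩ := h.2 x
  exact ⟨k, by rw [hk]; exact h.1⟩

theorem IsRTr.unique {r x : α} (h : IsRTr f r) (hx : f x = x) : x = r := by
  obtain ⟨k, hk⟩ := h.2 x
  rw [iterate_fixed hx] at hk
  exact hk

theorem IsRTr.rt {r : α} (h : IsRTr f r) (x : α) : rt f x = r := by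
  obtain ⟨k, hk⟩ := h.2 x
  exact rt_eq_of hk h.1

/-- update of a forest at a root `v`, hanging it below `w` in another component. -/
theorem isForest_update [DecidableEq α] (hg : IsForest g) {v w : α} (hv : g v = v)
    (hw : rt g w ≠ v) : IsForest (Function.update g v w) := by
  -- iterates agree as long as `v` is not met
  have key : ∀ k x, rt g x ≠ v → (Function.update g v w)^[k] x = g^[k] x := by
    intro k
    induction k with
    | zero => intro x _; rfl
    | succ k ih =>
      intro x hx
      have hxv : x ≠ v := by
        rintro rfl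
        exact hx (rt_of_fixed hv)
      rw [Function.iterate_succ_apply, Function.iterate_succ_apply,
        Function.update_of_ne hxv]
      exact ih _ (by rw [rt_apply hg]; exact hx)
  have key2 : ∀ x, rt g x ≠ v → ∃ k, (Function.update g v w)
      ((Function.update g v w)^[k] x) = (Function.update g v w)^[k] x := by
    intro x hx
    obtain ⟨k, hk⟩ := exists_iterate_rt hg x
    refine ⟨k, ?_⟩
    rw [key k x hx, hk, Function.update_of_ne hx]
    exact rt_fixed hg x
  intro x
  by_cases hx : rt g x = v
  · -- reach v, then w
    have reach : ∀ k x, g^[k] x = v → ∃ j, (Function.update g v w)^[j] x = v := by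
      intro k
      induction k with
      | zero => intro x h; exact ⟨0, h⟩
      | succ k ih =>
        intro x h
        by_cases hxv : x = v
        · exact ⟨0, hxv⟩
        · rw [Function.iterate_succ_apply] at h
          obtain ⟨j, hj⟩ := ih _ h
          refine ⟨j + 1, ?_⟩
          rw [Function.iterate_succ_apply, Function.update_of_ne hxv]
          exact hj
    obtain ⟨k, hk⟩ := exists_iterate_rt hg x
    rw [hx] at hk
    obtain ⟨j, hj⟩ := reach k x hk
    obtain ⟨l, hl⟩ := key2 w hw
    refine ⟨l + (j + 1), ?_⟩
    have h1 : (Function.update g v w)^[j + 1] x = w := by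
      rw [Function.iterate_succ_apply', hj, Function.update_self]
    rw [Function.iterate_add_apply, h1]
    exact hl
  · exact key2 x hx

end basic

section count
variable {α : Type*} [Fintype α]

open Classical in
/-- rooted trees extending the forest `g` (at its non-root points), no root of `g` being sent
into `C`. -/
noncomputable def Ext (g : α → α) (C : Finset α) : Finset (α → α) :=
  Finset.univ.filter (fun f => IsRT f ∧ (∀ x, g x ≠ x → f x = g x) ∧ (∀ x, g x = x → f x ∉ C))

open Classical in
/-- the roots of the forest. -/
noncomputable def fixedPts (g : α → α) : Finset α := Finset.univ.filter (fun x => g x = x)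

theorem mem_Ext {g : α → α} {C : Finset α} {f : α → α} :
    f ∈ Ext g C ↔ IsRT f ∧ (∀ x, g x ≠ x → f x = g x) ∧ (∀ x, g x = x → f x ∉ C) := by
  classical
  simp [Ext]

theorem mem_fixedPts {g : α → α} {x : α} : x ∈ fixedPts g ↔ g x = x := by
  classical
  simp [fixedPts]

/-- if a rooted tree `f` extends `g` and moves the root `v` of `g`, then the root of `f v` in `g` is
not `v`. -/
theorem rt_ne_of_ext {g f : α → α} (hg : IsForest g) (hf : IsRT f)
    (hext : ∀ x, g x ≠ x → f x = g x) {v : α} (hfv : f v ≠ v) :
    rt g (f v) ≠ v := by
  intro hcontra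
  obtain ⟨r, hr⟩ := hf
  -- following g from f v reaches v; f follows the same path
  have reach : ∀ k x, g^[k] x = v → ∃ j, f^[j] x = v := by
    intro k
    induction k with
    | zero => intro x h; exact ⟨0, h⟩
    | succ k ih =>
      intro x h
      by_cases hx : g x = x
      · rw [iterate_fixed hx] at h
        exact ⟨0, h⟩
      · rw [Function.iterate_succ_apply] at h
        obtain ⟨j, hj⟩ := ih _ h
        refine ⟨j + 1, ?_⟩
        rw [Function.iterate_succ_apply, hext x hx]
        exact hj
  obtain ⟨k, hk⟩ := exists_iterate_rt hg (f v)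
  rw [hcontra] at hk
  obtain ⟨j, hj⟩ := reach k _ hk
  -- f^[j+1] v = v, so v periodic
  have hper : f^[j + 1] v = v := by rw [Function.iterate_succ_apply]; exact hj
  have hper2 : ∀ m, f^[(j + 1) * m] v = v := by
    intro m
    rw [Function.iterate_mul]
    exact iterate_fixed hper m
  obtain ⟨l, hl⟩ := hr.2 v
  have h1 : f^[(j + 1) * l] v = r := by
    have hle : l ≤ (j + 1) * l := by nlinarith [Nat.zero_le j, Nat.zero_le l]
    obtain ⟨d, hd⟩ := Nat.exists_eq_add_of_le hle
    rw [hd, Nat.add_comm, Function.iterate_add_apply, hl]
    exact iterate_fixed hr.1 d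
  rw [hper2 l] at h1
  exact hfv (by rw [h1]; exact hr.1)

open Classical in
/-- trees extending `g` with a prescribed value at a root. -/
theorem filter_Ext_eq {g : α → α} {C : Finset α} (hg : IsForest g) {v : α} (hv : g v = v) (w : α) :
    (Ext g C).filter (fun f => f v ≠ v ∧ f v = w) =
        if (w ∉ C ∧ rt g w ≠ v) then Ext (Function.update g v w) C else ∅ := by
  ext f
  split_ifs with hw
  · rw [Finset.mem_filter, mem_Ext, mem_Ext]
    have hwv : w ≠ v := by
      rintro rfl
      exact hw.2 (rt_of_fixed hv)
    constructor
    · rintro ⟨⟨h1, h2, h3⟩, h4, h5⟩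
      refine ⟨h1, ?_, ?_⟩
      · intro x hx
        by_cases hxv : x = v
        · subst hxv; rw [Function.update_self]; exact h5
        · rw [Function.update_of_ne hxv] at hx ⊢
          exact h2 x hx
      · intro x hx
        by_cases hxv : x = v
        · subst hxv; rw [Function.update_self] at hx; exact absurd hx hwv
        · rw [Function.update_of_ne hxv] at hx
          exact h3 x hx
    · rintro ⟨h1, h2, h3⟩
      have hfv : f v = w := by
        have := h2 v (by rw [Function.update_self]; exact hwv)
        rw [Function.update_self] at this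
        exact this
      refine ⟨⟨h1, ?_, ?_⟩, ?_, hfv⟩
      · intro x hx
        have hxv : x ≠ v := by rintro rfl; exact hx hv
        have := h2 x (by rw [Function.update_of_ne hxv]; exact hx)
        rw [Function.update_of_ne hxv] at this
        exact this
      · intro x hx
        by_cases hxv : x = v
        · subst hxv; rw [hfv]; exact hw.1
        · exact h3 x (by rw [Function.update_of_ne hxv]; exact hx)
      · rw [hfv]; exact hwv
  · simp only [Finset.mem_filter, Finset.notMem_empty, iff_false]
    rintro ⟨hf, h4, h5⟩
    obtain ⟨h1, h2, h3⟩ := mem_Ext.mp hf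
    apply hw
    refine ⟨?_, ?_⟩
    · rw [← h5]; exact h3 v hv
    · rw [← h5]; exact rt_ne_of_ext hg h1 h2 h4

open Classical in
theorem fixedPts_update {g : α → α} {v w : α} (hwv : w ≠ v) :
    fixedPts (Function.update g v w) = (fixedPts g).erase v := by
  ext x
  rw [Finset.mem_erase, mem_fixedPts, mem_fixedPts]
  by_cases hxv : x = v
  · subst hxv; simp [hwv]
  · rw [Function.update_of_ne hxv]; simp [hxv]

open Classical in
theorem card_fixedPts_update {g : α → α} {v w : α} (hv : g v = v) (hwv : w ≠ v) {c : ℕ}
    (hcard : (fixedPts g).card = c + 1) : (fixedPts (Function.update g v w)).card = c := by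
  rw [fixedPts_update hwv, Finset.card_erase_of_mem (mem_fixedPts.mpr hv), hcard]
  rfl

open Classical in
/-- the enumeration of rooted trees extending a forest. -/
theorem card_Ext (c : ℕ) : ∀ (g : α → α) (C : Finset α), IsForest g → (∀ x ∈ C, g x ≠ x) →
    (fixedPts g).card = c + 1 → (Ext g C).card = (Fintype.card α - C.card) ^ c := by
  induction c with
  | zero =>
    intro g C hg hC hcard
    obtain ⟨r, hr⟩ := Finset.card_eq_one.mp (by simpa using hcard)
    have hr1 : g r = r := mem_fixedPts.mp (by rw [hr]; simp)
    have hr2 : ∀ x, g x = x → x = r := by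
      intro x hx
      have : x ∈ fixedPts g := mem_fixedPts.mpr hx
      rw [hr] at this
      simpa using this
    have : Ext g C = {g} := by
      ext f
      rw [mem_Ext, Finset.mem_singleton]
      constructor
      · rintro ⟨⟨r', hr'⟩, h2, _⟩
        have : r' = r := by
          by_contra hne
          have h3 : g r' ≠ r' := fun h => hne (hr2 _ h)
          exact h3 (by rw [← h2 r' h3]; exact hr'.1)
        subst this
        funext x
        by_cases hx : g x = x
        · rw [hr2 x hx, hr1]; exact hr'.1
        · exact h2 x hx
      · rintro rfl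
        refine ⟨⟨r, hr1, ?_⟩, fun _ _ => rfl, ?_⟩
        · intro x
          obtain ⟨k, hk⟩ := hg x
          exact ⟨k, hr2 _ hk⟩
        · intro x hx hmem
          rw [hx] at hmem
          exact hC x hmem hx
    rw [this]
    simp
  | succ c ih =>
    intro g C hg hC hcard
    -- double counting
    have hroots : ∀ f ∈ Ext g C, ((fixedPts g).filter (fun v => f v ≠ v)).card = c + 1 := by
      intro f hf
      obtain ⟨⟨r, hr⟩, h2, h3⟩ := mem_Ext.mp hf
      have hgr : g r = r := by
        by_contra hne
        exact hne (by rw [← h2 r hne]; exact hr.1)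
      have : (fixedPts g).filter (fun v => f v ≠ v) = (fixedPts g).erase r := by
        ext v
        simp only [Finset.mem_filter, Finset.mem_erase, mem_fixedPts]
        constructor
        · rintro ⟨h4, h5⟩
          refine ⟨?_, h4⟩
          rintro rfl
          exact h5 hr.1
        · rintro ⟨h4, h5⟩
          exact ⟨h5, fun h6 => h4 (hr.unique h6)⟩
      rw [this, Finset.card_erase_of_mem (mem_fixedPts.mpr hgr), hcard]
      rfl
    have hcount : (Ext g C).card * (c + 1) =
        ∑ v ∈ fixedPts g, ∑ w : α, ((Ext g C).filter (fun f => f v ≠ v ∧ f v = w)).card := by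
      have h1 : (Ext g C).card * (c + 1) =
          ∑ f ∈ Ext g C, ((fixedPts g).filter (fun v => f v ≠ v)).card := by
        rw [Finset.sum_congr rfl hroots, Finset.sum_const, smul_eq_mul]
      rw [h1]
      have h2 : ∑ f ∈ Ext g C, ((fixedPts g).filter (fun v => f v ≠ v)).card =
          ∑ v ∈ fixedPts g, ((Ext g C).filter (fun f => f v ≠ v)).card := by
        simp only [Finset.card_filter]
        rw [Finset.sum_comm]
      rw [h2]
      apply Finset.sum_congr rfl
      intro v _
      rw [Finset.card_eq_sum_card_fiberwise (f := fun f : α → α => f v) (t := Finset.univ)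
        (fun _ _ => Finset.mem_univ _)]
      apply Finset.sum_congr rfl
      intro w _
      rw [Finset.filter_filter]
    have hval : ∀ v ∈ fixedPts g, ∀ w : α,
        ((Ext g C).filter (fun f => f v ≠ v ∧ f v = w)).card =
        if (w ∉ C ∧ rt g w ≠ v) then (Fintype.card α - C.card) ^ c else 0 := by
      intro v hv w
      have hv' := mem_fixedPts.mp hv
      rw [filter_Ext_eq hg hv' w]
      split_ifs with hw
      · have hwv : w ≠ v := by
          rintro rfl
          exact hw.2 (rt_of_fixed hv')
        apply ih
        · exact isForest_update hg hv' hw.2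
        · intro x hx
          by_cases hxv : x = v
          · subst hxv; exact absurd hv' (hC x hx)
          · rw [Function.update_of_ne hxv]; exact hC x hx
        · exact card_fixedPts_update hv' hwv hcard
      · simp
    have hpairs : ∑ v ∈ fixedPts g, ∑ w : α,
        (if (w ∉ C ∧ rt g w ≠ v) then (Fintype.card α - C.card) ^ c else 0) =
        (Fintype.card α - C.card) * ((c + 1) * (Fintype.card α - C.card) ^ c) := by
      rw [Finset.sum_comm]
      have h1 : ∀ w : α, ∑ v ∈ fixedPts g,
          (if (w ∉ C ∧ rt g w ≠ v) then (Fintype.card α - C.card) ^ c else 0) =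
          if w ∉ C then (c + 1) * (Fintype.card α - C.card) ^ c else 0 := by
        intro w
        by_cases hw : w ∈ C
        · simp [hw]
        · simp only [hw, not_false_eq_true, true_and, if_true]
          rw [← Finset.sum_filter, Finset.sum_const, smul_eq_mul]
          congr 1
          have : (fixedPts g).filter (fun v => rt g w ≠ v) = (fixedPts g).erase (rt g w) := by
            ext v
            simp only [Finset.mem_filter, Finset.mem_erase]
            constructor
            · rintro ⟨h1, h2⟩; exact ⟨fun h => h2 h.symm, h1⟩
            · rintro ⟨h1, h2⟩; exact ⟨h2, fun h => h1 h.symm⟩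
          rw [this, Finset.card_erase_of_mem (mem_fixedPts.mpr (rt_fixed hg w)), hcard]
          rfl
      rw [Finset.sum_congr rfl (fun w _ => h1 w)]
      rw [← Finset.sum_filter, Finset.sum_const, smul_eq_mul]
      congr 1
      rw [Finset.filter_not, Finset.card_sdiff_of_subset (Finset.filter_subset _ _)]
      simp
    have hfinal : (Ext g C).card * (c + 1) =
        (Fintype.card α - C.card) ^ (c + 1) * (c + 1) := by
      rw [hcount, Finset.sum_congr rfl (fun v hv => Finset.sum_congr rfl (fun w _ => hval v hv w)),
        hpairs]
      ring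
    exact Nat.eq_of_mul_eq_mul_right (Nat.succ_pos c) hfinal

end count

end Pool.Agent.Work.MP_2709b3_lc
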