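import Pool.Agent.Work.MP_2709b3_lc.Level

set_option autoImplicit false

namespace Pool.Agent.Work.MP_2709b3_lc

/-- walks following a pattern of forward (`true`) and backward (`false`) arcs -/
def Wk {α : Type*} (E : α → α → Bool) : List Bool → α → α → Prop
  | [], u, v => u = v
  | b :: w, u, v => ∃ z, (if b then E u z else E z u) = true ∧ Wk E w z v

/-- the parent of a vertex of the gadget (vertex `0` is the centre, leg `i` consists of
`12 i + 1, ..., 12 i + 12`). -/
def parK (m : ℕ) : ℕ := if (m - 1) % 12 = 0 then 0 else m - 1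

/-- whether the arc goes from the parent of `m` to `m` -/
def upK (m : ℕ) : Bool := decide ((m - 1) % 12 < 7) && decide ((m - 1) % 12 ≠ (m - 1) / 12 + 2)

/-- arcs of the gadget -/
def EK (i j : ℕ) : Bool :=
  (decide (j ≠ 0) && (decide (parK j = i) && upK j)) ||
    (decide (i ≠ 0) && (decide (parK i = j) && !(upK i)))

/-- one step of reachability in the gadget -/
def stepK (b : Bool) (S : List ℕ) : List ℕ :=
  (List.range 37).filter (fun j => S.any (fun i => if b then EK i j else EK j i))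

/-- reachability in the gadget -/
def reachK : List Bool → List ℕ → List ℕ
  | [], S => S
  | b :: w, S => reachK w (stepK b S)

/-- no backward step is made from the centre -/
def validK : List Bool → List ℕ → Bool
  | [], _ => true
  | b :: w, S => (b || !(S.contains 0)) && validK w (stepK b S)

/-- a closed copy of the gadget in `E` -/
structure IsGadget {α : Type*} (E : α → α → Bool) (κ : ℕ → α) : Prop where
  arc : ∀ i < 37, ∀ j < 37, EK i j = true → E (κ i) (κ j) = true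
  out : ∀ i < 37, ∀ v, E (κ i) v = true → ∃ j < 37, v = κ j ∧ EK i j = true
  inn : ∀ i < 37, i ≠ 0 → ∀ v, E v (κ i) = true → ∃ j < 37, v = κ j ∧ EK j i = true
  inj : ∀ i < 37, ∀ j < 37, κ i = κ j → i = j

section
variable {α : Type*} {E : α → α → Bool}

theorem Wk.append {w1 w2 : List Bool} {u v z : α} (h1 : Wk E w1 u v) (h2 : Wk E w2 v z) :
    Wk E (w1 ++ w2) u z := by
  induction w1 generalizing u with
  | nil => rw [show u = v from h1]; exact h2
  | cons b w ih =>
    obtain ⟨y, hy, h3⟩ := h1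
    exact ⟨y, hy, ih h3⟩

/-- reverse pattern -/
def revP (w : List Bool) : List Bool := (w.map (!·)).reverse

theorem Wk.reverse {w : List Bool} {u v : α} (h : Wk E w u v) : Wk E (revP w) v u := by
  induction w generalizing u with
  | nil => exact (show u = v from h).symm
  | cons b w ih =>
    obtain ⟨y, hy, h3⟩ := h
    have h4 := ih h3
    unfold revP at h4 ⊢
    rw [List.map_cons, List.reverse_cons]
    apply h4.append
    refine ⟨u, ?_, rfl⟩
    cases b
    · simpa using hy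
    · simpa using hy

theorem mem_stepK {b : Bool} {S : List ℕ} {j : ℕ} :
    j ∈ stepK b S ↔ j < 37 ∧ ∃ i ∈ S, (if b then EK i j else EK j i) = true := by
  unfold stepK
  rw [List.mem_filter, List.mem_range, List.any_eq_true]

theorem reachK_sound {κ : ℕ → α} (hκ : IsGadget E κ) {w : List Bool} :
    ∀ {S : List ℕ}, (∀ i ∈ S, i < 37) → validK w S = true → ∀ {i : ℕ} {v : α}, i ∈ S →
      Wk E w (κ i) v → ∃ j ∈ reachK w S, v = κ j := by
  induction w with
  | nil =>
    intro S _ _ i v hi hv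
    exact ⟨i, hi, (show κ i = v from hv).symm⟩
  | cons b w ih =>
    intro S hS hval i v hi hv
    obtain ⟨z, hz, h3⟩ := hv
    unfold validK at hval
    rw [Bool.and_eq_true] at hval
    obtain ⟨hval1, hval2⟩ := hval
    have : ∃ j ∈ stepK b S, z = κ j := by
      cases b
      · have h0 : i ≠ 0 := by
          rintro rfl
          simp [hi] at hval1
        simp only [Bool.false_eq_true, if_false] at hz
        obtain ⟨j, hj, h4, h5⟩ := hκ.inn i (hS i hi) h0 z hz
        exact ⟨j, mem_stepK.mpr ⟨hj, i, hi, by simpa using h5⟩, h4⟩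
      · simp only [if_true] at hz
        obtain ⟨j, hj, h4, h5⟩ := hκ.out i (hS i hi) z hz
        exact ⟨j, mem_stepK.mpr ⟨hj, i, hi, by simpa using h5⟩, h4⟩
    obtain ⟨j, hj, rfl⟩ := this
    exact ih (S := stepK b S) (fun i hi => (mem_stepK.mp hi).1) hval2 hj h3

theorem reachK_complete {κ : ℕ → α} (hκ : IsGadget E κ) {w : List Bool} :
    ∀ {S : List ℕ}, (∀ i ∈ S, i < 37) → ∀ {j : ℕ}, j ∈ reachK w S →
      ∃ i ∈ S, Wk E w (κ i) (κ j) := by
  induction w with
  | nil =>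
    intro S _ j hj
    exact ⟨j, hj, rfl⟩
  | cons b w ih =>
    intro S hS j hj
    obtain ⟨i, hi, h1⟩ := ih (S := stepK b S) (fun i hi => (mem_stepK.mp hi).1) hj
    obtain ⟨h2, i', hi', h3⟩ := mem_stepK.mp hi
    refine ⟨i', hi', κ i, ?_, h1⟩
    cases b
    · simp only [Bool.false_eq_true, if_false] at h3 ⊢
      exact hκ.arc _ h2 _ (hS i' hi') h3
    · simp only [if_true] at h3 ⊢
      exact hκ.arc _ (hS i' hi') _ h2 h3

/-- the three patterns -/
def UU (j : Fin 3) : List Bool :=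
  (List.range 7).map (fun t => decide (t ≠ j.val + 2))

def xK (i : Fin 3) : ℕ := 12 * i.val + 7
def yK (i : Fin 3) : ℕ := 12 * i.val + 12

theorem fact1 : ∀ j : Fin 3, reachK (UU j) [0] = [xK j] ∧ validK (UU j) [0] = true ∧
    xK j < 37 ∧ yK j < 37 := by
  decide +kernel

theorem fact2 : ∀ i j : Fin 3, reachK (UU j) [yK i] = [xK i] ∧ validK (UU j) [yK i] = true := by
  decide +kernel

theorem fact3 : ∀ i j : Fin 3, validK (revP (UU j)) [xK i] = true ∧
    (∀ m ∈ reachK (revP (UU j)) [xK i], m = yK i ∨ (i = j ∧ m = 0)) := by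
  decide +kernel

end

/-- Abstract core of the hardness argument. -/
theorem no_siggers_core {α : Type*} (W : Fin 3 → α → α → Prop) (s : α → α → α → α → α)
    (q : α) (x y : Fin 3 → α)
    (hs : ∀ j u₁ u₂ u₃ u₄ v₁ v₂ v₃ v₄, W j u₁ v₁ → W j u₂ v₂ → W j u₃ v₃ → W j u₄ v₄ →
      W j (s u₁ u₂ u₃ u₄) (s v₁ v₂ v₃ v₄))
    (hq : s q q q q = q)
    (h1 : ∀ j v, W j q v ↔ v = x j)
    (h2 : ∀ i j v, W j (y i) v ↔ v = x i)
    (h3 : ∀ i j u, W j u (x i) → u = y i ∨ (i = j ∧ u = q))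
    (hx : Function.Injective x)
    (hsig : ∀ a r e, s a r e a = s r a r e) : False := by
  -- recolouring
  have recol : ∀ (i j : Fin 3) (a b : Fin 4 → Fin 3) (c : Fin 3),
      s (x (a 0)) (x (a 1)) (x (a 2)) (x (a 3)) = x c →
      (∀ k, a k = b k ∨ (a k = i ∧ b k = j)) →
      s (x (b 0)) (x (b 1)) (x (b 2)) (x (b 3)) = x c ∨
      (c = i ∧ s (x (b 0)) (x (b 1)) (x (b 2)) (x (b 3)) = x j) := by
    intro i j a b c hac hab
    have hu : ∀ k, ∃ u, W i u (x (a k)) ∧ W j u (x (b k)) := by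
      intro k
      rcases hab k with h | ⟨h, h'⟩
      · refine ⟨y (a k), (h2 _ _ _).mpr rfl, ?_⟩
        rw [← h]; exact (h2 _ _ _).mpr rfl
      · refine ⟨q, ?_, ?_⟩
        · rw [h]; exact (h1 _ _).mpr rfl
        · rw [h']; exact (h1 _ _).mpr rfl
    choose u hu1 hu2 using hu
    have h4 := hs i _ _ _ _ _ _ _ _ (hu1 0) (hu1 1) (hu1 2) (hu1 3)
    have h5 := hs j _ _ _ _ _ _ _ _ (hu2 0) (hu2 1) (hu2 2) (hu2 3)
    rw [hac] at h4
    rcases h3 _ _ _ h4 with h6 | ⟨h6, h7⟩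
    · left
      rw [h6] at h5
      exact (h2 _ _ _).mp h5
    · right
      rw [h7] at h5
      exact ⟨h6, (h1 _ _).mp h5⟩
  have idem : ∀ i, s (x i) (x i) (x i) (x i) = x i := by
    intro i
    have h4 := hs i _ _ _ _ _ _ _ _ ((h1 i _).mpr rfl) ((h1 i _).mpr rfl) ((h1 i _).mpr rfl)
      ((h1 i _).mpr rfl)
    rw [hq] at h4
    exact (h1 _ _).mp h4
  have cons : ∀ (i j : Fin 3) (b : Fin 4 → Fin 3), (∀ k, b k = i ∨ b k = j) →
      s (x (b 0)) (x (b 1)) (x (b 2)) (x (b 3)) = x i ∨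
      s (x (b 0)) (x (b 1)) (x (b 2)) (x (b 3)) = x j := by
    intro i j b hb
    rcases recol i j (fun _ => i) b i (idem i) (by
      intro k
      rcases hb k with h | h
      · left; exact h.symm
      · right; exact ⟨rfl, h⟩) with h | h
    · left; exact h
    · right; exact h.2
  have ne : ∀ {i j : Fin 3} {z : α}, z = x i → z = x j → i = j := by
    intro i j z h h'
    exact hx (h.symm.trans h')
  have n01 : (0 : Fin 3) ≠ 1 := by decide
  have n02 : (0 : Fin 3) ≠ 2 := by decide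
  have n12 : (1 : Fin 3) ≠ 2 := by decide
  -- the value v
  have hsg := hsig (x 0) (x 1) (x 2)
  have hv : ∃ v, s (x 0) (x 1) (x 2) (x 0) = x v := by
    rcases cons 0 1 ![0, 1, 0, 0] (by decide) with h | h
    · rcases recol 0 2 ![0, 1, 0, 0] ![0, 1, 2, 0] 0 h (by decide) with h4 | h4
      · exact ⟨0, h4⟩
      · exact ⟨2, h4.2⟩
    · rcases recol 0 2 ![0, 1, 0, 0] ![0, 1, 2, 0] 1 h (by decide) with h4 | h4
      · exact ⟨1, h4⟩
      · exact ⟨2, h4.2⟩
  obtain ⟨v, hA⟩ := hv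
  have hB : s (x 1) (x 0) (x 1) (x 2) = x v := by rw [← hsg]; exact hA
  have hall : ∀ v : Fin 3, v = 0 ∨ v = 1 ∨ v = 2 := by decide
  have hv3 : v = 0 ∨ v = 1 ∨ v = 2 := hall v
  rcases hv3 with rfl | rfl | rfl
  · -- v = 0
    have c1 := cons 1 2 ![2, 1, 2, 2] (by decide)
    have a1 := recol 0 2 ![0, 1, 2, 0] ![2, 1, 2, 2] 0 hA (by decide)
    have b1 := recol 1 2 ![1, 0, 1, 2] ![2, 0, 2, 2] 0 hB (by decide)
    have b1' : s (x 2) (x 0) (x 2) (x 2) = x 0 := by
      rcases b1 with h | h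
      · exact h
      · exact absurd h.1 n01
    have b2 := recol 0 1 ![2, 0, 2, 2] ![2, 1, 2, 2] 0 b1' (by decide)
    have e1 : s (x 2) (x 1) (x 2) (x 2) = x 2 := by
      rcases c1 with h | h
      · rcases a1 with h' | h'
        · exact absurd (ne h' h) n01
        · exact h'.2
      · exact h
    rcases b2 with h | h
    · exact n02 (ne h e1)
    · exact n12 (ne h.2 e1)
  · -- v = 1
    have c1 := cons 0 2 ![2, 0, 2, 2] (by decide)
    have b1 := recol 1 2 ![1, 0, 1, 2] ![2, 0, 2, 2] 1 hB (by decide)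
    have a1 := recol 0 2 ![0, 1, 2, 0] ![2, 1, 2, 2] 1 hA (by decide)
    have a1' : s (x 2) (x 1) (x 2) (x 2) = x 1 := by
      rcases a1 with h | h
      · exact h
      · exact absurd h.1 (Ne.symm n01)
    have a2 := recol 1 0 ![2, 1, 2, 2] ![2, 0, 2, 2] 1 a1' (by decide)
    have e1 : s (x 2) (x 0) (x 2) (x 2) = x 2 := by
      rcases c1 with h | h
      · rcases b1 with h' | h'
        · exact absurd (ne h' h) (Ne.symm n01)
        · exact h'.2
      · exact h
    rcases a2 with h | h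
    · exact n12 (ne h e1)
    · exact n02 (ne h.2 e1)
  · -- v = 2
    have c1 := cons 0 1 ![1, 1, 1, 0] (by decide)
    have a1 := recol 0 1 ![0, 1, 2, 0] ![1, 1, 2, 0] 2 hA (by decide)
    have a1' : s (x 1) (x 1) (x 2) (x 0) = x 2 := by
      rcases a1 with h | h
      · exact h
      · exact absurd h.1 (Ne.symm n02)
    have a2 := recol 2 1 ![1, 1, 2, 0] ![1, 1, 1, 0] 2 a1' (by decide)
    have b1 := recol 0 1 ![1, 0, 1, 2] ![1, 1, 1, 2] 2 hB (by decide)
    have b1' : s (x 1) (x 1) (x 1) (x 2) = x 2 := by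
      rcases b1 with h | h
      · exact h
      · exact absurd h.1 (Ne.symm n02)
    have b2 := recol 2 0 ![1, 1, 1, 2] ![1, 1, 1, 0] 2 b1' (by decide)
    have e1 : s (x 1) (x 1) (x 1) (x 0) = x 1 := by
      rcases a2 with h | h
      · rcases c1 with h' | h'
        · exact absurd (ne h' h) n02
        · exact h'
      · exact h.2
    have e2 : s (x 1) (x 1) (x 1) (x 0) = x 0 := by
      rcases b2 with h | h
      · exact absurd (ne h e1) (Ne.symm n12)
      · exact h.2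
    exact n01 (ne e2 e1)

/-- polymorphisms preserve walks -/
theorem Wk.poly {α : Type*} {E : α → α → Bool} {s : α → α → α → α → α}
    (hs : ∀ x₁ x₂ x₃ x₄ y₁ y₂ y₃ y₄ : α,
      E x₁ y₁ = true → E x₂ y₂ = true → E x₃ y₃ = true → E x₄ y₄ = true →
      E (s x₁ x₂ x₃ x₄) (s y₁ y₂ y₃ y₄) = true) {w : List Bool} :
    ∀ {u₁ u₂ u₃ u₄ v₁ v₂ v₃ v₄ : α}, Wk E w u₁ v₁ → Wk E w u₂ v₂ → Wk E w u₃ v₃ → Wk E w u₄ v₄ →
      Wk E w (s u₁ u₂ u₃ u₄) (s v₁ v₂ v₃ v₄) := by
  induction w with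
  | nil =>
    intro u₁ u₂ u₃ u₄ v₁ v₂ v₃ v₄ h1 h2 h3 h4
    rw [show u₁ = v₁ from h1, show u₂ = v₂ from h2, show u₃ = v₃ from h3, show u₄ = v₄ from h4]
    rfl
  | cons b w ih =>
    rintro u₁ u₂ u₃ u₄ v₁ v₂ v₃ v₄ ⟨z1, e1, h1⟩ ⟨z2, e2, h2⟩ ⟨z3, e3, h3⟩ ⟨z4, e4, h4⟩
    refine ⟨s z1 z2 z3 z4, ?_, ih h1 h2 h3 h4⟩
    cases b
    · simp only [Bool.false_eq_true, if_false] at *
      exact hs _ _ _ _ _ _ _ _ e1 e2 e3 e4
    · simp only [if_true] at *
      exact hs _ _ _ _ _ _ _ _ e1 e2 e3 e4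

/-- a closed gadget whose centre is fixed by `x ↦ s(x,x,x,x)` prevents Siggers polymorphisms. -/
theorem gadget_no_siggers {α : Type*} {E : α → α → Bool} {κ : ℕ → α} (hκ : IsGadget E κ)
    {s : α → α → α → α → α}
    (hs : ∀ x₁ x₂ x₃ x₄ y₁ y₂ y₃ y₄ : α,
      E x₁ y₁ = true → E x₂ y₂ = true → E x₃ y₃ = true → E x₄ y₄ = true →
      E (s x₁ x₂ x₃ x₄) (s y₁ y₂ y₃ y₄) = true)
    (hq : s (κ 0) (κ 0) (κ 0) (κ 0) = κ 0)
    (hsig : ∀ a r e, s a r e a = s r a r e) : False := by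
  apply no_siggers_core (fun j => Wk E (UU j)) s (κ 0) (fun i => κ (xK i)) (fun i => κ (yK i))
    (fun j u₁ u₂ u₃ u₄ v₁ v₂ v₃ v₄ h1 h2 h3 h4 => Wk.poly hs h1 h2 h3 h4) hq ?_ ?_ ?_ ?_ hsig
  · intro j v
    obtain ⟨f1, f2, _, _⟩ := fact1 j
    constructor
    · intro h
      obtain ⟨m, hm, hv⟩ := reachK_sound hκ (S := [0]) (by simp) f2 (by simp) h
      rw [f1] at hm
      rw [hv, List.mem_singleton.mp hm]
    · rintro rfl
      obtain ⟨i, hi, h⟩ := reachK_complete hκ (S := [0]) (w := UU j) (by simp) (j := xK j)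
        (by rw [f1]; simp)
      rw [List.mem_singleton.mp hi] at h
      exact h
  · intro i j v
    obtain ⟨f1, f2⟩ := fact2 i j
    have hy := (fact1 i).2.2.2
    constructor
    · intro h
      obtain ⟨m, hm, hv⟩ := reachK_sound hκ (S := [yK i]) (by simpa using hy) f2 (by simp) h
      rw [f1] at hm
      rw [hv, List.mem_singleton.mp hm]
    · rintro rfl
      obtain ⟨i', hi, h⟩ := reachK_complete hκ (S := [yK i]) (w := UU j) (by simpa using hy)
        (j := xK i) (by rw [f1]; simp)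
      rw [List.mem_singleton.mp hi] at h
      exact h
  · intro i j u h
    obtain ⟨f1, f2⟩ := fact3 i j
    have hx := (fact1 i).2.2.1
    obtain ⟨m, hm, hv⟩ := reachK_sound hκ (S := [xK i]) (by simpa using hx) f1 (by simp) h.reverse
    rcases f2 m hm with h4 | ⟨h4, h5⟩
    · left; rw [hv, h4]
    · right; exact ⟨h4, by rw [hv, h5]⟩
  · intro i j hij
    have := hκ.inj _ (fact1 i).2.2.1 _ (fact1 j).2.2.1 hij
    unfold xK at this
    apply Fin.ext
    omega

end Pool.Agent.Work.MP_2709b3_lc
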