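import Pool.Agent.Work.MP_2709b3_lc.Orient

set_option autoImplicit false

namespace Pool.Agent.Work.MP_2709b3_lc

/-- adjacency -/
def Adj {α : Type*} (E : α → α → Bool) (a b : α) : Prop := E a b = true ∨ E b a = true

/-- level functions -/
def IsLevel {α : Type*} (E : α → α → Bool) (l : α → ℤ) : Prop :=
  ∀ a b, E a b = true → l b = l a + 1

/-- endomorphisms -/
def IsEnd {α : Type*} (E : α → α → Bool) (e : α → α) : Prop :=
  ∀ a b, E a b = true → E (e a) (e b) = true

section
variable {α : Type*} {E : α → α → Bool}

theorem IsOT.nonempty (hE : IsOT E) : Nonempty α := hE.2.connected.nonempty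

theorem exists_level [Finite α] (hE : IsOT E) : ∃ l, IsLevel E l := by
  classical
  obtain ⟨r⟩ := hE.nonempty
  obtain ⟨f, hr, hf⟩ := exists_parent hE r
  set s : α → ℤ := fun y => if E y (f y) then -1 else 1 with hs
  set d : α → ℕ := fun x => Nat.find (hr.2 x) with hd
  have hd1 : ∀ x, f^[d x] x = r := fun x => Nat.find_spec (hr.2 x)
  have hd2 : ∀ x k, f^[k] x = r → d x ≤ k := fun x k h => Nat.find_min' (hr.2 x) h
  have hd3 : ∀ x, x ≠ r → d x = d (f x) + 1 := by
    intro x hx
    apply le_antisymm
    · apply hd2
      rw [Function.iterate_succ_apply]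
      exact hd1 _
    · have h1 : d x ≠ 0 := by
        intro h
        have := hd1 x
        rw [h] at this
        exact hx this
      obtain ⟨m, hm⟩ := Nat.exists_eq_succ_of_ne_zero h1
      have h2 := hd1 x
      rw [hm, Function.iterate_succ_apply] at h2
      have := hd2 _ _ h2
      omega
  set l : α → ℤ := fun x => ∑ i ∈ Finset.range (d x), s (f^[i] x) with hl
  have hl1 : ∀ x, x ≠ r → l x = s x + l (f x) := by
    intro x hx
    simp only [hl]
    rw [hd3 x hx, Finset.sum_range_succ']
    simp only [Function.iterate_succ_apply, Function.iterate_zero, id]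
    ring
  refine ⟨l, ?_⟩
  intro a b hab
  obtain ⟨hne, h1⟩ := (hf a b).mp (Or.inl hab)
  rcases h1 with h1 | h1
  · have har : a ≠ r := by rintro rfl; exact hne (by rw [← h1, hr.1])
    have h2 := hl1 a har
    have h3 : s a = -1 := by simp only [hs]; rw [h1, hab]; simp
    rw [h3, h1] at h2
    rw [h2]; ring
  · have hbr : b ≠ r := by rintro rfl; exact hne (by rw [← h1, hr.1])
    have h2 := hl1 b hbr
    have h3 : s b = 1 := by
      simp only [hs]
      rw [h1]
      cases hba : E b a
      · simp
      · exact absurd ⟨hab, hba⟩ (hE.1 a b)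
    rw [h3, h1] at h2
    rw [h2]; ring

theorem IsEnd.level [Finite α] (hE : IsOT E) {e : α → α} (he : IsEnd E e) {l : α → ℤ}
    (hl : IsLevel E l) (x : α) : l (e x) = l x := by
  classical
  have := Fintype.ofFinite α
  obtain ⟨r⟩ := hE.nonempty
  obtain ⟨f, hr, hf⟩ := exists_parent hE r
  have hstep : ∀ x, l (e x) - l x = l (e (f x)) - l (f x) := by
    intro x
    by_cases hx : f x = x
    · rw [hx]
    · have h1 := (hf x (f x)).mpr ⟨fun h => hx h.symm, Or.inl rfl⟩
      rcases h1 with h1 | h1
      · have h2 := hl _ _ h1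
        have h3 := hl _ _ (he _ _ h1)
        rw [h2, h3]; ring
      · have h2 := hl _ _ h1
        have h3 := hl _ _ (he _ _ h1)
        rw [h2, h3]; ring
  have hconst : ∀ k x, f^[k] x = r → l (e x) - l x = l (e r) - l r := by
    intro k
    induction k with
    | zero => intro x hx; rw [show x = r from hx]
    | succ k ih =>
      intro x hx
      rw [Function.iterate_succ_apply] at hx
      rw [hstep x]
      exact ih _ hx
  have hconst' : ∀ x, l (e x) - l x = l (e r) - l r := fun x => by
    obtain ⟨k, hk⟩ := hr.2 x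
    exact hconst k x hk
  obtain ⟨y, _, hy⟩ := Finset.exists_max_image (Finset.univ : Finset α) l ⟨r, Finset.mem_univ _⟩
  obtain ⟨z, _, hz⟩ := Finset.exists_min_image (Finset.univ : Finset α) l ⟨r, Finset.mem_univ _⟩
  have h1 := hy (e y) (Finset.mem_univ _)
  have h2 := hz (e z) (Finset.mem_univ _)
  have h3 := hconst' y
  have h4 := hconst' z
  have h5 := hconst' x
  omega

/-- in a tree, a walk with the length and the ends of a path is this path. -/
theorem walk_eq_path [Finite α] (hE : IsOT E) {n : ℕ} {p w : ℕ → α}
    (hp : ∀ i < n, Adj E (p i) (p (i + 1))) (hinj : ∀ i ≤ n, ∀ j ≤ n, p i = p j → i = j)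
    (hw : ∀ i < n, Adj E (w i) (w (i + 1))) (h0 : w 0 = p 0) (hn : w n = p n) :
    ∀ i ≤ n, w i = p i := by
  obtain ⟨f, hr, hf⟩ := exists_parent hE (p n)
  -- the path goes to the root
  have h1 : ∀ k < n, f (p (n - 1 - k)) = p (n - k) := by
    intro k
    induction k with
    | zero =>
      intro hk
      have h2 := hp (n - 1) (by omega)
      rw [show n - 1 + 1 = n by omega] at h2
      obtain ⟨h3, h4⟩ := (hf _ _).mp h2
      rcases h4 with h4 | h4
      · exact h4
      · rw [hr.1] at h4; exact absurd h4.symm h3
    | succ k ih =>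
      intro hk
      have ih' := ih (by omega)
      have h2 := hp (n - 1 - (k + 1)) (by omega)
      rw [show n - 1 - (k + 1) + 1 = n - 1 - k by omega] at h2
      obtain ⟨h3, h4⟩ := (hf _ _).mp h2
      rw [show n - (k + 1) = n - 1 - k by omega]
      rcases h4 with h4 | h4
      · exact h4
      · rw [ih'] at h4
        have := hinj _ (by omega) _ (by omega) h4
        omega
  have h2 : ∀ i < n, f (p i) = p (i + 1) := by
    intro i hi
    have := h1 (n - 1 - i) (by omega)
    rw [show n - 1 - (n - 1 - i) = i by omega, show n - (n - 1 - i) = i + 1 by omega] at this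
    exact this
  have h3 : ∀ k i, i + k ≤ n → f^[k] (p i) = p (i + k) := by
    intro k
    induction k with
    | zero => intro i _; rfl
    | succ k ih =>
      intro i hi
      rw [Function.iterate_succ_apply, h2 i (by omega), ih (i + 1) (by omega)]
      congr 1; omega
  -- depth bound along the walk
  have hstep : ∀ m a b, Adj E a b → (∃ k ≤ m, f^[k] b = p n) → ∃ k ≤ m + 1, f^[k] a = p n := by
    rintro m a b hab ⟨k, hk, hk2⟩
    obtain ⟨hne, h4⟩ := (hf _ _).mp hab
    rcases h4 with h4 | h4
    · exact ⟨k + 1, by omega, by rw [Function.iterate_succ_apply, h4]; exact hk2⟩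
    · cases k with
      | zero =>
        have hb : b = p n := hk2
        rw [hb, hr.1] at h4
        exact ⟨0, by omega, h4.symm⟩
      | succ k =>
        rw [Function.iterate_succ_apply, h4] at hk2
        exact ⟨k, by omega, hk2⟩
  have h4 : ∀ j ≤ n, ∃ k ≤ j, f^[k] (w (n - j)) = p n := by
    intro j
    induction j with
    | zero => intro _; exact ⟨0, le_refl _, hn⟩
    | succ j ih =>
      intro hj
      have h5 := hw (n - (j + 1)) (by omega)
      rw [show n - (j + 1) + 1 = n - j by omega] at h5
      exact hstep j _ _ h5 (ih (by omega))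
  intro i
  induction i with
  | zero => intro _; exact h0
  | succ i ih =>
    intro hi
    have ih' := ih (by omega)
    have h5 := hw i (by omega)
    obtain ⟨hne, h6⟩ := (hf _ _).mp h5
    rcases h6 with h6 | h6
    · rw [← h6, ih', h2 i (by omega)]
    · exfalso
      obtain ⟨k, hk, hk2⟩ := h4 (n - (i + 1)) (by omega)
      rw [show n - (n - (i + 1)) = i + 1 by omega] at hk2
      cases k with
      | zero =>
        have h7 : w (i + 1) = p n := hk2
        rw [h7, hr.1, ih'] at h6
        have := hinj _ (le_refl n) i (by omega) h6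
        omega
      | succ k =>
        rw [Function.iterate_succ_apply, h6, ih', h3 k i (by omega)] at hk2
        have := hinj _ (by omega) _ (le_refl n) hk2
        omega

/-- an endomorphism fixing two vertices of a path fixes the path between them. -/
theorem end_fixes_between [Finite α] (hE : IsOT E) {e : α → α} (he : IsEnd E e) {k : ℕ}
    {p : ℕ → α} (hp : ∀ i < k, Adj E (p i) (p (i + 1)))
    (hinj : ∀ i ≤ k, ∀ j ≤ k, p i = p j → i = j) {x a y : ℕ} (hxa : x ≤ a) (hay : a ≤ y)
    (hy : y ≤ k) (hex : e (p x) = p x) (hey : e (p y) = p y) : e (p a) = p a := by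
  have := walk_eq_path hE (n := y - x) (p := fun i => p (x + i)) (w := fun i => e (p (x + i)))
    (by
      intro i hi
      exact hp (x + i) (by omega))
    (by
      intro i hi j hj hij
      have := hinj _ (by omega) _ (by omega) hij
      omega)
    (by
      intro i hi
      rcases hp (x + i) (by omega) with h | h
      · exact Or.inl (he _ _ h)
      · exact Or.inr (he _ _ h))
    (by simpa using hex)
    (by
      rw [show x + (y - x) = y by omega]
      exact hey)
    (a - x) (by omega)
  rw [show x + (a - x) = a by omega] at this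
  exact this

/-- connecting two disjoint sets by a shortest walk. -/
theorem exists_connection {S R : Set α} (hSR : Disjoint S R) {A : α → α → Prop} {D : ℕ}
    {w : ℕ → α} (h0 : w 0 ∈ S) (hD : w D ∈ R) (hw : ∀ t < D, A (w t) (w (t + 1))) :
    ∃ d, d + 1 ≤ D ∧ ∃ v : ℕ → α, v 0 ∈ S ∧ v (d + 1) ∈ R ∧ (∀ t ≤ d, A (v t) (v (t + 1))) ∧
      (∀ t ≤ d + 1, 0 < t → v t ∉ S) ∧ (∀ t ≤ d, v t ∉ R) ∧
      (∀ s ≤ d + 1, ∀ t ≤ d + 1, v s = v t → s = t) := by
  classical
  have hex : ∃ d, ∃ v : ℕ → α, v 0 ∈ S ∧ v d ∈ R ∧ (∀ t < d, A (v t) (v (t + 1))) :=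
    ⟨D, w, h0, hD, hw⟩
  obtain ⟨v, hv0, hvd, hvA⟩ := Nat.find_spec hex
  have hmin : ∀ d' < Nat.find hex, ¬ ∃ v : ℕ → α, v 0 ∈ S ∧ v d' ∈ R ∧
      (∀ t < d', A (v t) (v (t + 1))) := fun d' h => Nat.find_min hex h
  have hle : Nat.find hex ≤ D := Nat.find_min' hex ⟨w, h0, hD, hw⟩
  set d0 := Nat.find hex with hd0
  have hd0pos : d0 ≠ 0 := by
    intro h
    rw [h] at hvd
    exact (Set.disjoint_left.mp hSR) hv0 hvd
  obtain ⟨d, hd⟩ := Nat.exists_eq_succ_of_ne_zero hd0pos
  rw [hd] at hvd hvA hmin hle
  refine ⟨d, hle, v, hv0, hvd, fun t ht => hvA t (by omega), ?_, ?_, ?_⟩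
  · intro t ht ht0 hS
    apply hmin (d + 1 - t) (by omega)
    refine ⟨fun s => v (s + t), by simpa using hS, ?_, ?_⟩
    · simp only
      rw [show d + 1 - t + t = d + 1 by omega]
      exact hvd
    · intro s hs
      simp only
      rw [show s + 1 + t = s + t + 1 by omega]
      exact hvA _ (by omega)
  · intro t ht hR
    apply hmin t (by omega)
    exact ⟨v, hv0, hR, fun s hs => hvA s (by omega)⟩
  · -- injectivity
    have key : ∀ s t, s < t → t ≤ d + 1 → v s ≠ v t := by
      intro s t hst ht heq
      apply hmin (d + 1 - (t - s)) (by omega)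
      refine ⟨fun u => if u ≤ s then v u else v (u + (t - s)), ?_, ?_, ?_⟩
      · simpa using hv0
      · simp only
        split_ifs with h
        · -- then t = d+1
          have h1 : t = d + 1 := by omega
          have h2 : d + 1 - (t - s) = s := by omega
          rw [h2, heq, h1]; exact hvd
        · rw [show d + 1 - (t - s) + (t - s) = d + 1 by omega]; exact hvd
      · intro u hu
        simp only
        split_ifs with h1 h2 h2
        · exact hvA u (by omega)
        · have h3 : u = s := by omega
          subst h3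
          rw [heq, show u + 1 + (t - u) = t + 1 by omega]
          exact hvA t (by omega)
        · omega
        · rw [show u + 1 + (t - s) = u + (t - s) + 1 by omega]
          exact hvA _ (by omega)
    intro s hs t ht hst
    rcases Nat.lt_trichotomy s t with h | h | h
    · exact absurd hst (key s t h ht)
    · exact h
    · exact absurd hst.symm (key t s h hs)

end

end Pool.Agent.Work.MP_2709b3_lc
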