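import Pool.Agent.Work.MP_2709b3_lc.Forest

set_option autoImplicit false

namespace Pool.Agent.Work.MP_2709b3_lc

/-- the underlying simple graph -/
def GG {α : Type*} (E : α → α → Bool) : SimpleGraph α :=
  SimpleGraph.fromRel (fun a b => E a b = true)

/-- oriented trees -/
def IsOT {α : Type*} (E : α → α → Bool) : Prop :=
  (∀ a b, ¬ (E a b = true ∧ E b a = true)) ∧ (SimpleGraph.fromRel (fun a b => E a b = true)).IsTree

open Classical in
/-- the oriented tree with parent map `f` and orientations `σ` (`σ x` is true when the edge goes from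
`x` to its parent). -/
noncomputable def mk {α : Type*} (f : α → α) (σ : α → Bool) : α → α → Bool :=
  fun a b => decide (a ≠ b ∧ ((f a = b ∧ σ a = true) ∨ (f b = a ∧ σ b = false)))

section
variable {α : Type*}

theorem mk_apply {f : α → α} {σ : α → Bool} {a b : α} :
    mk f σ a b = true ↔ a ≠ b ∧ ((f a = b ∧ σ a = true) ∨ (f b = a ∧ σ b = false)) := by
  classical
  simp [mk]

theorem periodic_fixed {f : α → α} (hf : IsRT f) {v : α} {j : ℕ} (h : f^[j + 1] v = v) :
    f v = v := by
  obtain ⟨r, hr⟩ := hf
  have hper2 : ∀ m, f^[(j + 1) * m] v = v := by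
    intro m
    rw [Function.iterate_mul]
    exact iterate_fixed h m
  obtain ⟨l, hl⟩ := hr.2 v
  have h1 : f^[(j + 1) * l] v = r := by
    have hle : l ≤ (j + 1) * l := by nlinarith [Nat.zero_le j, Nat.zero_le l]
    obtain ⟨d, hd⟩ := Nat.exists_eq_add_of_le hle
    rw [hd, Nat.add_comm, Function.iterate_add_apply, hl]
    exact iterate_fixed hr.1 d
  rw [hper2 l] at h1
  rw [h1]; exact hr.1

theorem periodic2_fixed {f : α → α} (hf : IsRT f) {v : α} (h : f (f v) = v) : f v = v :=
  periodic_fixed (j := 1) hf h

/-- adjacency in the underlying graph of `mk f σ`. -/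
theorem mk_adj {f : α → α} {σ : α → Bool} {a b : α} :
    (SimpleGraph.fromRel (fun a b => mk f σ a b = true)).Adj a b ↔
      a ≠ b ∧ (f a = b ∨ f b = a) := by
  rw [SimpleGraph.fromRel_adj, mk_apply, mk_apply]
  constructor
  · rintro ⟨h, h1 | h1⟩
    · exact ⟨h, by tauto⟩
    · exact ⟨h, by tauto⟩
  · rintro ⟨h, h1 | h1⟩
    · refine ⟨h, ?_⟩
      cases hσ : σ a
      · right; exact ⟨h.symm, Or.inr ⟨h1, rfl⟩⟩
      · left; exact ⟨h, Or.inl ⟨h1, rfl⟩⟩
    · refine ⟨h, ?_⟩
      cases hσ : σ b
      · left; exact ⟨h, Or.inr ⟨h1, rfl⟩⟩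
      · right; exact ⟨h.symm, Or.inl ⟨h1, rfl⟩⟩

theorem mk_isOT [Finite α] {f : α → α} (hf : IsRT f) (σ : α → Bool) : IsOT (mk f σ) := by
  classical
  constructor
  · intro a b ⟨h1, h2⟩
    rw [mk_apply] at h1 h2
    obtain ⟨hab, h1⟩ := h1
    obtain ⟨_, h2⟩ := h2
    rcases h1 with ⟨h1, h1'⟩ | ⟨h1, h1'⟩ <;> rcases h2 with ⟨h2, h2'⟩ | ⟨h2, h2'⟩
    · have : f (f a) = a := by rw [h1, h2]
      have := periodic2_fixed hf this
      exact hab (by rw [← h1, this])
    · rw [h1'] at h2'; exact absurd h2' (by simp)
    · rw [h2'] at h1'; exact absurd h1' (by simp)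
    · have : f (f a) = a := by rw [h2, h1]
      have := periodic2_fixed hf this
      exact hab (by rw [← h2, this])
  · obtain ⟨r, hr⟩ := hf
    have hf : IsRT f := ⟨r, hr⟩
    rw [SimpleGraph.isTree_iff_connected_and_card]
    have hreach : ∀ k x, f^[k] x = r →
        (SimpleGraph.fromRel (fun a b => mk f σ a b = true)).Reachable x r := by
      intro k
      induction k with
      | zero => intro x hx; rw [show x = r from hx]
      | succ k ih =>
        intro x hx
        rw [Function.iterate_succ_apply] at hx
        have h1 := ih _ hx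
        by_cases hfx : f x = x
        · rw [hfx] at h1; exact h1
        · refine SimpleGraph.Reachable.trans (SimpleGraph.Adj.reachable ?_) h1
          rw [mk_adj]
          exact ⟨fun h => hfx h.symm, Or.inl rfl⟩
    constructor
    · haveI : Nonempty α := ⟨r⟩
      refine ⟨?_⟩
      intro x y
      obtain ⟨k, hk⟩ := hr.2 x
      obtain ⟨l, hl⟩ := hr.2 y
      exact (hreach k x hk).trans (hreach l y hl).symm
    · have := Fintype.ofFinite α
      have hbij : Function.Bijective (fun v : {v : α // v ≠ r} =>
          (⟨s(v.1, f v.1), by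
            rw [SimpleGraph.mem_edgeSet, mk_adj]
            refine ⟨fun h => v.2 (hr.unique h.symm), Or.inl rfl⟩⟩ :
            (SimpleGraph.fromRel (fun a b => mk f σ a b = true)).edgeSet)) := by
        constructor
        · intro u v huv
          have h1 : s(u.1, f u.1) = s(v.1, f v.1) := congrArg Subtype.val huv
          rw [Sym2.eq_iff] at h1
          rcases h1 with ⟨h1, _⟩ | ⟨h1, h2⟩
          · exact Subtype.ext h1
          · exfalso
            have : f (f v.1) = v.1 := by rw [← h1, h2]
            exact v.2 (hr.unique (periodic2_fixed hf this))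
        · rintro ⟨e, he⟩
          induction e using Sym2.ind with
          | _ a b =>
            rw [SimpleGraph.mem_edgeSet, mk_adj] at he
            obtain ⟨hab, h1 | h1⟩ := he
            · refine ⟨⟨a, ?_⟩, ?_⟩
              · rintro rfl; exact hab (by rw [← h1, hr.1])
              · apply Subtype.ext
                simp only [h1]
            · refine ⟨⟨b, ?_⟩, ?_⟩
              · rintro rfl; exact hab (by rw [← h1, hr.1])
              · apply Subtype.ext
                simp only [h1]
                exact Sym2.eq_swap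
      have hc := Nat.card_eq_of_bijective _ hbij
      rw [← hc, Nat.card_eq_fintype_card, Nat.card_eq_fintype_card]
      have h1 : Fintype.card {v : α // v ≠ r} = Fintype.card α - 1 := by
        rw [Fintype.card_subtype_compl, Fintype.card_subtype_eq]
      have h2 : 0 < Fintype.card α := Fintype.card_pos_iff.mpr ⟨r⟩
      omega

/-- every oriented tree can be rooted anywhere. -/
theorem exists_parent [Finite α] {E : α → α → Bool} (hE : IsOT E) (r : α) :
    ∃ f : α → α, IsRTr f r ∧
      (∀ a b, (E a b = true ∨ E b a = true) ↔ (a ≠ b ∧ (f a = b ∨ f b = a))) := by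
  classical
  have := Fintype.ofFinite α
  obtain ⟨hE1, hT⟩ := hE
  set G := SimpleGraph.fromRel (fun a b => E a b = true) with hG
  have hconn := hT.connected
  -- choose parents by distance
  have hpar : ∀ v, v ≠ r → ∃ w, G.Adj v w ∧ G.dist w r + 1 = G.dist v r := by
    intro v hv
    obtain ⟨p, hp⟩ := (hconn v r).exists_walk_length_eq_dist
    cases p with
    | nil => exact absurd rfl hv
    | @cons _ w _ h q =>
      refine ⟨w, h, ?_⟩
      rw [SimpleGraph.Walk.length_cons] at hp
      have h1 : G.dist w r ≤ q.length := SimpleGraph.dist_le q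
      have h2 : G.dist v r ≤ G.dist w r + 1 := by
        obtain ⟨q', hq'⟩ := (hconn w r).exists_walk_length_eq_dist
        have := SimpleGraph.dist_le (SimpleGraph.Walk.cons h q')
        rw [SimpleGraph.Walk.length_cons, hq'] at this
        exact this
      omega
  choose! par hpar1 hpar2 using hpar
  set f : α → α := fun v => if v = r then r else par v with hf
  have hfr : f r = r := by simp [hf]
  have hfv : ∀ v, v ≠ r → f v = par v := by intro v hv; simp [hf, hv]
  have hroot : IsRTr f r := by
    refine ⟨hfr, ?_⟩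
    have : ∀ d v, G.dist v r = d → ∃ k, f^[k] v = r := by
      intro d
      induction d with
      | zero =>
        intro v hv
        refine ⟨0, ?_⟩
        rw [hconn.dist_eq_zero_iff] at hv
        exact hv
      | succ d ih =>
        intro v hv
        have hvr : v ≠ r := by
          rintro rfl
          rw [SimpleGraph.dist_self] at hv
          omega
        obtain ⟨k, hk⟩ := ih (f v) (by
          rw [hfv v hvr]
          have := hpar2 v hvr
          omega)
        exact ⟨k + 1, by rw [Function.iterate_succ_apply]; exact hk⟩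
    intro x
    exact this _ x rfl
  refine ⟨f, hroot, ?_⟩
  -- edges
  have hadj : ∀ a b, G.Adj a b ↔ a ≠ b ∧ (E a b = true ∨ E b a = true) := by
    intro a b
    rw [hG, SimpleGraph.fromRel_adj]
  have hself : ∀ a, E a a ≠ true := fun a h => hE1 a a ⟨h, h⟩
  have hadj' : ∀ a b, (E a b = true ∨ E b a = true) ↔ G.Adj a b := by
    intro a b
    rw [hadj]
    constructor
    · intro h
      refine ⟨?_, h⟩
      rintro rfl
      rcases h with h | h <;> exact hself _ h
    · exact fun h => h.2
  -- injection of non-roots into edges, onto by cardinality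
  let F : {v : α // v ≠ r} → G.edgeSet := fun v =>
    ⟨s(v.1, f v.1), by rw [SimpleGraph.mem_edgeSet, hfv v.1 v.2]; exact hpar1 v.1 v.2⟩
  have hFinj : Function.Injective F := by
    intro u v huv
    have h1 : s(u.1, f u.1) = s(v.1, f v.1) := congrArg Subtype.val huv
    rw [Sym2.eq_iff] at h1
    rcases h1 with ⟨h1, _⟩ | ⟨h1, h2⟩
    · exact Subtype.ext h1
    · exfalso
      have h3 := hpar2 u.1 u.2
      have h4 := hpar2 v.1 v.2
      rw [← hfv u.1 u.2, h2] at h3
      rw [← hfv v.1 v.2, ← h1] at h4
      omega
  have hcard : Fintype.card {v : α // v ≠ r} = Fintype.card G.edgeSet := by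
    have h1 : Fintype.card {v : α // v ≠ r} = Fintype.card α - 1 := by
      rw [Fintype.card_subtype_compl, Fintype.card_subtype_eq]
    have h2 := (SimpleGraph.isTree_iff_connected_and_card.mp hT).2
    rw [Nat.card_eq_fintype_card, Nat.card_eq_fintype_card] at h2
    omega
  have hFbij : Function.Bijective F := by
    rw [Fintype.bijective_iff_injective_and_card]
    exact ⟨hFinj, hcard⟩
  intro a b
  rw [hadj']
  constructor
  · intro h
    refine ⟨h.ne, ?_⟩
    obtain ⟨v, hv⟩ := hFbij.2 ⟨s(a, b), by rw [SimpleGraph.mem_edgeSet]; exact h⟩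
    have h1 : s(v.1, f v.1) = s(a, b) := congrArg Subtype.val hv
    rw [Sym2.eq_iff] at h1
    rcases h1 with ⟨h1, h2⟩ | ⟨h1, h2⟩
    · left; rw [← h1]; exact h2
    · right; rw [← h1]; exact h2
  · rintro ⟨hab, h | h⟩
    · have har : a ≠ r := by rintro rfl; rw [hfr] at h; exact hab h
      rw [← h, hfv a har]; exact hpar1 a har
    · have hbr : b ≠ r := by rintro rfl; rw [hfr] at h; exact hab h.symm
      rw [← h, hfv b hbr]; exact (hpar1 b hbr).symm

/-- recover an oriented tree from its parent map and orientation. -/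
theorem mk_parent {E : α → α → Bool} (hE : ∀ a b, ¬ (E a b = true ∧ E b a = true))
    {f : α → α} {σ : α → Bool} (hf : ∀ a b, (E a b = true ∨ E b a = true) ↔
      (a ≠ b ∧ (f a = b ∨ f b = a)))
    (hσ : ∀ a, f a ≠ a → σ a = E a (f a)) : mk f σ = E := by
  funext a b
  have key : mk f σ a b = true ↔ E a b = true := by
    rw [mk_apply]
    constructor
    · rintro ⟨hab, ⟨h1, h2⟩ | ⟨h1, h2⟩⟩
      · have : f a ≠ a := by rw [h1]; exact hab.symm
        rw [hσ a this, h1] at h2
        exact h2
      · have : f b ≠ b := by rw [h1]; exact hab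
        rw [hσ b this, h1] at h2
        have h3 := (hf a b).mpr ⟨hab, Or.inr h1⟩
        rcases h3 with h3 | h3
        · exact h3
        · rw [h2] at h3; exact absurd h3 (by simp)
    · intro h
      obtain ⟨hab, h1⟩ := (hf a b).mp (Or.inl h)
      refine ⟨hab, ?_⟩
      rcases h1 with h1 | h1
      · left
        refine ⟨h1, ?_⟩
        rw [hσ a (by rw [h1]; exact hab.symm), h1]
        exact h
      · right
        refine ⟨h1, ?_⟩
        rw [hσ b (by rw [h1]; exact hab), h1]
        cases hb : E b a
        · rfl
        · exact absurd ⟨h, hb⟩ (hE a b)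
  cases h1 : mk f σ a b <;> cases h2 : E a b
  · rfl
  · rw [key.mpr h2] at h1; exact absurd h1 (by simp)
  · rw [key.mp h1] at h2; exact absurd h2 (by simp)
  · rfl

/-- the parent map and orientation are determined by the oriented tree and the root. -/
theorem mk_unique {f f' : α → α} {σ σ' : α → Bool} {r : α} (hf : IsRTr f r) (hf' : IsRTr f' r)
    (h : mk f σ = mk f' σ') : f = f' ∧ ∀ a, a ≠ r → σ a = σ' a := by
  have hfT : IsRT f := ⟨r, hf⟩
  have hadj : ∀ a b, (a ≠ b ∧ (f a = b ∨ f b = a)) ↔ (a ≠ b ∧ (f' a = b ∨ f' b = a)) := by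
    intro a b
    rw [← mk_adj (σ := σ), ← mk_adj (σ := σ'), h]
  have key : ∀ k x, f^[k] x = r → f x = f' x := by
    intro k
    induction k with
    | zero =>
      intro x hx
      have : x = r := hx
      rw [this, hf.1, hf'.1]
    | succ k ih =>
      intro x hx
      by_cases hxr : x = r
      · rw [hxr, hf.1, hf'.1]
      · rw [Function.iterate_succ_apply] at hx
        have h1 := ih _ hx
        have hne : x ≠ f x := fun h' => hxr (hf.unique h'.symm)
        have h2 := (hadj x (f x)).mp ⟨hne, Or.inl rfl⟩
        rcases h2.2 with h3 | h3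
        · exact h3.symm
        · rw [← h1] at h3
          exact absurd (periodic2_fixed hfT h3).symm hne
  have hff : f = f' := by
    funext x
    obtain ⟨k, hk⟩ := hf.2 x
    exact key k x hk
  subst hff
  refine ⟨rfl, ?_⟩
  intro a ha
  have hne : f a ≠ a := fun h' => ha (hf.unique h')
  have h1 : ∀ τ : α → Bool, mk f τ a (f a) = τ a := by
    intro τ
    cases hτ : τ a
    · by_contra hcon
      have : mk f τ a (f a) = true := by
        cases h5 : mk f τ a (f a)
        · exact absurd h5 hcon
        · rfl
      rw [mk_apply] at this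
      rcases this with ⟨_, ⟨_, h7⟩ | ⟨h7, _⟩⟩
      · rw [hτ] at h7; exact absurd h7 (by simp)
      · exact hne (periodic2_fixed hfT h7)
    · rw [mk_apply]
      exact ⟨hne.symm, Or.inl ⟨rfl, hτ⟩⟩
  rw [← h1 σ, ← h1 σ', h]

end

end Pool.Agent.Work.MP_2709b3_lc
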