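import Pool.Agent.Work.MP_2709b3_lc.Orient

set_option autoImplicit false

namespace Pool.Agent.Work.MP_2709b3_lc

section
variable {V α : Type*}

/-- the forest on `α` induced by a pattern `π` embedded by `φ`. -/
noncomputable def gmap (φ : V → α) (π : V → V) : α → α := Function.extend φ (φ ∘ π) id

theorem gmap_apply {φ : V → α} (hφ : Function.Injective φ) (π : V → V) (v : V) :
    gmap φ π (φ v) = φ (π v) := hφ.extend_apply _ _ _

theorem gmap_of_not {φ : V → α} {π : V → V} {x : α} (h : ¬ ∃ v, φ v = x) : gmap φ π x = x :=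
  Function.extend_apply' _ _ _ h

theorem gmap_iterate {φ : V → α} (hφ : Function.Injective φ) (π : V → V) (k : ℕ) (v : V) :
    (gmap φ π)^[k] (φ v) = φ (π^[k] v) := by
  induction k with
  | zero => rfl
  | succ k ih => rw [Function.iterate_succ_apply', Function.iterate_succ_apply', ih, gmap_apply hφ]

theorem isForest_gmap {φ : V → α} (hφ : Function.Injective φ) {π : V → V} (hπ : IsForest π) :
    IsForest (gmap φ π) := by
  intro x
  by_cases hx : ∃ v, φ v = x
  · obtain ⟨v, rfl⟩ := hx
    obtain ⟨k, hk⟩ := hπ v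
    refine ⟨k, ?_⟩
    rw [gmap_iterate hφ, gmap_apply hφ, hk]
  · exact ⟨0, gmap_of_not hx⟩

theorem gmap_ne_iff {φ : V → α} (hφ : Function.Injective φ) {π : V → V} {x : α} :
    gmap φ π x ≠ x ↔ ∃ v, φ v = x ∧ π v ≠ v := by
  constructor
  · intro h
    by_cases hx : ∃ v, φ v = x
    · obtain ⟨v, rfl⟩ := hx
      refine ⟨v, rfl, ?_⟩
      intro h2
      rw [gmap_apply hφ, h2] at h
      exact h rfl
    · exact absurd (gmap_of_not hx) h
  · rintro ⟨v, rfl, h⟩ h2
    rw [gmap_apply hφ] at h2
    exact h (hφ h2)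

/-- the non-roots of a pattern. -/
noncomputable def nonfix [Fintype V] (π : V → V) : Finset V := by
  classical
  exact Finset.univ.filter (fun v => π v ≠ v)

theorem mem_nonfix [Fintype V] {π : V → V} {v : V} : v ∈ nonfix π ↔ π v ≠ v := by
  classical
  simp [nonfix]

theorem card_fixedPts_gmap [Fintype V] [Fintype α] {φ : V → α} (hφ : Function.Injective φ)
    (π : V → V) : (fixedPts (gmap φ π)).card + (nonfix π).card = Fintype.card α := by
  classical
  have h1 : (fixedPts (gmap φ π))ᶜ = (nonfix π).image φ := by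
    ext x
    rw [Finset.mem_compl, mem_fixedPts, Finset.mem_image]
    rw [show (¬ gmap φ π x = x) ↔ gmap φ π x ≠ x from Iff.rfl, gmap_ne_iff hφ]
    constructor
    · rintro ⟨v, h1, h2⟩; exact ⟨v, mem_nonfix.mpr h2, h1⟩
    · rintro ⟨v, h1, h2⟩; exact ⟨v, h2, mem_nonfix.mp h1⟩
  have h2 := Finset.card_compl (fixedPts (gmap φ π))
  rw [h1, Finset.card_image_of_injective _ hφ] at h2
  have h3 : (fixedPts (gmap φ π)).card ≤ Fintype.card α := Finset.card_le_univ _
  omega

open Classical in
theorem card_Ext_gmap [Fintype V] [Fintype α] {φ : V → α} (hφ : Function.Injective φ)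
    {π : V → V} (hπ : IsForest π) (C : Finset V) (hC : ∀ v ∈ C, π v ≠ v)
    (hlt : (nonfix π).card < Fintype.card α) :
    (Ext (gmap φ π) (C.image φ)).card =
      (Fintype.card α - C.card) ^ (Fintype.card α - (nonfix π).card - 1) := by
  rw [card_Ext (Fintype.card α - (nonfix π).card - 1) (gmap φ π) (C.image φ)
    (isForest_gmap hφ hπ)]
  · rw [Finset.card_image_of_injective _ hφ]
  · intro x hx
    rw [Finset.mem_image] at hx
    obtain ⟨v, hv, rfl⟩ := hx
    rw [gmap_ne_iff hφ]
    exact ⟨v, rfl, hC v hv⟩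
  · have := card_fixedPts_gmap hφ π
    omega

theorem nonfix_card_of_root [Fintype V] {π : V → V} {ρ : V} (hπ : IsRTr π ρ) :
    (nonfix π).card + 1 = Fintype.card V := by
  classical
  have h1 : nonfix π = Finset.univ.erase ρ := by
    ext v
    rw [mem_nonfix, Finset.mem_erase]
    constructor
    · intro h
      refine ⟨?_, Finset.mem_univ _⟩
      rintro rfl
      exact h hπ.1
    · rintro ⟨h, _⟩ h2
      exact h (hπ.unique h2)
  rw [h1, Finset.card_erase_of_mem (Finset.mem_univ _), Finset.card_univ]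
  have : 0 < Fintype.card V := Fintype.card_pos_iff.mpr ⟨ρ⟩
  omega

open Classical in
/-- rooted trees with a given root containing an embedded rooted pattern. -/
noncomputable def RootedExt [Fintype α] (φ : V → α) (π : V → V) (ρ : V) : Finset (α → α) :=
  Finset.univ.filter (fun f => IsRTr f (φ ρ) ∧ ∀ v, f (φ v) = φ (π v))

theorem mem_RootedExt [Fintype α] {φ : V → α} {π : V → V} {ρ : V} {f : α → α} :
    f ∈ RootedExt φ π ρ ↔ IsRTr f (φ ρ) ∧ ∀ v, f (φ v) = φ (π v) := by
  classical
  unfold RootedExt
  simp only [Finset.mem_filter, Finset.mem_univ, true_and]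

theorem card_RootedExt [Fintype V] [Fintype α] {φ : V → α} (hφ : Function.Injective φ)
    {π : V → V} {ρ : V} (hπ : IsRTr π ρ) :
    (RootedExt φ π ρ).card * Fintype.card α =
      Fintype.card V * Fintype.card α ^ (Fintype.card α - Fintype.card V) := by
  classical
  set n := Fintype.card α with hn
  set m := Fintype.card V with hm
  have hm0 : 0 < m := Fintype.card_pos_iff.mpr ⟨ρ⟩
  have hmn : m ≤ n := Fintype.card_le_of_injective φ hφ
  have hnf : (nonfix π).card + 1 = m := nonfix_card_of_root hπ
  set g := gmap φ π with hg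
  have hgF : IsForest g := isForest_gmap hφ hπ.isForest
  have hgr : g (φ ρ) = φ ρ := by rw [hg, gmap_apply hφ, hπ.1]
  have htot : (Ext g ∅).card = n ^ (n - m) := by
    rw [card_Ext (n - m) g ∅ hgF (by simp)]
    · simp [hn]
    · have := card_fixedPts_gmap hφ π
      rw [← hg, ← hn] at this
      omega
  -- split according to whether φ ρ is the root
  have hS : RootedExt φ π ρ = (Ext g ∅).filter (fun f => f (φ ρ) = φ ρ) := by
    ext f
    rw [Finset.mem_filter, mem_Ext, mem_RootedExt]
    constructor
    · rintro ⟨h1, h2⟩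
      refine ⟨⟨⟨_, h1⟩, ?_, by simp⟩, h1.1⟩
      intro x hx
      rw [hg, gmap_ne_iff hφ] at hx
      obtain ⟨v, rfl, _⟩ := hx
      rw [h2, hg, gmap_apply hφ]
    · rintro ⟨⟨⟨r, hr⟩, h2, _⟩, h3⟩
      have : φ ρ = r := hr.unique h3
      refine ⟨by rw [this]; exact hr, ?_⟩
      intro v
      by_cases hv : π v = v
      · have : v = ρ := hπ.unique hv
        rw [this, h3, hπ.1]
      · have h4 : g (φ v) ≠ φ v := by rw [hg, gmap_ne_iff hφ]; exact ⟨v, rfl, hv⟩
        rw [h2 _ h4, hg, gmap_apply hφ]
  have hsplit : (Ext g ∅).card = (RootedExt φ π ρ).card +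
      ((Ext g ∅).filter (fun f => f (φ ρ) ≠ φ ρ)).card := by
    rw [hS]
    exact (Finset.card_filter_add_card_filter_not _).symm
  have hrt : ∀ w, rt g w ≠ φ ρ ↔ ¬ ∃ v, φ v = w := by
    intro w
    constructor
    · rintro h ⟨v, rfl⟩
      apply h
      obtain ⟨k, hk⟩ := hπ.2 v
      exact rt_eq_of (k := k) (by rw [hg, gmap_iterate hφ, hk]) hgr
    · intro h h2
      rw [rt_of_fixed (gmap_of_not h)] at h2
      exact h ⟨ρ, h2.symm⟩
  have hother : ((Ext g ∅).filter (fun f => f (φ ρ) ≠ φ ρ)).card =
      (n - m) * n ^ (n - m - 1) := by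
    rw [Finset.card_eq_sum_card_fiberwise (f := fun f : α → α => f (φ ρ)) (t := Finset.univ)
        (fun _ _ => Finset.mem_univ _)]
    have h1 : ∀ w ∈ (Finset.univ : Finset α),
        (((Ext g ∅).filter (fun f => f (φ ρ) ≠ φ ρ)).filter (fun f => f (φ ρ) = w)).card =
        if w ∉ Finset.univ.image φ then n ^ (n - m - 1) else 0 := by
      intro w _
      rw [Finset.filter_filter, filter_Ext_eq hgF hgr w]
      by_cases hw : ∃ v, φ v = w
      · rw [if_neg, if_neg]
        · simp
        · simp [hw]
        · rintro ⟨_, h⟩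
          exact (hrt w).mp h hw
      · rw [if_pos ⟨by simp, (hrt w).mpr hw⟩, if_pos (by simpa using hw)]
        have hwv : w ≠ φ ρ := fun h => hw ⟨ρ, h.symm⟩
        have hlt : m < n := by
          by_contra hcon
          have hmn' : m = n := le_antisymm hmn (not_lt.mp hcon)
          have hbij : Function.Bijective φ := by
            rw [Fintype.bijective_iff_injective_and_card]
            exact ⟨hφ, hmn'⟩
          exact hw (hbij.2 w)
        rw [card_Ext (n - m - 1) _ ∅ (isForest_update hgF hgr ((hrt w).mpr hw)) (by simp)]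
        · simp [hn]
        · apply card_fixedPts_update hgr hwv
          have := card_fixedPts_gmap hφ π
          rw [← hg, ← hn] at this
          omega
    rw [Finset.sum_congr rfl h1, ← Finset.sum_filter, Finset.sum_const, smul_eq_mul]
    congr 1
    have h2 : (Finset.univ.filter (fun w => w ∉ Finset.univ.image φ)) = (Finset.univ.image φ)ᶜ := by
      ext w; simp
    rw [h2, Finset.card_compl, Finset.card_image_of_injective _ hφ, Finset.card_univ]
  rw [htot, hother] at hsplit
  rcases Nat.lt_or_ge m n with hlt | hge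
  · obtain ⟨d, hd⟩ := Nat.exists_eq_add_of_lt hlt
    have h1 : n - m = d + 1 := by omega
    rw [h1] at hsplit ⊢
    have h2 : d + 1 - 1 = d := rfl
    rw [h2] at hsplit
    have h3 : (d + 1) * n ^ d ≤ n ^ (d + 1) := by
      rw [pow_succ, Nat.mul_comm]
      exact Nat.mul_le_mul_left _ (by omega)
    have h4 : (RootedExt φ π ρ).card = m * n ^ d := by
      have h5 : n ^ (d + 1) = m * n ^ d + (d + 1) * n ^ d := by
        rw [← Nat.add_mul, show m + (d + 1) = n by omega, pow_succ, Nat.mul_comm]
      omega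
    rw [h4, pow_succ, Nat.mul_assoc]
  · have h1 : n - m = 0 := by omega
    have h2 : m = n := by omega
    rw [h1] at hsplit ⊢
    simp only [pow_zero, zero_mul, add_zero, mul_one] at hsplit ⊢
    rw [← hsplit, h2, one_mul]

end

end Pool.Agent.Work.MP_2709b3_lc
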