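import Pool.Agent.Work.MP_2709b3_lc.Spine
import Pool.Agent.Work.MP_2709b3_lc.Descend

set_option autoImplicit false

namespace Pool.Agent.Work.MP_2709b3_lc

/-- a constant -/
@[irreducible] def M36 : ℕ := 36 ^ 36

theorem M36_eq : M36 = 36 ^ 36 := by unfold M36; rfl

open Classical in
/-- size of an intersection -/
noncomputable def icard {β : Type*} (A B : Finset β) : ℕ := (A ∩ B).card

theorem icard_eq {β : Type*} [DecidableEq β] (A B : Finset β) : icard A B = (A ∩ B).card := by
  unfold icard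
  refine congrArg Finset.card (Finset.ext fun x => ?_)
  simp only [Finset.mem_inter]

/-- overlapping embeddings -/
def Ovl {V α : Type*} (φ ψ : V ↪ α) : Prop := ∃ v w, φ v = ψ w

section
variable {α : Type*} [Fintype α]

open Classical in
/-- parent maps containing the closed pattern at `φ` -/
noncomputable def ExtS (a k : ℕ) (φ : SV k ↪ α) : Finset (α → α) :=
  Ext (gmap φ (sπ a k)) ((sC a k).image φ)

/-- occurrences of the oriented closed pattern at `φ` -/
noncomputable def OccS (a k : ℕ) (φ : SV k ↪ α) : Finset ((α → α) × (α → Bool)) :=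
  (ExtS a k φ) ×ˢ (Bits φ (nonfix (sπ a k)) (sb a k))

theorem ExtS_tree {a k : ℕ} {φ : SV k ↪ α} {f : α → α} (h : f ∈ ExtS a k φ) : IsRT f :=
  (mem_Ext.mp h).1

theorem ExtS_par {a k : ℕ} {φ : SV k ↪ α} {f : α → α} (h : f ∈ ExtS a k φ) {v : SV k}
    (hv : sπ a k v ≠ v) : f (φ v) = φ (sπ a k v) := by
  have h1 := (mem_Ext.mp h).2.1 (φ v) (by
    rw [gmap_ne_iff φ.injective]; exact ⟨v, rfl, hv⟩)
  rw [h1, gmap_apply φ.injective]

theorem ExtS_closed {a k : ℕ} {φ : SV k ↪ α} {f : α → α} (h : f ∈ ExtS a k φ) {x : α}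
    {v : SV k} (hv : v ∈ sC a k) (hx : f x = φ v) :
    ∃ u, φ u = x ∧ sπ a k u ≠ u ∧ sπ a k u = v := by
  classical
  have h1 : gmap φ (sπ a k) x ≠ x := by
    intro hcon
    apply (mem_Ext.mp h).2.2 x hcon
    rw [Finset.mem_image]
    exact ⟨v, hv, hx.symm⟩
  rw [gmap_ne_iff φ.injective] at h1
  obtain ⟨u, hu, hu2⟩ := h1
  refine ⟨u, hu, hu2, ?_⟩
  apply φ.injective
  rw [← ExtS_par h hu2, hu, hx]

theorem OccS_isOcc {a k : ℕ} {φ : SV k ↪ α} {f : α → α} {σ : α → Bool}
    (h : (f, σ) ∈ OccS a k φ) : IsOcc a k f σ φ := by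
  unfold OccS at h
  rw [Finset.mem_product] at h
  obtain ⟨h1, h2⟩ := h
  refine ⟨ExtS_tree h1, φ.injective, fun v hv => ExtS_par h1 hv, ?_, ?_⟩
  · intro x hx v hv hfx
    obtain ⟨u, hu1, hu2, _⟩ := ExtS_closed h1 hv hfx
    exact hu2 (hx u hu1)
  · intro v hv
    exact mem_Bits.mp h2 v (mem_nonfix.mpr hv)

theorem card_ExtS {a k : ℕ} (hak : a < k) (φ : SV k ↪ α) (hn : k + 36 < Fintype.card α) :
    (ExtS a k φ).card = (Fintype.card α - 37) ^ (Fintype.card α - (k + 36) - 1) := by
  classical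
  unfold ExtS
  have h1 := card_Ext_gmap φ.injective (s_isRTr (le_of_lt hak)).isForest (sC a k) (sC_nonfix hak)
    (by rw [s_nonfix (le_of_lt hak)]; exact hn)
  rw [h1, s_nonfix (le_of_lt hak), card_sC]

theorem card_bitsS {a k : ℕ} (hak : a < k) (φ : SV k ↪ α) :
    (Bits φ (nonfix (sπ a k)) (sb a k)).card = 2 ^ (Fintype.card α - (k + 36)) := by
  rw [card_bits φ.injective, s_nonfix (le_of_lt hak)]

theorem card_OccS {a k : ℕ} (hak : a < k) (φ : SV k ↪ α) (hn : k + 36 < Fintype.card α) :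
    (OccS a k φ).card = (Fintype.card α - 37) ^ (Fintype.card α - (k + 36) - 1) *
      2 ^ (Fintype.card α - (k + 36)) := by
  unfold OccS
  rw [Finset.card_product, card_ExtS hak φ hn, card_bitsS hak φ]

/-! ### disjoint pairs -/

theorem nonfix_sum {V : Type*} [Fintype V] (π : V → V) :
    (nonfix (Sum.map π π)).card = 2 * (nonfix π).card := by
  classical
  have h1 : nonfix (Sum.map π π) = (nonfix π).disjSum (nonfix π) := by
    ext v
    rw [mem_nonfix, Finset.mem_disjSum]
    constructor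
    · intro h
      rcases v with v | v
      · left; exact ⟨v, mem_nonfix.mpr (fun h2 => h (by simp [h2])), rfl⟩
      · right; exact ⟨v, mem_nonfix.mpr (fun h2 => h (by simp [h2])), rfl⟩
    · rintro (⟨v, hv, rfl⟩ | ⟨v, hv, rfl⟩)
      · rw [mem_nonfix] at hv
        intro h; exact hv (Sum.inl_injective h)
      · rw [mem_nonfix] at hv
        intro h; exact hv (Sum.inr_injective h)
  rw [h1, Finset.card_disjSum]
  ring

theorem isForest_sum {V : Type*} {π : V → V} (h : IsForest π) : IsForest (Sum.map π π) := by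
  have h1 : ∀ k v, (Sum.map π π)^[k] (Sum.inl v) = Sum.inl (π^[k] v) := by
    intro k
    induction k with
    | zero => intro v; rfl
    | succ k ih => intro v; rw [Function.iterate_succ_apply, Function.iterate_succ_apply,
        Sum.map_inl, ih]
  have h2 : ∀ k v, (Sum.map π π)^[k] (Sum.inr v) = Sum.inr (π^[k] v) := by
    intro k
    induction k with
    | zero => intro v; rfl
    | succ k ih => intro v; rw [Function.iterate_succ_apply, Function.iterate_succ_apply,
        Sum.map_inr, ih]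
  rintro (v | v)
  · obtain ⟨k, hk⟩ := h v
    exact ⟨k, by rw [h1, Sum.map_inl, hk]⟩
  · obtain ⟨k, hk⟩ := h v
    exact ⟨k, by rw [h2, Sum.map_inr, hk]⟩

open Classical in
theorem card_OccS_inter_disjoint {a k : ℕ} (hak : a < k) (φ ψ : SV k ↪ α)
    (hn : 2 * (k + 36) < Fintype.card α) (hdis : ∀ v w, φ v ≠ ψ w) :
    icard (OccS a k φ) (OccS a k ψ) ≤
      (Fintype.card α - 74) ^ (Fintype.card α - 2 * (k + 36) - 1) *
        2 ^ (Fintype.card α - 2 * (k + 36)) := by
  rw [icard_eq]
  set Φ : SV k ⊕ SV k → α := Sum.elim φ ψ with hΦ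
  have hΦinj : Function.Injective Φ := by
    rw [hΦ]
    exact Function.Injective.sumElim φ.injective ψ.injective hdis
  set QQ := Sum.map (sπ a k) (sπ a k) with hQ
  set C2 := (sC a k).disjSum (sC a k) with hC2
  set b2 : SV k ⊕ SV k → Bool := Sum.elim (sb a k) (sb a k) with hb2
  have hsub : OccS a k φ ∩ OccS a k ψ ⊆
      (Ext (gmap Φ QQ) (C2.image Φ)) ×ˢ (Bits Φ (nonfix QQ) b2) := by
    rintro ⟨f, σ⟩ h
    rw [Finset.mem_inter] at h
    obtain ⟨h1, h2⟩ := h
    unfold OccS at h1 h2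
    rw [Finset.mem_product] at h1 h2 ⊢
    refine ⟨?_, ?_⟩
    · rw [mem_Ext]
      refine ⟨ExtS_tree h1.1, ?_, ?_⟩
      · intro x hx
        rw [gmap_ne_iff hΦinj] at hx
        obtain ⟨v, rfl, hv⟩ := hx
        rw [gmap_apply hΦinj]
        rcases v with v | v
        · simp only [hΦ, hQ, Sum.elim_inl, Sum.map_inl]
          exact ExtS_par h1.1 (fun h => hv (by simp [hQ, h]))
        · simp only [hΦ, hQ, Sum.elim_inr, Sum.map_inr]
          exact ExtS_par h2.1 (fun h => hv (by simp [hQ, h]))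
      · intro x hx hmem
        rw [Finset.mem_image] at hmem
        obtain ⟨v, hv, hvx⟩ := hmem
        rw [hC2, Finset.mem_disjSum] at hv
        apply absurd hx
        rw [← ne_eq, gmap_ne_iff hΦinj]
        rcases hv with ⟨w, hw, rfl⟩ | ⟨w, hw, rfl⟩
        · obtain ⟨u, hu1, hu2, _⟩ := ExtS_closed h1.1 hw hvx.symm
          exact ⟨Sum.inl u, hu1, fun h => hu2 (Sum.inl_injective h)⟩
        · obtain ⟨u, hu1, hu2, _⟩ := ExtS_closed h2.1 hw hvx.symm
          exact ⟨Sum.inr u, hu1, fun h => hu2 (Sum.inr_injective h)⟩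
    · rw [mem_Bits]
      intro v hv
      rw [mem_nonfix] at hv
      rcases v with v | v
      · exact mem_Bits.mp h1.2 v (mem_nonfix.mpr (fun h => hv (by simp [hQ, h])))
      · exact mem_Bits.mp h2.2 v (mem_nonfix.mpr (fun h => hv (by simp [hQ, h])))
  refine (Finset.card_le_card hsub).trans ?_
  have h3 : (nonfix QQ).card = 2 * (k + 36) := by
    rw [hQ, nonfix_sum, s_nonfix (le_of_lt hak)]
  have h4 : C2.card = 74 := by
    rw [hC2, Finset.card_disjSum, card_sC]
  rw [Finset.card_product, card_bits hΦinj, h3]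
  rw [card_Ext_gmap hΦinj (isForest_sum (s_isRTr (le_of_lt hak)).isForest) C2 ?_
    (by rw [h3]; exact hn), h3, h4]
  intro v hv
  rw [hC2, Finset.mem_disjSum] at hv
  rcases hv with ⟨w, hw, rfl⟩ | ⟨w, hw, rfl⟩
  · intro h; exact sC_nonfix hak w hw (Sum.inl_injective h)
  · intro h; exact sC_nonfix hak w hw (Sum.inr_injective h)

/-! ### overlapping pairs -/

theorem ExtS_spine_iter {a k : ℕ} {φ : SV k ↪ α} {f : α → α} (h : f ∈ ExtS a k φ) :
    ∀ j i, i + j ≤ k → f^[j] (φ (Sum.inl (cl k i))) = φ (Sum.inl (cl k (i + j))) := by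
  intro j
  induction j with
  | zero => intro i _; rfl
  | succ j ih =>
    intro i hi
    have h1 : sπ a k (Sum.inl (cl k i)) ≠ Sum.inl (cl k i) := by
      rw [sπ_inl_ne, cl_val (by omega)]; omega
    have h2 := ExtS_par h h1
    simp only [sπ] at h2
    rw [cl_val (by omega)] at h2
    rw [Function.iterate_succ_apply, h2, ih (i + 1) (by omega)]
    congr 3
    omega

/-- legs are sent to legs -/
theorem ExtS_legs {a k : ℕ} (hak : a < k) {ψ ψ₀ : SV k ↪ α} {f : α → α}
    (h : f ∈ ExtS a k ψ) (h₀ : f ∈ ExtS a k ψ₀)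
    (h0 : ψ (Sum.inl (cl k 0)) = ψ₀ (Sum.inl (cl k 0))) :
    ∀ l : Fin 36, ∃ l' : Fin 36, ψ (Sum.inr l) = ψ₀ (Sum.inr l') := by
  have hspine : ∀ i ≤ k, ψ (Sum.inl (cl k i)) = ψ₀ (Sum.inl (cl k i)) := by
    intro i hi
    have h1 := ExtS_spine_iter h i 0 (by omega)
    have h2 := ExtS_spine_iter h₀ i 0 (by omega)
    rw [Nat.zero_add] at h1 h2
    rw [← h1, ← h2, h0]
  have key : ∀ m, ∀ l : Fin 36, l.val ≤ m → ∃ l' : Fin 36, ψ (Sum.inr l) = ψ₀ (Sum.inr l') := by
    intro m
    induction m with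
    | zero =>
      intro l hl
      have hl0 : l.val % 12 = 0 := by omega
      have h1 := ExtS_par h (sπ_inr_ne (a := a) (l := l))
      simp only [sπ, if_pos hl0] at h1
      rw [hspine a (by omega)] at h1
      obtain ⟨u, hu1, hu2, hu3⟩ := ExtS_closed h₀ (by unfold sC; exact Finset.mem_insert_self _ _) h1
      rcases u with x | l'
      · exfalso
        have hx : x.val < k := sπ_inl_ne.mp hu2
        simp only [sπ] at hu3
        have h4 := congrArg Fin.val (Sum.inl_injective hu3)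
        rw [cl_val (by omega), cl_val (by omega)] at h4
        have h5 : ψ (Sum.inl x) = ψ₀ (Sum.inl x) := by
          have := hspine x.val (by omega)
          rw [cl_of_val] at this
          exact this
        rw [← h5] at hu1
        have := ψ.injective hu1
        simp at this
      · exact ⟨l', hu1.symm⟩
    | succ m ih =>
      intro l hl
      by_cases hl0 : l.val % 12 = 0
      · have h1 := ExtS_par h (sπ_inr_ne (a := a) (l := l))
        simp only [sπ, if_pos hl0] at h1
        rw [hspine a (by omega)] at h1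
        obtain ⟨u, hu1, hu2, hu3⟩ := ExtS_closed h₀
          (by unfold sC; exact Finset.mem_insert_self _ _) h1
        rcases u with x | l'
        · exfalso
          have hx : x.val < k := sπ_inl_ne.mp hu2
          simp only [sπ] at hu3
          have h4 := congrArg Fin.val (Sum.inl_injective hu3)
          rw [cl_val (by omega), cl_val (by omega)] at h4
          have h5 : ψ (Sum.inl x) = ψ₀ (Sum.inl x) := by
            have := hspine x.val (by omega)
            rw [cl_of_val] at this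
            exact this
          rw [← h5] at hu1
          have := ψ.injective hu1
          simp at this
        · exact ⟨l', hu1.symm⟩
      · have h1 := ExtS_par h (sπ_inr_ne (a := a) (l := l))
        simp only [sπ, if_neg hl0] at h1
        obtain ⟨l'', hl''⟩ := ih ⟨l.val - 1, by omega⟩ (by simp only; omega)
        rw [hl''] at h1
        obtain ⟨u, hu1, hu2, hu3⟩ := ExtS_closed h₀ (v := Sum.inr l'')
          (by
            unfold sC
            rw [Finset.mem_insert]
            right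
            rw [Finset.mem_map]
            exact ⟨l'', Finset.mem_univ _, rfl⟩) h1
        rcases u with x | l'
        · simp only [sπ] at hu3
          exact absurd hu3 (by simp)
        · exact ⟨l', hu1.symm⟩
  intro l
  exact key _ l le_rfl

open Classical in
theorem card_mult {a k : ℕ} (hak : a < k) (f : α → α) (x : α) :
    ((Finset.univ : Finset (SV k ↪ α)).filter
      (fun ψ => f ∈ ExtS a k ψ ∧ ψ (Sum.inl (cl k 0)) = x)).card ≤ M36 := by
  by_cases hne : ∃ ψ₀ : SV k ↪ α, f ∈ ExtS a k ψ₀ ∧ ψ₀ (Sum.inl (cl k 0)) = x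
  · obtain ⟨ψ₀, h₀, h₀x⟩ := hne
    have hleg : ∀ ψ : SV k ↪ α, ∃ c : Fin 36 → Fin 36, f ∈ ExtS a k ψ ∧
        ψ (Sum.inl (cl k 0)) = x → ∀ l, ψ (Sum.inr l) = ψ₀ (Sum.inr (c l)) := by
      intro ψ
      by_cases hψ : f ∈ ExtS a k ψ ∧ ψ (Sum.inl (cl k 0)) = x
      · have := ExtS_legs hak hψ.1 h₀ (by rw [hψ.2, h₀x])
        choose c hc using this
        exact ⟨c, fun _ => hc⟩
      · exact ⟨id, fun h => absurd h hψ⟩
    choose c hc using hleg
    have h1 : ((Finset.univ : Finset (SV k ↪ α)).filter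
      (fun ψ => f ∈ ExtS a k ψ ∧ ψ (Sum.inl (cl k 0)) = x)).card ≤
      (Finset.univ : Finset (Fin 36 → Fin 36)).card := by
      apply Finset.card_le_card_of_injOn c
      · intro ψ _
        simp only [Finset.coe_univ, Set.mem_univ]
      · intro ψ hψ ψ' hψ' hcc
        rw [Finset.mem_coe, Finset.mem_filter] at hψ hψ'
        apply DFunLike.ext
        rintro (y | l)
        · have h1 := ExtS_spine_iter hψ.2.1 y.val 0 (by omega)
          have h2 := ExtS_spine_iter hψ'.2.1 y.val 0 (by omega)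
          rw [Nat.zero_add, cl_of_val] at h1 h2
          rw [← h1, ← h2, hψ.2.2, hψ'.2.2]
        · rw [hc ψ hψ.2 l, hc ψ' hψ'.2 l, hcc]
    refine h1.trans ?_
    rw [Finset.card_univ, Fintype.card_fun, Fintype.card_fin, M36_eq]
  · have : ((Finset.univ : Finset (SV k ↪ α)).filter
      (fun ψ => f ∈ ExtS a k ψ ∧ ψ (Sum.inl (cl k 0)) = x)) = ∅ := by
      rw [Finset.filter_eq_empty_iff]
      intro ψ _ h
      exact hne ⟨ψ, h⟩
    rw [this, Finset.card_empty]
    exact Nat.zero_le _

theorem ExtS_to_top {a k : ℕ} (hak : a < k) {φ : SV k ↪ α} {f : α → α} (h : f ∈ ExtS a k φ)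
    (v : SV k) : ∃ j ≤ k + 12, f^[j] (φ v) = φ (Sum.inl (cl k k)) := by
  have hin : ∀ i ≤ k, f^[k - i] (φ (Sum.inl (cl k i))) = φ (Sum.inl (cl k k)) := by
    intro i hi
    have := ExtS_spine_iter h (k - i) i (by omega)
    rw [this]
    congr 3
    omega
  have hinr : ∀ m, ∀ l : Fin 36, l.val % 12 = m →
      f^[m + 1] (φ (Sum.inr l)) = φ (Sum.inl (cl k a)) := by
    intro m
    induction m with
    | zero =>
      intro l hl
      have h1 := ExtS_par h (sπ_inr_ne (a := a) (l := l))
      simp only [sπ, if_pos hl] at h1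
      rw [Function.iterate_succ_apply, h1]
      rfl
    | succ m ih =>
      intro l hl
      have h1 := ExtS_par h (sπ_inr_ne (a := a) (l := l))
      simp only [sπ, if_neg (show ¬ (l.val % 12 = 0) by omega)] at h1
      rw [Function.iterate_succ_apply, h1]
      apply ih
      simp only
      omega
  rcases v with x | l
  · refine ⟨k - x.val, by omega, ?_⟩
    have := hin x.val (by omega)
    rw [cl_of_val] at this
    exact this
  · refine ⟨(k - a) + (l.val % 12 + 1), by omega, ?_⟩
    rw [Function.iterate_add_apply, hinr _ l rfl]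
    exact hin a (le_of_lt hak)

theorem overlap_UD {a k : ℕ} (hak : a < k) {φ ψ : SV k ↪ α} {f : α → α}
    (h : f ∈ ExtS a k φ) (h' : f ∈ ExtS a k ψ) (hov : Ovl φ ψ) :
    ψ (Sum.inl (cl k 0)) ∈ UD f (φ (Sum.inl (cl k k))) (2 * k + 12) := by
  obtain ⟨v, w, hvw⟩ := hov
  obtain ⟨i, hi, hi2⟩ := ExtS_to_top hak h v
  obtain ⟨j, hj, hj2⟩ := ExtS_to_top hak h' w
  have hk : f^[k] (ψ (Sum.inl (cl k 0))) = ψ (Sum.inl (cl k k)) := by
    have := ExtS_spine_iter h' k 0 (by omega)
    rw [Nat.zero_add] at this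
    exact this
  rw [mem_UD]
  rcases Nat.le_total i j with hij | hij
  · refine ⟨j - i, by omega, k, by omega, ?_⟩
    rw [hk, ← hi2, ← hj2, ← hvw, ← Function.iterate_add_apply]
    congr 1
    rw [show j - i + i = j by omega]
  · refine ⟨0, by omega, (i - j) + k, by omega, ?_⟩
    rw [Function.iterate_add_apply, hk, ← hj2, ← hvw, ← Function.iterate_add_apply,
      show i - j + j = i by omega, hi2]
    rfl

open Classical in
theorem card_overlap {a k : ℕ} (hak : a < k) (φ : SV k ↪ α) {f : α → α}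
    (h : f ∈ ExtS a k φ) :
    ((Finset.univ : Finset (SV k ↪ α)).filter
      (fun ψ => Ovl φ ψ ∧ f ∈ ExtS a k ψ)).card ≤
      (UD f (φ (Sum.inl (cl k k))) (2 * k + 12)).card * M36 := by
  have h1 : ((Finset.univ : Finset (SV k ↪ α)).filter
      (fun ψ => Ovl φ ψ ∧ f ∈ ExtS a k ψ)) ⊆
      (UD f (φ (Sum.inl (cl k k))) (2 * k + 12)).biUnion (fun x =>
        (Finset.univ : Finset (SV k ↪ α)).filter
          (fun ψ => f ∈ ExtS a k ψ ∧ ψ (Sum.inl (cl k 0)) = x)) := by
    intro ψ hψ
    rw [Finset.mem_filter] at hψ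
    rw [Finset.mem_biUnion]
    refine ⟨_, overlap_UD hak h hψ.2.2 hψ.2.1, ?_⟩
    rw [Finset.mem_filter]
    exact ⟨Finset.mem_univ _, hψ.2.2, rfl⟩
  refine (Finset.card_le_card h1).trans (Finset.card_biUnion_le.trans ?_)
  refine (Finset.sum_le_sum fun x _ => card_mult hak f x).trans ?_
  rw [Finset.sum_const, smul_eq_mul]

open Classical in
theorem sum_overlap {a k : ℕ} (hak : a < k) (φ : SV k ↪ α)
    (hn : k + 36 < Fintype.card α) :
    (∑ ψ ∈ (Finset.univ : Finset (SV k ↪ α)).filter (fun ψ => Ovl φ ψ),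
      icard (OccS a k φ) (OccS a k ψ)) * (Fintype.card α - 37) ^ (2 * (2 * k + 12)) ≤
    2 ^ (Fintype.card α - (k + 36)) * (M36 * ((2 * k + 13) *
      ((k + 36) + (2 * k + 13) * (2 * k + 13)) *
        ((Fintype.card α - 37) ^ (Fintype.card α - (k + 36) - 1) *
          Fintype.card α ^ (2 * (2 * k + 12))))) := by
  set n := Fintype.card α with hnn
  have h1 : ∑ ψ ∈ (Finset.univ : Finset (SV k ↪ α)).filter (fun ψ => Ovl φ ψ),
      icard (OccS a k φ) (OccS a k ψ) ≤
      2 ^ (n - (k + 36)) * ∑ f ∈ ExtS a k φ,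
        ((Finset.univ : Finset (SV k ↪ α)).filter
          (fun ψ => Ovl φ ψ ∧ f ∈ ExtS a k ψ)).card := by
    have h2 : ∀ ψ : SV k ↪ α, icard (OccS a k φ) (OccS a k ψ) ≤
        ((ExtS a k φ).filter (fun f => f ∈ ExtS a k ψ)).card * 2 ^ (n - (k + 36)) := by
      intro ψ
      rw [icard_eq]
      have h3 : OccS a k φ ∩ OccS a k ψ ⊆
          ((ExtS a k φ).filter (fun f => f ∈ ExtS a k ψ)) ×ˢ
            (Bits φ (nonfix (sπ a k)) (sb a k)) := by
        rintro ⟨f, σ⟩ h
        rw [Finset.mem_inter] at h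
        unfold OccS at h
        rw [Finset.mem_product, Finset.mem_product] at h
        rw [Finset.mem_product, Finset.mem_filter]
        exact ⟨⟨h.1.1, h.2.1⟩, h.1.2⟩
      refine (Finset.card_le_card h3).trans ?_
      rw [Finset.card_product, card_bitsS hak φ]
    refine (Finset.sum_le_sum fun ψ _ => h2 ψ).trans ?_
    rw [← Finset.sum_mul, Nat.mul_comm]
    apply Nat.mul_le_mul_left
    apply le_of_eq
    simp only [Finset.card_filter]
    rw [Finset.sum_comm]
    apply Finset.sum_congr rfl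
    intro f _
    rw [Finset.sum_filter]
    apply Finset.sum_congr rfl
    intro ψ _
    by_cases h4 : Ovl φ ψ
    · by_cases h5 : f ∈ ExtS a k ψ
      · rw [if_pos h4, if_pos h5, if_pos ⟨h4, h5⟩]
      · rw [if_pos h4, if_neg h5, if_neg (fun h => h5 h.2)]
    · rw [if_neg h4, if_neg (fun h => h4 h.1)]
  have h2 : ∑ f ∈ ExtS a k φ, ((Finset.univ : Finset (SV k ↪ α)).filter
          (fun ψ => Ovl φ ψ ∧ f ∈ ExtS a k ψ)).card ≤
      M36 * ∑ f ∈ ExtS a k φ, (UD f (φ (Sum.inl (cl k k))) (2 * k + 12)).card := by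
    rw [Finset.mul_sum]
    apply Finset.sum_le_sum
    intro f hf
    rw [Nat.mul_comm]
    exact card_overlap hak φ hf
  have hfix := card_fixedPts_gmap φ.injective (sπ a k)
  rw [s_nonfix (le_of_lt hak)] at hfix
  have h3 := UD_bound ((sC a k).image φ) (n - (k + 36) - 1) (gmap φ (sπ a k))
    (φ (Sum.inl (cl k k))) (2 * k + 12)
    (isForest_gmap φ.injective (s_isRTr (le_of_lt hak)).isForest)
    (by
      intro x hx
      rw [Finset.mem_image] at hx
      obtain ⟨v, hv, rfl⟩ := hx
      rw [gmap_ne_iff φ.injective]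
      exact ⟨v, rfl, sC_nonfix hak v hv⟩)
    (by omega)
  have h4 : ((sC a k).image φ).card = 37 := by
    rw [Finset.card_image_of_injective _ φ.injective, card_sC]
  have h5 : (nonfix (gmap φ (sπ a k))).card = k + 36 := by
    have h6 : nonfix (gmap φ (sπ a k)) = (nonfix (sπ a k)).image φ := by
      ext x
      rw [mem_nonfix, gmap_ne_iff φ.injective, Finset.mem_image]
      constructor
      · rintro ⟨v, h1, h2⟩; exact ⟨v, mem_nonfix.mpr h2, h1⟩
      · rintro ⟨v, h1, h2⟩; exact ⟨v, h2, mem_nonfix.mp h1⟩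
    rw [h6, Finset.card_image_of_injective _ φ.injective, s_nonfix (le_of_lt hak)]
  rw [h4, h5, ← hnn] at h3
  calc (∑ ψ ∈ (Finset.univ : Finset (SV k ↪ α)).filter (fun ψ => Ovl φ ψ),
      icard (OccS a k φ) (OccS a k ψ)) * (n - 37) ^ (2 * (2 * k + 12))
      ≤ (2 ^ (n - (k + 36)) * (M36 * ∑ f ∈ ExtS a k φ,
        (UD f (φ (Sum.inl (cl k k))) (2 * k + 12)).card)) * (n - 37) ^ (2 * (2 * k + 12)) := by
        apply Nat.mul_le_mul_right
        exact h1.trans (Nat.mul_le_mul_left _ h2)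
    _ = 2 ^ (n - (k + 36)) * (M36 * ((∑ f ∈ ExtS a k φ,
        (UD f (φ (Sum.inl (cl k k))) (2 * k + 12)).card) * (n - 37) ^ (2 * (2 * k + 12)))) := by
        ring
    _ ≤ _ := by
        apply Nat.mul_le_mul_left
        apply Nat.mul_le_mul_left
        exact h3

end

end Pool.Agent.Work.MP_2709b3_lc
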