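import Pool.Agent.Work.MP_2709b3_lc.Det
import Pool.Agent.Work.MP_2709b3_lc.Count

set_option autoImplicit false

namespace Pool.Agent.Work.MP_2709b3_lc

/-- an oriented pattern embedded in an oriented tree -/
def Pat {V α : Type*} (E : α → α → Bool) (φ : V → α) (π : V → V) (ρ : V) (b : V → Bool) : Prop :=
  ∀ v, v ≠ ρ → (if b v then E (φ v) (φ (π v)) else E (φ (π v)) (φ v)) = true

open Classical in
/-- union bound over embeddings of a pattern -/
theorem card_exists_pattern {V α : Type*} [Fintype V] [Fintype α] {π : V → V} {ρ : V}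
    (hπ : IsRTr π ρ) (b : V → Bool) :
    ((OTs α).filter (fun E => ∃ φ : V ↪ α, Pat E φ π ρ b)).card * Fintype.card α ≤
      (Fintype.card α).descFactorial (Fintype.card V) *
      (Fintype.card V * Fintype.card α ^ (Fintype.card α - Fintype.card V) *
        2 ^ (Fintype.card α - Fintype.card V)) := by
  have h1 : ((OTs α).filter (fun E => ∃ φ : V ↪ α, Pat E φ π ρ b)) ⊆
      (Finset.univ : Finset (V ↪ α)).biUnion (fun φ => (OTs α).filter (fun E => ∀ v, v ≠ ρ →
      (if b v then E (φ v) (φ (π v)) else E (φ (π v)) (φ v)) = true)) := by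
    intro E hE
    rw [Finset.mem_filter] at hE
    obtain ⟨hE1, φ, hφ⟩ := hE
    rw [Finset.mem_biUnion]
    exact ⟨φ, Finset.mem_univ _, Finset.mem_filter.mpr ⟨hE1, hφ⟩⟩
  calc ((OTs α).filter (fun E => ∃ φ : V ↪ α, Pat E φ π ρ b)).card * Fintype.card α
      ≤ (∑ φ : V ↪ α, ((OTs α).filter (fun E => ∀ v, v ≠ ρ →
      (if b v then E (φ v) (φ (π v)) else E (φ (π v)) (φ v)) = true)).card) * Fintype.card α := by
        apply Nat.mul_le_mul_right
        exact (Finset.card_le_card h1).trans Finset.card_biUnion_le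
    _ = ∑ φ : V ↪ α, ((OTs α).filter (fun E => ∀ v, v ≠ ρ →
      (if b v then E (φ v) (φ (π v)) else E (φ (π v)) (φ v)) = true)).card * Fintype.card α := by
        rw [Finset.sum_mul]
    _ ≤ ∑ _φ : V ↪ α, (Fintype.card V * Fintype.card α ^ (Fintype.card α - Fintype.card V) *
        2 ^ (Fintype.card α - Fintype.card V)) := by
        apply Finset.sum_le_sum
        intro φ _
        exact card_pattern φ.injective hπ b
    _ = _ := by
        rw [Finset.sum_const, Finset.card_univ, Fintype.card_embedding_eq, smul_eq_mul]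

section shape

/-- vertices of the H-shaped pattern: a path with `p₁` arcs, a path with `p₂` arcs and `d` inner
vertices of the connecting path -/
abbrev HV (p₁ p₂ d : ℕ) : Type := Fin (p₁ + 1) ⊕ (Fin (p₂ + 1) ⊕ Fin d)

/-- clamp -/
def cl (n x : ℕ) : Fin (n + 1) := ⟨min x n, by omega⟩

/-- parent map of the H-shaped pattern, rooted at vertex `i` of the first path -/
def hπ (p₁ p₂ d i j : ℕ) : HV p₁ p₂ d → HV p₁ p₂ d
  | Sum.inl x => if x.val < i then Sum.inl (cl p₁ (x.val + 1))
      else if i < x.val then Sum.inl (cl p₁ (x.val - 1)) else Sum.inl x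
  | Sum.inr (Sum.inl y) => if y.val < j then Sum.inr (Sum.inl (cl p₂ (y.val + 1)))
      else if j < y.val then Sum.inr (Sum.inl (cl p₂ (y.val - 1)))
      else if h : d = 0 then Sum.inl (cl p₁ i) else Sum.inr (Sum.inr ⟨d - 1, by omega⟩)
  | Sum.inr (Sum.inr t) => if t.val = 0 then Sum.inl (cl p₁ i)
      else Sum.inr (Sum.inr ⟨t.val - 1, by omega⟩)

/-- bits of the H-shaped pattern -/
def hb (p₁ p₂ d i j : ℕ) (w₁ w₂ o : ℕ → Bool) : HV p₁ p₂ d → Bool
  | Sum.inl x => if x.val < i then w₁ x.val else !(w₁ (x.val - 1))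
  | Sum.inr (Sum.inl y) => if y.val < j then w₂ y.val
      else if j < y.val then !(w₂ (y.val - 1)) else !(o d)
  | Sum.inr (Sum.inr t) => !(o t.val)

/-- rank -/
def hrk (p₁ p₂ d i j : ℕ) : HV p₁ p₂ d → ℕ
  | Sum.inl x => (x.val - i) + (i - x.val)
  | Sum.inr (Sum.inl y) => d + 1 + ((y.val - j) + (j - y.val))
  | Sum.inr (Sum.inr t) => t.val + 1

theorem rtr_of_rank {V : Type*} {π : V → V} {ρ : V} (hρ : π ρ = ρ) (rk : V → ℕ)
    (hrk : ∀ v, v ≠ ρ → rk (π v) < rk v) : IsRTr π ρ := by
  refine ⟨hρ, ?_⟩
  have : ∀ n v, rk v ≤ n → ∃ k, π^[k] v = ρ := by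
    intro n
    induction n with
    | zero =>
      intro v hv
      by_cases h : v = ρ
      · exact ⟨0, h⟩
      · have := hrk v h; omega
    | succ n ih =>
      intro v hv
      by_cases h : v = ρ
      · exact ⟨0, h⟩
      · obtain ⟨k, hk⟩ := ih (π v) (by have := hrk v h; omega)
        exact ⟨k + 1, by rw [Function.iterate_succ_apply]; exact hk⟩
  intro x
  exact this _ x le_rfl

theorem h_isRTr {p₁ p₂ d i j : ℕ} (hi : i ≤ p₁) (hj : j ≤ p₂) :
    IsRTr (hπ p₁ p₂ d i j) (Sum.inl (cl p₁ i)) := by
  apply rtr_of_rank (rk := hrk p₁ p₂ d i j)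
  · have h1 : (cl p₁ i).val = i := by
      unfold cl
      simp only
      omega
    simp only [hπ]
    rw [if_neg (by omega), if_neg (by omega)]
  · rintro (x | y | t) hv
    · have hx : x.val ≠ i := by
        intro h
        apply hv
        congr 1
        apply Fin.ext
        simp only [cl]
        omega
      have := x.isLt
      simp only [hπ]
      split_ifs with h1 h2
      · simp only [hrk, cl]; omega
      · simp only [hrk, cl]; omega
      · omega
    · have := y.isLt
      simp only [hπ]
      split_ifs with h1 h2 h3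
      · simp only [hrk, cl]; omega
      · simp only [hrk, cl]; omega
      · simp only [hrk, cl]; omega
      · simp only [hrk]; omega
    · have := t.isLt
      simp only [hπ]
      split_ifs with h1
      · simp only [hrk, cl]; omega
      · simp only [hrk]; omega

theorem card_HV (p₁ p₂ d : ℕ) : Fintype.card (HV p₁ p₂ d) = (p₁ + 1) + ((p₂ + 1) + d) := by
  simp

/-- the embedding given by the sequences -/
def hφ {α : Type*} (p₁ p₂ d : ℕ) (P P' v : ℕ → α) : HV p₁ p₂ d → α
  | Sum.inl x => P x.val
  | Sum.inr (Sum.inl y) => P' y.val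
  | Sum.inr (Sum.inr t) => v (t.val + 1)

theorem hφ_inj {α : Type*} {p₁ p₂ d : ℕ} {P P' v : ℕ → α}
    (hP : ∀ i ≤ p₁, ∀ j ≤ p₁, P i = P j → i = j)
    (hP' : ∀ i ≤ p₂, ∀ j ≤ p₂, P' i = P' j → i = j)
    (hPP' : ∀ i ≤ p₁, ∀ j ≤ p₂, P i ≠ P' j)
    (hv : ∀ s ≤ d + 1, ∀ t ≤ d + 1, v s = v t → s = t)
    (hvP : ∀ t ≤ d + 1, 0 < t → ∀ i ≤ p₁, v t ≠ P i)
    (hvP' : ∀ t ≤ d, ∀ i ≤ p₂, v t ≠ P' i) :
    Function.Injective (hφ p₁ p₂ d P P' v) := by
  rintro (x | y | t) (x' | y' | t') h
  · simp only [hφ] at h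
    congr 1
    exact Fin.ext (hP _ (by omega) _ (by omega) h)
  · exact absurd h (hPP' _ (by omega) _ (by omega))
  · exact absurd h.symm (hvP _ (by omega) (by omega) _ (by omega))
  · exact absurd h.symm (hPP' _ (by omega) _ (by omega))
  · simp only [hφ] at h
    congr 2
    exact Fin.ext (hP' _ (by omega) _ (by omega) h)
  · exact absurd h.symm (hvP' _ (by omega) _ (by omega))
  · exact absurd h (hvP _ (by omega) (by omega) _ (by omega))
  · exact absurd h (hvP' _ (by omega) _ (by omega))
  · simp only [hφ] at h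
    have := hv _ (by omega) _ (by omega) h
    congr 2
    exact Fin.ext (by omega)

theorem hφ_pat {α : Type*} {E : α → α → Bool} {p₁ p₂ d i j : ℕ} {P P' v : ℕ → α}
    {w₁ w₂ o : ℕ → Bool} (hi : i ≤ p₁) (hj : j ≤ p₂)
    (h1 : ∀ t < p₁, (if w₁ t then E (P t) (P (t + 1)) else E (P (t + 1)) (P t)) = true)
    (h2 : ∀ t < p₂, (if w₂ t then E (P' t) (P' (t + 1)) else E (P' (t + 1)) (P' t)) = true)
    (h3 : ∀ t ≤ d, (if o t then E (v t) (v (t + 1)) else E (v (t + 1)) (v t)) = true)
    (hv0 : v 0 = P i) (hv1 : v (d + 1) = P' j) :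
    Pat E (hφ p₁ p₂ d P P' v) (hπ p₁ p₂ d i j) (Sum.inl (cl p₁ i))
      (hb p₁ p₂ d i j w₁ w₂ o) := by
  rintro (x | y | t) hv
  · have hx : x.val ≠ i := by
      intro h
      apply hv
      congr 1
      apply Fin.ext
      simp only [cl]
      omega
    have hlt := x.isLt
    by_cases hxi : x.val < i
    · simp only [hπ, hb, if_pos hxi, hφ, cl]
      rw [show min (x.val + 1) p₁ = x.val + 1 by omega]
      exact h1 _ (by omega)
    · have hxi2 : i < x.val := by omega
      simp only [hπ, hb, if_neg hxi, if_pos hxi2, hφ, cl]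
      rw [show min (x.val - 1) p₁ = x.val - 1 by omega]
      have := h1 (x.val - 1) (by omega)
      rw [show x.val - 1 + 1 = x.val by omega] at this
      cases hw : w₁ (x.val - 1)
      · rw [hw] at this; simpa using this
      · rw [hw] at this; simpa using this
  · have hlt := y.isLt
    by_cases hyj : y.val < j
    · simp only [hπ, hb, if_pos hyj, hφ, cl]
      rw [show min (y.val + 1) p₂ = y.val + 1 by omega]
      exact h2 _ (by omega)
    · by_cases hyj2 : j < y.val
      · simp only [hπ, hb, if_neg hyj, if_pos hyj2, hφ, cl]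
        rw [show min (y.val - 1) p₂ = y.val - 1 by omega]
        have := h2 (y.val - 1) (by omega)
        rw [show y.val - 1 + 1 = y.val by omega] at this
        cases hw : w₂ (y.val - 1)
        · rw [hw] at this; simpa using this
        · rw [hw] at this; simpa using this
      · have hyj3 : y.val = j := by omega
        have h4 := h3 d le_rfl
        rw [hv1] at h4
        by_cases hd : d = 0
        · subst hd
          simp only [hπ, hb, if_neg hyj, if_neg hyj2, hφ, dif_pos, cl]
          rw [show min i p₁ = i by omega, hyj3, ← hv0]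
          cases ho : o 0
          · rw [ho] at h4; simpa using h4
          · rw [ho] at h4; simpa using h4
        · simp only [hπ, hb, if_neg hyj, if_neg hyj2, hφ, dif_neg hd]
          rw [show d - 1 + 1 = d by omega, hyj3]
          cases ho : o d
          · rw [ho] at h4; simpa using h4
          · rw [ho] at h4; simpa using h4
  · have hlt := t.isLt
    have h4 := h3 t.val (by omega)
    by_cases ht : t.val = 0
    · simp only [hπ, hb, if_pos ht, hφ, cl]
      rw [show min i p₁ = i by omega, ← hv0, ht]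
      rw [ht] at h4
      cases ho : o 0
      · rw [ho] at h4; simpa using h4
      · rw [ho] at h4; simpa using h4
    · simp only [hπ, hb, if_neg ht, hφ]
      rw [show t.val - 1 + 1 = t.val by omega]
      cases ho : o t.val
      · rw [ho] at h4; simpa using h4
      · rw [ho] at h4; simpa using h4

end shape

end Pool.Agent.Work.MP_2709b3_lc
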