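import Pool.Agent.Work.MP_2709b3_lc.First

set_option autoImplicit false

namespace Pool.Agent.Work.MP_2709b3_lc

/-- vertices of the spine with the gadget hanging from vertex `a` -/
abbrev SV (k : ℕ) : Type := Fin (k + 1) ⊕ Fin 36

/-- parent map -/
def sπ (a k : ℕ) : SV k → SV k
  | Sum.inl x => Sum.inl (cl k (x.val + 1))
  | Sum.inr l => if l.val % 12 = 0 then Sum.inl (cl k a) else Sum.inr ⟨l.val - 1, by omega⟩

/-- orientation bits -/
def sb (a k : ℕ) : SV k → Bool
  | Sum.inl x => wS a x.val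
  | Sum.inr l => !(upK (l.val + 1))

/-- closed vertices -/
def sC (a k : ℕ) : Finset (SV k) := insert (Sum.inl (cl k a)) (Finset.univ.map ⟨Sum.inr, Sum.inr_injective⟩)

def srk (a k : ℕ) : SV k → ℕ
  | Sum.inl x => k - x.val
  | Sum.inr l => (k - a) + (l.val % 12 + 1)

theorem cl_val {n x : ℕ} (h : x ≤ n) : (cl n x).val = x := by
  unfold cl
  simp only
  omega

theorem cl_of_val {n : ℕ} (x : Fin (n + 1)) : cl n x.val = x := by
  apply Fin.ext
  rw [cl_val (by omega)]

theorem s_isRTr {a k : ℕ} (ha : a ≤ k) : IsRTr (sπ a k) (Sum.inl (cl k k)) := by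
  apply rtr_of_rank (rk := srk a k)
  · simp only [sπ]
    congr 1
    apply Fin.ext
    unfold cl
    simp only
    omega
  · rintro (x | l) hv
    · have hx : x.val ≠ k := by
        intro h
        apply hv
        congr 1
        apply Fin.ext
        rw [cl_val le_rfl, h]
      have := x.isLt
      simp only [sπ, srk]
      rw [cl_val (by omega)]
      omega
    · have := l.isLt
      simp only [sπ]
      split_ifs with h1
      · simp only [srk]
        rw [cl_val ha]
        omega
      · simp only [srk]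
        omega

theorem card_SV (k : ℕ) : Fintype.card (SV k) = k + 37 := by
  simp
  
theorem card_sC {a k : ℕ} : (sC a k).card = 37 := by
  unfold sC
  rw [Finset.card_insert_of_notMem]
  · simp
  · simp

theorem s_nonfix {a k : ℕ} (ha : a ≤ k) : (nonfix (sπ a k)).card = k + 36 := by
  have := nonfix_card_of_root (s_isRTr ha)
  rw [card_SV] at this
  omega

theorem sπ_inl_ne {a k : ℕ} {x : Fin (k + 1)} : sπ a k (Sum.inl x) ≠ Sum.inl x ↔ x.val < k := by
  simp only [sπ]
  constructor
  · intro h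
    by_contra hcon
    apply h
    congr 1
    apply Fin.ext
    unfold cl
    simp only
    omega
  · intro h h2
    have h3 := congrArg Fin.val (Sum.inl_injective h2)
    rw [cl_val (by omega)] at h3
    omega

theorem sπ_inr_ne {a k : ℕ} {l : Fin 36} : sπ a k (Sum.inr l) ≠ Sum.inr l := by
  simp only [sπ]
  split_ifs with h
  · simp
  · intro h2
    have h3 := congrArg Fin.val (Sum.inr_injective h2)
    simp only at h3
    omega

theorem sC_nonfix {a k : ℕ} (ha : a < k) : ∀ v ∈ sC a k, sπ a k v ≠ v := by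
  intro v hv
  unfold sC at hv
  rw [Finset.mem_insert] at hv
  rcases hv with rfl | hv
  · rw [sπ_inl_ne, cl_val (by omega)]; exact ha
  · rw [Finset.mem_map] at hv
    obtain ⟨l, _, rfl⟩ := hv
    exact sπ_inr_ne

/-- gadget vertices in the pattern -/
def kv (a k m : ℕ) : SV k := if h : m ≠ 0 ∧ m - 1 < 36 then Sum.inr ⟨m - 1, h.2⟩ else Sum.inl (cl k a)

theorem kv_zero (a k : ℕ) : kv a k 0 = Sum.inl (cl k a) := by
  unfold kv
  rw [dif_neg (by simp)]

theorem kv_succ {a k l : ℕ} (h : l < 36) : kv a k (l + 1) = Sum.inr ⟨l, h⟩ := by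
  unfold kv
  rw [dif_pos ⟨by omega, by omega⟩]
  rfl

theorem kv_mem {a k m : ℕ} : kv a k m ∈ sC a k := by
  unfold kv sC
  split_ifs with h
  · rw [Finset.mem_insert]
    right
    rw [Finset.mem_map]
    exact ⟨_, Finset.mem_univ _, rfl⟩
  · exact Finset.mem_insert_self _ _

theorem sπ_kv {a k m : ℕ} (hm : m ≠ 0) (hm2 : m < 37) : sπ a k (kv a k m) = kv a k (parK m) := by
  obtain ⟨l, rfl⟩ := Nat.exists_eq_succ_of_ne_zero hm
  rw [show l.succ = l + 1 from rfl] at hm2 ⊢
  rw [kv_succ (by omega)]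
  unfold parK
  simp only [sπ, Nat.add_sub_cancel]
  split_ifs with h
  · rw [kv_zero]
  · obtain ⟨l', rfl⟩ := Nat.exists_eq_succ_of_ne_zero (show l ≠ 0 by rintro rfl; simp at h)
    exact (kv_succ (a := a) (k := k) (show l' < 36 by omega)).symm

theorem parK_lt {m : ℕ} (hm2 : m < 37) : parK m < 37 := by
  unfold parK
  split_ifs <;> omega

theorem sb_kv {a k m : ℕ} (hm : m ≠ 0) (hm2 : m < 37) : sb a k (kv a k m) = !(upK m) := by
  obtain ⟨l, rfl⟩ := Nat.exists_eq_succ_of_ne_zero hm
  rw [show l.succ = l + 1 from rfl] at hm2 ⊢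
  rw [kv_succ (by omega)]
  rfl

/-- occurrences of the pattern -/
structure IsOcc {α : Type*} (a k : ℕ) (f : α → α) (σ : α → Bool) (φ : SV k → α) : Prop where
  tree : IsRT f
  inj : Function.Injective φ
  par : ∀ v, sπ a k v ≠ v → f (φ v) = φ (sπ a k v)
  closed : ∀ x, (∀ v, φ v = x → sπ a k v = v) → ∀ v ∈ sC a k, f x ≠ φ v
  bits : ∀ v, sπ a k v ≠ v → σ (φ v) = sb a k v

section
variable {α : Type*} {a k : ℕ} {f : α → α} {σ : α → Bool} {φ : SV k → α}

theorem isOcc_closed' (h : IsOcc a k f σ φ) {x : α} {v : SV k} (hv : v ∈ sC a k)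
    (hx : f x = φ v) : ∃ u, φ u = x ∧ sπ a k u ≠ u ∧ sπ a k u = v := by
  by_contra hcon
  push Not at hcon
  refine h.closed x ?_ v hv hx
  intro u hu
  by_contra hne
  refine hcon u hu hne ?_
  apply h.inj
  rw [← h.par u hne, hu, hx]

theorem isOcc_spine (h : IsOcc a k f σ φ) :
    IsSpine (mk f σ) a k (fun i => φ (Sum.inl (cl k i))) := by
  constructor
  · intro i hi
    have h1 : sπ a k (Sum.inl (cl k i)) ≠ Sum.inl (cl k i) := by
      rw [sπ_inl_ne, cl_val (by omega)]; exact hi
    have h2 := h.par _ h1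
    have h3 := h.bits _ h1
    simp only [sπ, sb] at h2 h3
    rw [cl_val (by omega)] at h2 h3
    have hne : φ (Sum.inl (cl k i)) ≠ φ (Sum.inl (cl k (i + 1))) := by
      intro h4
      have h5 := congrArg Fin.val (Sum.inl_injective (h.inj h4))
      rw [cl_val (by omega), cl_val (by omega)] at h5
      omega
    split_ifs with h4
    · rw [mk_apply]
      exact ⟨hne, Or.inl ⟨h2, by rw [h3]; exact h4⟩⟩
    · rw [mk_apply]
      refine ⟨hne.symm, Or.inr ⟨h2, ?_⟩⟩
      rw [h3]
      simpa using h4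
  · intro i hi j hj hij
    have h5 := congrArg Fin.val (Sum.inl_injective (h.inj hij))
    rw [cl_val (by omega), cl_val (by omega)] at h5
    exact h5

theorem kv_ne {m : ℕ} (hak : a < k) : sπ a k (kv a k m) ≠ kv a k m :=
  sC_nonfix hak _ kv_mem

theorem kv_inj {i j : ℕ} (hi : i < 37) (hj : j < 37) (h : kv a k i = kv a k j) : i = j := by
  unfold kv at h
  split_ifs at h with h1 h2 h2
  · have := congrArg Fin.val (Sum.inr_injective h)
    simp only at this
    omega
  · omega

theorem isOcc_gadget (h : IsOcc a k f σ φ) (hak : a < k) :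
    IsGadget (mk f σ) (fun m => φ (kv a k m)) := by
  have hpar : ∀ m, m ≠ 0 → m < 37 → f (φ (kv a k m)) = φ (kv a k (parK m)) := by
    intro m hm hm2
    rw [h.par _ (kv_ne hak), sπ_kv hm hm2]
  have hbit : ∀ m, m ≠ 0 → m < 37 → σ (φ (kv a k m)) = !(upK m) := by
    intro m hm hm2
    rw [h.bits _ (kv_ne hak), sb_kv hm hm2]
  have hne : ∀ i < 37, ∀ j < 37, i ≠ j → φ (kv a k i) ≠ φ (kv a k j) := by
    intro i hi j hj hij h'
    exact hij (kv_inj hi hj (h.inj h'))
  have hparne : ∀ m, m ≠ 0 → m < 37 → parK m ≠ m := by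
    intro m hm hm2
    unfold parK
    split_ifs <;> omega
  have hchild : ∀ i < 37, ∀ v, f v = φ (kv a k i) → (∃ m, m ≠ 0 ∧ m < 37 ∧ v = φ (kv a k m) ∧
      parK m = i) ∨ (i = 0 ∧ σ v = true ∧ v ≠ φ (kv a k 0)) := by
    intro i hi v hv
    obtain ⟨u, hu1, hu2, hu3⟩ := isOcc_closed' h (kv_mem (m := i)) hv
    rcases u with x | l
    · right
      simp only [sπ] at hu3
      unfold kv at hu3
      split_ifs at hu3 with h1
      · have hi0 : i = 0 := by omega
        have hx : x.val < k := sπ_inl_ne.mp hu2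
        have h4 := congrArg Fin.val (Sum.inl_injective hu3)
        rw [cl_val (by omega), cl_val (by omega)] at h4
        refine ⟨hi0, ?_, ?_⟩
        · rw [← hu1, h.bits _ hu2]
          simp only [sb, wS]
          simp
          omega
        · rw [← hu1, kv_zero]
          intro h5
          have h6 := congrArg Fin.val (Sum.inl_injective (h.inj h5))
          rw [cl_val (by omega)] at h6
          omega
    · left
      refine ⟨l.val + 1, by omega, by omega, ?_, ?_⟩
      · rw [kv_succ l.isLt, ← hu1]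
      · apply kv_inj (a := a) (k := k) (parK_lt (by omega)) hi
        rw [← sπ_kv (by omega) (by omega), kv_succ l.isLt]
        exact hu3
  constructor
  · -- arcs
    intro i hi j hj hij
    unfold EK at hij
    rw [Bool.or_eq_true, Bool.and_eq_true, Bool.and_eq_true, Bool.and_eq_true,
      Bool.and_eq_true] at hij
    simp only [decide_eq_true_eq, Bool.not_eq_true'] at hij
    rw [mk_apply]
    rcases hij with ⟨h1, h2, h3⟩ | ⟨h1, h2, h3⟩
    · refine ⟨hne i hi j hj (by rw [← h2]; exact hparne j h1 hj), Or.inr ⟨?_, ?_⟩⟩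
      · rw [hpar j h1 hj, h2]
      · rw [hbit j h1 hj, h3]; rfl
    · refine ⟨hne i hi j hj (by rw [← h2]; exact (hparne i h1 hi).symm), Or.inl ⟨?_, ?_⟩⟩
      · rw [hpar i h1 hi, h2]
      · rw [hbit i h1 hi, h3]; rfl
  · -- out
    intro i hi v hv
    rw [mk_apply] at hv
    obtain ⟨hvne, ⟨h1, h2⟩ | ⟨h1, h2⟩⟩ := hv
    · have hi0 : i ≠ 0 := by
        rintro rfl
        rw [kv_zero, h.bits _ (by rw [← kv_zero]; exact kv_ne hak)] at h2
        simp only [sb, wS] at h2
        rw [cl_val (by omega)] at h2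
        simp at h2
      refine ⟨parK i, parK_lt hi, ?_, ?_⟩
      · rw [← h1, hpar i hi0 hi]
      · rw [hbit i hi0 hi] at h2
        unfold EK
        simp only [Bool.not_eq_true'] at h2
        simp [hi0, h2]
    · rcases hchild i hi v h1 with ⟨m, hm0, hm, hvm, hpm⟩ | ⟨_, h4, _⟩
      · refine ⟨m, hm, hvm, ?_⟩
        rw [hvm, hbit m hm0 hm] at h2
        unfold EK
        have h5 : upK m = true := by simpa using h2
        simp [hm0, hpm, h5]
      · rw [h2] at h4; exact absurd h4 (by simp)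
  · -- inn
    intro i hi hi0 v hv
    rw [mk_apply] at hv
    obtain ⟨hvne, ⟨h1, h2⟩ | ⟨h1, h2⟩⟩ := hv
    · rcases hchild i hi v h1 with ⟨m, hm0, hm, hvm, hpm⟩ | ⟨h3, _, _⟩
      · refine ⟨m, hm, hvm, ?_⟩
        rw [hvm, hbit m hm0 hm] at h2
        unfold EK
        have h5 : upK m = false := by simpa using h2
        simp [hm0, hpm, h5]
      · exact absurd h3 hi0
    · refine ⟨parK i, parK_lt hi, ?_, ?_⟩
      · rw [← h1, hpar i hi0 hi]
      · rw [hbit i hi0 hi] at h2
        unfold EK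
        have h5 : upK i = true := by simpa using h2
        simp [hi0, h5]
  · intro i hi j hj hij
    exact kv_inj hi hj (h.inj hij)

end

end Pool.Agent.Work.MP_2709b3_lc
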